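import Pool.Agent.TH816.RR.Place
import Pool.Agent.TH816.RP.Ent2
import Pool.Agent.TH816.RP.Comb

set_option autoImplicit false

/-! RR: the residues along chains of record gaps. -/

open Finset Filter

namespace Pool.Agent.TH816.RR

open Pool.Agent.H256R2.SC (ff)
open Pool.Agent.H312R2.RG.C3 (ff_tendsto ff_lower ff_small ff_slow)
open Pool.Agent.TH779.Ord (fn)
open Pool.Agent.TH816.RP (WordFam nth_run div_lt pigeon entropy_gen card_words)

/-- the word `w` occurs infinitely often, with a record gap after each prime -/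
def OccR (q C m : ℕ) (w : Fin (m + 1) → (ZMod q)ˣ) : Prop :=
  {k : ℕ | ∀ i : Fin (m + 1), ((Nat.nth Nat.Prime (k + i) : ℕ) : ZMod q) = w i ∧
    ff (Nat.nth Nat.Prime (k + i)) ≤
      C * ((Nat.nth Nat.Prime (k + i + 1) : ℝ) - Nat.nth Nat.Prime (k + i))}.Infinite

theorem wordFam_OccR (q : ℕ) : WordFam (ZMod q)ˣ (fun C m w => OccR q C m w) := by
  have hmono := (Nat.nth_strictMono Nat.infinite_setOfPred_prime).monotone
  refine ⟨?_, ?_⟩
  · intro C C' m w hC h
    refine Set.Infinite.mono ?_ h
    intro k hk i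
    refine ⟨(hk i).1, (hk i).2.trans ?_⟩
    have h1 : (Nat.nth Nat.Prime (k + i) : ℝ) ≤ Nat.nth Nat.Prime (k + i + 1) := by
      exact_mod_cast hmono (Nat.le_succ _)
    have h2 : (C : ℝ) ≤ C' := by exact_mod_cast hC
    exact mul_le_mul_of_nonneg_right h2 (by linarith)
  · intro C M w h s m hs
    have hinj : Set.InjOn (fun k : ℕ => k + s)
        {k : ℕ | ∀ i : Fin (M + 1), ((Nat.nth Nat.Prime (k + i) : ℕ) : ZMod q) = w i ∧
          ff (Nat.nth Nat.Prime (k + i)) ≤
            C * ((Nat.nth Nat.Prime (k + i + 1) : ℝ) - Nat.nth Nat.Prime (k + i))} := by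
      intro a _ b _ hab
      simp only at hab
      omega
    refine (Set.Infinite.image hinj h).mono ?_
    rintro _ ⟨k, hk, rfl⟩ i
    have h1 := hk ⟨s + i, by omega⟩
    simp only at h1
    have e1 : k + s + (i : ℕ) = k + (s + i) := by ring
    simp only
    rw [e1]
    exact h1

/-- units as natural numbers -/
theorem val_unit (q : ℕ) [NeZero q] (u : (ZMod q)ˣ) : (u : ZMod q).val.Coprime q ∧
    (((u : ZMod q).val : ℕ) : ZMod q) = u :=
  ⟨ZMod.val_coe_unit_coprime u, ZMod.natCast_zmod_val _⟩

/-- patterns in record windows, for every choice of the residues of the forms -/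
theorem rec_patterns (h : StRR) (lam : ℝ) (hlam : 1 ≤ lam) (T : ℕ) (hT : 1 ≤ T) :
    ∃ K k : ℕ, 1 ≤ k ∧ T * k ≤ K ∧ ∃ C : ℕ, ∀ (q : ℕ) [NeZero q], Squarefree q → ∀ cl : Fin K → (ZMod q)ˣ,
    ∃ P : Finset (Fin K), (T : ℝ) * (eta0 / lam) ≤ ∑ g : Fin T, fn lam
      (((Gr K T k).filter (fun j : Fin K => (j : ℕ) / k = g)).filter (fun j => j ∈ P)).card ∧
    ∀ (m : ℕ) (x : Fin (m + 1) → Fin K), (∀ i, x i ∈ P) → StrictMono x →
      (∀ z ∈ P, ∀ i : Fin m, x i.castSucc < z → z < x i.succ → False) →
      OccR q C m (fun i => cl (x i)) := by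
  classical
  obtain ⟨K, k, hk, hTk, c, δ, hc, hδ, hpl⟩ := place_rr h lam hlam T hT
  obtain ⟨C, hC⟩ := exists_nat_ge (2 / δ)
  refine ⟨K, k, hk, hTk, C, fun q _ hq cl => ?_⟩
  have hev := hpl q hq (fun j => (cl j : ZMod q).val) (fun j => (val_unit q (cl j)).1)
  have hall := hev.and ((ff_slow (1 / 2) (by norm_num)).and ((ff_tendsto.eventually_gt_atTop 0).and
    (eventually_ge_atTop (1 : ℝ))))
  obtain ⟨X0, hX0⟩ := Filter.eventually_atTop.1 hall
  have hXn : ∀ X : ℕ, ∃ (n : ℕ) (t : Fin K → ℕ), X0 ≤ X → (X : ℝ) < n ∧ (n : ℝ) ≤ 3 * X ∧ c * ff X ≤ X ∧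
      (∀ j j', j < j' → (t j : ℝ) + δ * ff X ≤ t j') ∧ (∀ j, (t j : ℝ) + δ * ff X ≤ c * ff X) ∧
      (∀ j, n + t j ≡ (cl j : ZMod q).val [MOD q]) ∧
      (T : ℝ) * (eta0 / lam) ≤ ∑ g : Fin T, fn lam
        (((Gr K T k).filter (fun j : Fin K => (j : ℕ) / k = g)).filter (fun j => (n + t j).Prime)).card ∧
      (∀ s : ℕ, (s : ℝ) ≤ c * ff X → (n + s).Prime → ∃ j, s = t j) := by
    intro X
    by_cases hX : X0 ≤ X
    · obtain ⟨n, t, hh⟩ := (hX0 X hX).1
      exact ⟨n, t, fun _ => hh⟩
    · exact ⟨0, fun _ => 0, fun h' => absurd h' hX⟩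
  choose n t hnt using hXn
  obtain ⟨PP, hPP⟩ : ∃ PP : ℕ → Finset (Fin K), PP = fun X =>
    univ.filter (fun x : Fin K => (n X + t X x).Prime) := ⟨_, rfl⟩
  have hPPmem : ∀ X x, x ∈ PP X ↔ (n X + t X x).Prime := by
    intro X x
    rw [hPP]
    simp only [mem_filter, mem_univ, true_and]
  have hinfA : {X : ℕ | X0 ≤ (X : ℝ)}.Infinite := by
    obtain ⟨N0, hN0⟩ := exists_nat_ge X0
    refine (Set.Ici_infinite N0).mono ?_
    intro X hX
    exact hN0.trans (by exact_mod_cast hX)
  obtain ⟨P, hP⟩ := pigeon PP hinfA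
  refine ⟨P, ?_, ?_⟩
  · obtain ⟨X, hX, hXP⟩ := hP.nonempty
    obtain ⟨_, _, _, _, _, _, h7, _⟩ := hnt X hX
    refine h7.trans (le_of_eq ?_)
    apply sum_congr rfl
    intro g _
    congr 2
    ext j
    simp only [mem_filter]
    rw [← hXP, hPPmem]
  · intro m x hxP hx hno
    apply Set.infinite_of_forall_exists_gt
    intro N
    obtain ⟨X, ⟨hX, hXP⟩, hXN⟩ := (hP.exists_gt (Nat.nth Nat.Prime N))
    obtain ⟨h1, h2, h3, h4, h5, h6, _, h8⟩ := hnt X hX
    obtain ⟨_, hslow, hffpos, hX1⟩ := hX0 X hX
    -- the primes of the run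
    obtain ⟨tt, htt⟩ : ∃ tt : ℕ → ℕ, tt = fun i => t X (x ⟨min i m, by omega⟩) := ⟨_, rfl⟩
    have htj : ∀ i : Fin (m + 1), tt i = t X (x i) := by
      intro i
      rw [htt]
      simp only
      congr 2
      apply Fin.ext
      simp only
      omega
    have hpr : ∀ i ≤ m, (n X + tt i).Prime := by
      intro i hi
      have h9 : x ⟨i, by omega⟩ ∈ PP X := by rw [hXP]; exact hxP _
      rw [hPPmem] at h9
      have h10 := htj ⟨i, by omega⟩
      simp only at h10
      rw [h10]
      exact h9
    have htmono : ∀ j j', j < j' → t X j < t X j' := by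
      intro j j' hjj
      have h9 := h4 j j' hjj
      have h10 : 0 < δ * ff X := mul_pos hδ hffpos
      have h11 : (t X j : ℝ) < t X j' := by linarith
      exact_mod_cast h11
    have htle : ∀ j, (t X j : ℝ) ≤ c * ff X := by
      intro j
      have h9 := h5 j
      have h10 : 0 < δ * ff X := mul_pos hδ hffpos
      linarith
    have hltj : ∀ j j', t X j < t X j' → j < j' := by
      intro j j' hjj
      by_contra hle
      rcases (not_lt.1 hle).lt_or_eq with h9 | h9
      · exact absurd (htmono _ _ h9) (not_lt.2 hjj.le)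
      · rw [h9] at hjj; exact lt_irrefl _ hjj
    have hlt : ∀ i < m, tt i < tt (i + 1) := by
      intro i hi
      have e1 := htj ⟨i, by omega⟩
      have e2 := htj ⟨i + 1, by omega⟩
      simp only at e1 e2
      rw [e1, e2]
      apply htmono
      apply hx
      rw [Fin.lt_def]
      simp
    have hrun := nth_run (fun i => n X + tt i) m (fun i hi => hpr i hi) (fun i hi => by
      have := hlt i hi
      omega) (by
      intro i hi r hr1 hr2 hr
      obtain ⟨s, hs⟩ : ∃ s, r = n X + s := ⟨r - n X, by omega⟩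
      subst hs
      have e1 := htj ⟨i, by omega⟩
      have e2 := htj ⟨i + 1, by omega⟩
      simp only at e1 e2
      have hs1 : tt i < s := by omega
      have hs2 : s < tt (i + 1) := by omega
      obtain ⟨j, hj⟩ := h8 s (by
        have h9 : (s : ℝ) ≤ tt (i + 1) := by exact_mod_cast hs2.le
        rw [e2] at h9
        exact h9.trans (htle _)) hr
      rw [hj, e1] at hs1
      rw [hj, e2] at hs2
      have hjP : j ∈ P := by
        rw [← hXP, hPPmem, ← hj]
        exact hr
      exact hno _ hjP ⟨i, hi⟩ (hltj _ _ hs1) (hltj _ _ hs2))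
    refine ⟨Nat.count Nat.Prime (n X + tt 0), ?_, ?_⟩
    · intro i
      have hi := hrun i (by omega)
      rw [hi, htj]
      refine ⟨?_, ?_⟩
      · have h9 := h6 (x i)
        have h10 := (ZMod.natCast_eq_natCast_iff _ _ _).2 h9
        rw [h10, (val_unit q _).2]
      · -- the gap
        have hgap : ((n X + t X (x i) : ℕ) : ℝ) + δ * ff X ≤
            Nat.nth Nat.Prime (Nat.count Nat.Prime (n X + tt 0) + i + 1) := by
          set p' := Nat.nth Nat.Prime (Nat.count Nat.Prime (n X + tt 0) + i + 1) with hp'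
          have hp'p : p'.Prime := Nat.prime_nth_prime _
          have hlt' : n X + t X (x i) < p' := by
            rw [← htj, ← hi, hp']
            exact (Nat.nth_lt_nth Nat.infinite_setOfPred_prime).2 (Nat.lt_succ_self _)
          obtain ⟨s, hs⟩ : ∃ s, p' = n X + s := ⟨p' - n X, by omega⟩
          rw [hs]
          rw [hs] at hp'p hlt'
          have hs1 : t X (x i) < s := by omega
          rcases le_or_gt (s : ℝ) (c * ff X) with hsc | hsc
          · obtain ⟨j, hj⟩ := h8 s hsc hp'p
            rw [hj] at hs1 ⊢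
            have h9 := h4 _ _ (hltj _ _ hs1)
            push_cast
            linarith
          · have h9 := h5 (x i)
            push_cast
            linarith
        set y : ℝ := ((n X + t X (x i) : ℕ) : ℝ) with hy
        have hy1 : (X : ℝ) ≤ y := by
          rw [hy]; push_cast
          have : (0 : ℝ) ≤ t X (x i) := Nat.cast_nonneg _
          linarith
        have hy2 : y ≤ 4 * X := by
          rw [hy]; push_cast
          have := htle (x i)
          linarith
        have hsl := hslow y hy1 hy2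
        have hffy : ff y ≤ 2 * ff X := by
          rcases le_or_gt (ff y) 0 with h9 | h9
          · linarith
          · have h10 := (abs_lt.1 hsl).1
            have h11 : 1 / 2 < ff X / ff y := by linarith
            rw [lt_div_iff₀ h9] at h11
            linarith
        have hC' : 2 ≤ C * δ := by
          rw [div_le_iff₀ hδ] at hC; exact hC
        calc ff y ≤ 2 * ff X := hffy
          _ ≤ C * δ * ff X := mul_le_mul_of_nonneg_right hC' hffpos.le
          _ = C * (δ * ff X) := by ring
          _ ≤ _ := by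
              apply mul_le_mul_of_nonneg_left _ (Nat.cast_nonneg _)
              linarith
    · have h9 : Nat.nth Nat.Prime N < Nat.nth Nat.Prime (Nat.count Nat.Prime (n X + tt 0)) := by
        have h10 := hrun 0 (Nat.zero_le _)
        rw [add_zero] at h10
        rw [h10]
        have h11 : X < n X := by exact_mod_cast h1
        omega
      exact (Nat.nth_lt_nth Nat.infinite_setOfPred_prime).1 h9

/-- a positive proportion of the words of length `m + 1` -/
theorem words_rec (h : StRR) (m : ℕ) : ∃ K C : ℕ, m + 1 ≤ K ∧ ∀ (q : ℕ) [NeZero q], Squarefree q →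
    q.totient ^ (m + 1) ≤ K.choose (m + 1) *
      {w : Fin (m + 1) → (ZMod q)ˣ | OccR q C m w}.ncard := by
  classical
  obtain ⟨T, hT⟩ := exists_nat_ge (((m + 1 : ℕ) : ℝ) / eta0)
  have hη := eta0_pos
  rw [div_le_iff₀ hη] at hT
  have hT1 : 1 ≤ T := by
    by_contra hlt
    have : T = 0 := by omega
    rw [this] at hT
    push_cast at hT
    have : (0 : ℝ) ≤ m := Nat.cast_nonneg _
    linarith
  obtain ⟨K, k, hk, hTk, C, hpat⟩ := rec_patterns h 1 le_rfl T hT1
  have hword : ∀ (q : ℕ) [NeZero q], Squarefree q → ∀ a : Fin K → (ZMod q)ˣ,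
      ∃ j : Fin (m + 1) → Fin K, StrictMono j ∧ OccR q C m (fun i => a (j i)) := by
    intro q _ hq a
    obtain ⟨P, hP, hocc⟩ := hpat q hq a
    have hcard : m + 1 ≤ P.card := by
      have h1 : ∑ g : Fin T, fn 1 (((Gr K T k).filter (fun j : Fin K => (j : ℕ) / k = g)).filter
          (fun j => j ∈ P)).card ≤ P.card := by
        have h2 : ∀ x : ℕ, fn 1 x ≤ x := by
          intro x
          unfold fn
          rcases Nat.eq_zero_or_pos x with h3 | h3
          · rw [h3]; simp
          · have : (1 : ℝ) ≤ x := by exact_mod_cast h3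
            nlinarith
        calc _ ≤ ∑ g : Fin T, ((((Gr K T k).filter (fun j : Fin K => (j : ℕ) / k = g)).filter
              (fun j => j ∈ P)).card : ℝ) := sum_le_sum fun g _ => h2 _
          _ = ((∑ g : Fin T, (((Gr K T k).filter (fun j : Fin K => (j : ℕ) / k = g)).filter
              (fun j => j ∈ P)).card : ℕ) : ℝ) := by push_cast; rfl
          _ ≤ P.card := by
              have h4 : ∑ g : Fin T, (((Gr K T k).filter (fun j : Fin K => (j : ℕ) / k = g)).filter
                  (fun j => j ∈ P)).card ≤ P.card := by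
                rw [← card_biUnion]
                · apply card_le_card
                  intro j hj
                  rw [mem_biUnion] at hj
                  obtain ⟨g, _, hg⟩ := hj
                  exact (mem_filter.1 hg).2
                · intro g _ g' _ hne
                  rw [Function.onFun, disjoint_left]
                  intro j hj hj'
                  have h5 := (mem_filter.1 (mem_filter.1 hj).1).2
                  have h6 := (mem_filter.1 (mem_filter.1 hj').1).2
                  exact hne (Fin.ext (h5.symm.trans h6))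
              exact_mod_cast h4
      have h2 : ((m + 1 : ℕ) : ℝ) ≤ P.card := by
        rw [div_one] at hP
        linarith
      exact_mod_cast h2
    set e := P.orderEmbOfFin rfl with he
    refine ⟨fun i => e (Fin.castLE hcard i), ?_, ?_⟩
    · intro i j hij
      exact e.strictMono (by simpa using hij)
    · apply hocc
      · intro i
        exact P.orderEmbOfFin_mem rfl _
      · intro i j hij
        exact e.strictMono (by simpa using hij)
      · intro z hz i hz1 hz2
        have h1 : z ∈ Set.range e := by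
          rw [he, Finset.range_orderEmbOfFin]
          exact hz
        obtain ⟨k, rfl⟩ := h1
        have h2 := e.strictMono.lt_iff_lt.1 hz1
        have h3 := e.strictMono.lt_iff_lt.1 hz2
        rw [Fin.lt_def] at h2 h3
        simp at h2 h3
        omega
  refine ⟨K, C, ?_, ?_⟩
  · obtain ⟨j, hj, _⟩ := hword 1 squarefree_one (fun _ => 1)
    simpa using Fintype.card_le_of_injective j hj.injective
  · intro q _ hq
    have h1 := card_words (α := (ZMod q)ˣ) (m + 1) K (fun w => OccR q C m w) (hword q hq)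
    rw [ZMod.card_units_eq_totient] at h1
    refine h1.trans (le_of_eq ?_)
    congr 1
    rw [← Set.ncard_coe_finset]
    congr 1
    ext w
    simp

theorem entropy_rec (h : StRR) (hη1 : eta0 ≤ 1) (q : ℕ) [NeZero q] (hq : Squarefree q) (m : ℕ) : ∃ C : ℕ,
    (Real.exp (-(2 / eta0 + 1)) * (q.totient : ℝ) / Real.log q.totient) ^ (m + 1) ≤
      (({w : Fin (m + 1) → (ZMod q)ˣ | OccR q C m w}.ncard : ℕ) : ℝ) := by
  classical
  have hmain := entropy_gen (wordFam_OccR q) eta0 eta0_pos hη1 (by
    intro T lam hT hlam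
    obtain ⟨K, k, hk, hTk, C, hpat⟩ := rec_patterns h lam (by linarith) T hT
    refine ⟨k, C, fun a => ?_⟩
    obtain ⟨cl, hcl⟩ : ∃ cl : Fin K → (ZMod q)ˣ, ∀ j : Fin K, ∀ hj : (j : ℕ) / k < T, cl j = a ⟨(j : ℕ) / k, hj⟩ :=
      ⟨fun j => if hj : (j : ℕ) / k < T then a ⟨(j : ℕ) / k, hj⟩ else 1, fun j hj => by simp only [dif_pos hj]⟩
    obtain ⟨P, hP, hocc⟩ := hpat q hq cl
    refine ⟨univ.filter (fun x : Fin (T * k) => Fin.castLE hTk x ∈ P), ?_, ?_⟩
    · refine hP.trans (le_of_eq ?_)
      apply sum_congr rfl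
      intro g _
      congr 1
      symm
      apply card_bij (fun (x : Fin (T * k)) _ => Fin.castLE hTk x)
      · intro x hx
        simp only [mem_filter, mem_univ, true_and] at hx
        unfold Gr
        simp only [mem_filter, mem_univ, true_and, Fin.val_castLE]
        exact ⟨⟨x.2, hx.2⟩, hx.1⟩
      · intro x _ y _ hxy
        exact Fin.castLE_injective hTk hxy
      · intro j hj
        unfold Gr at hj
        simp only [mem_filter, mem_univ, true_and] at hj
        refine ⟨⟨j, hj.1.1⟩, ?_, Fin.ext rfl⟩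
        simp only [mem_filter, mem_univ, true_and]
        exact ⟨hj.2, hj.1.2⟩
    · intro m x hxP hx hno
      have h1 := hocc m (fun i => Fin.castLE hTk (x i)) (fun i => (mem_filter.1 (hxP i)).2)
        (fun i j hij => by rw [Fin.castLE_lt_castLE_iff]; exact hx hij) (by
          intro z hz i hz1 hz2
          have hzT : (z : ℕ) < T * k := lt_of_lt_of_le (Fin.lt_def.1 hz2) (x i.succ).2.le
          refine hno ⟨z, hzT⟩ (mem_filter.2 ⟨mem_univ _, ?_⟩) i (Fin.lt_def.2 (Fin.lt_def.1 hz1))
            (Fin.lt_def.2 (Fin.lt_def.1 hz2))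
          have e3 : Fin.castLE hTk (⟨z, hzT⟩ : Fin (T * k)) = z := Fin.ext rfl
          rw [e3]
          exact hz)
      have e1 : (fun i => cl (Fin.castLE hTk (x i))) = fun i => a ⟨(x i : ℕ) / k, div_lt (x i)⟩ := by
        funext i
        exact hcl _ (div_lt (x i))
      rwa [e1] at h1) m
  rw [ZMod.card_units_eq_totient] at hmain
  obtain ⟨C, hC⟩ := hmain
  refine ⟨C, hC.trans (le_of_eq ?_)⟩
  rw [← Set.ncard_coe_finset]
  congr 2
  ext w
  simp

end Pool.Agent.TH816.RR
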