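import Pool.Agent.H312R2.RG.VW
import Pool.Agent.H378R2.Final
import Pool.Agent.TH816.RR.EntR

set_option autoImplicit false

/-! RR: the final theorems. -/

open Finset

namespace Pool.Agent.TH816.RR

open Pool.Agent.H256R2.SC (ff)

/-- the coloured Maynard-Tao theorem with few repetitions inside the record windows holds -/
theorem stRR : StRR :=
  rr_of Pool.Agent.H378R2.sieveAsymp_holds Pool.Agent.H378R2.bvrel_holds Pool.Agent.H362R2.RQ.covR0
    Pool.Agent.H312R2.RG.weights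

theorem eta0_le : eta0 ≤ 1 := by
  unfold eta0
  have h1 := Pool.Agent.H378R2.gam_ge
  have h2 := Pool.Agent.H362R2.RQ.kap_pos
  have h3 : Pool.Agent.H362R2.RQ.kap ≤ 1 := by unfold Pool.Agent.H362R2.RQ.kap; norm_num
  rw [div_le_one (by positivity)]
  nlinarith

/-- real constants instead of natural ones -/
theorem occ_real {q C m : ℕ} {w : Fin (m + 1) → (ZMod q)ˣ} (h : OccR q C m w) :
    {n : ℕ | ∀ i : Fin (m + 1), ((Nat.nth Nat.Prime (n + i) : ℕ) : ZMod q) = w i ∧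
      1 / ((C : ℝ) + 1) * ff (Nat.nth Nat.Prime (n + i)) ≤
        (Nat.nth Nat.Prime (n + i + 1) : ℝ) - Nat.nth Nat.Prime (n + i)}.Infinite := by
  refine Set.Infinite.mono ?_ h
  intro n hn i
  refine ⟨(hn i).1, ?_⟩
  have h1 := (hn i).2
  have h2 : (Nat.nth Nat.Prime (n + i) : ℝ) ≤ Nat.nth Nat.Prime (n + i + 1) := by
    exact_mod_cast (Nat.nth_strictMono Nat.infinite_setOfPred_prime).monotone (Nat.le_succ _)
  have hC : (0 : ℝ) < (C : ℝ) + 1 := by positivity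
  rw [div_mul_eq_mul_div, one_mul, div_le_iff₀ hC]
  linarith

theorem words_fin (m : ℕ) : ∃ κ δ : ℝ, 0 < κ ∧ 0 < δ ∧ ∀ (q : ℕ) [NeZero q], Squarefree q →
    κ * (q.totient : ℝ) ^ (m + 1) ≤ ({w : Fin (m + 1) → (ZMod q)ˣ |
      {n : ℕ | ∀ i : Fin (m + 1), ((Nat.nth Nat.Prime (n + i) : ℕ) : ZMod q) = w i ∧
        δ * ff (Nat.nth Nat.Prime (n + i)) ≤
          (Nat.nth Nat.Prime (n + i + 1) : ℝ) - Nat.nth Nat.Prime (n + i)}.Infinite}.ncard : ℝ) := by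
  obtain ⟨K, C, hK, h⟩ := words_rec stRR m
  have hKc : (0 : ℝ) < (K.choose (m + 1) : ℝ) := by exact_mod_cast Nat.choose_pos hK
  refine ⟨1 / (K.choose (m + 1) : ℝ), 1 / ((C : ℝ) + 1), by positivity, by positivity, ?_⟩
  intro q _ hq
  rw [div_mul_eq_mul_div, one_mul, div_le_iff₀ hKc]
  have h1 : ((q.totient ^ (m + 1) : ℕ) : ℝ) ≤ ((K.choose (m + 1) *
      {w : Fin (m + 1) → (ZMod q)ˣ | OccR q C m w}.ncard : ℕ) : ℝ) := by exact_mod_cast h q hq
  push_cast at h1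
  refine h1.trans ?_
  rw [mul_comm]
  apply mul_le_mul_of_nonneg_right _ hKc.le
  rw [Nat.cast_le]
  exact Set.ncard_le_ncard (fun w (hw : OccR q C m w) => occ_real hw) (Set.toFinite _)

theorem entropy_fin : ∃ c : ℝ, 0 < c ∧ ∀ (q : ℕ) [NeZero q], Squarefree q → ∀ m : ℕ, ∃ δ : ℝ, 0 < δ ∧
    (c * (q.totient : ℝ) / Real.log q.totient) ^ (m + 1) ≤ ({w : Fin (m + 1) → (ZMod q)ˣ |
      {n : ℕ | ∀ i : Fin (m + 1), ((Nat.nth Nat.Prime (n + i) : ℕ) : ZMod q) = w i ∧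
        δ * ff (Nat.nth Nat.Prime (n + i)) ≤
          (Nat.nth Nat.Prime (n + i + 1) : ℝ) - Nat.nth Nat.Prime (n + i)}.Infinite}.ncard : ℝ) := by
  refine ⟨Real.exp (-(2 / eta0 + 1)), Real.exp_pos _, ?_⟩
  intro q _ hq m
  obtain ⟨C, hC⟩ := entropy_rec stRR eta0_le q hq m
  refine ⟨1 / ((C : ℝ) + 1), by positivity, hC.trans ?_⟩
  rw [Nat.cast_le]
  exact Set.ncard_le_ncard (fun w (hw : OccR q C m w) => occ_real hw) (Set.toFinite _)

end Pool.Agent.TH816.RR
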