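import Pool.Agent.TH816.RR.Lim3

set_option autoImplicit false

/-! RR: cones and the final form. -/

open Finset Filter

namespace Pool.Agent.TH816.RR

open Pool.Agent.H256R2.SC (ff)
open MeasureTheory

/-- rapidly increasing vectors -/
def ConeUp (k : ℕ) (R T : ℝ) : Set (Fin k → ℝ) :=
  {v | (∀ i, 0 < v i ∧ v i < T) ∧ ∀ i j, i < j → R * v i < v j}

/-- rapidly decreasing vectors -/
def ConeDown (k : ℕ) (R T : ℝ) : Set (Fin k → ℝ) :=
  {v | (∀ i, 0 < v i ∧ v i < T) ∧ ∀ i j, i < j → R * v j < v i}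

theorem ConeUp_open (k : ℕ) (R T : ℝ) : IsOpen (ConeUp k R T) := by
  have h1 : ConeUp k R T = (⋂ i : Fin k, ({v : Fin k → ℝ | 0 < v i} ∩ {v : Fin k → ℝ | v i < T})) ∩
      ⋂ i : Fin k, ⋂ j : Fin k, {v : Fin k → ℝ | i < j → R * v i < v j} := by
    ext x
    simp only [ConeUp, Set.mem_setOf_eq, Set.mem_inter_iff, Set.mem_iInter]
  rw [h1]
  apply IsOpen.inter
  · apply isOpen_iInter_of_finite
    intro j
    exact (isOpen_lt continuous_const (continuous_apply j)).inter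
      (isOpen_lt (continuous_apply j) continuous_const)
  · apply isOpen_iInter_of_finite
    intro i
    apply isOpen_iInter_of_finite
    intro j
    by_cases hij : i < j
    · simp only [hij, true_imp_iff]
      exact isOpen_lt (continuous_const.mul (continuous_apply i)) (continuous_apply j)
    · simp only [hij, false_imp_iff, Set.setOf_true]
      exact isOpen_univ

theorem ConeDown_open (k : ℕ) (R T : ℝ) : IsOpen (ConeDown k R T) := by
  have h1 : ConeDown k R T = (⋂ i : Fin k, ({v : Fin k → ℝ | 0 < v i} ∩ {v : Fin k → ℝ | v i < T})) ∩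
      ⋂ i : Fin k, ⋂ j : Fin k, {v : Fin k → ℝ | i < j → R * v j < v i} := by
    ext x
    simp only [ConeDown, Set.mem_setOf_eq, Set.mem_inter_iff, Set.mem_iInter]
  rw [h1]
  apply IsOpen.inter
  · apply isOpen_iInter_of_finite
    intro j
    exact (isOpen_lt continuous_const (continuous_apply j)).inter
      (isOpen_lt (continuous_apply j) continuous_const)
  · apply isOpen_iInter_of_finite
    intro i
    apply isOpen_iInter_of_finite
    intro j
    by_cases hij : i < j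
    · simp only [hij, true_imp_iff]
      exact isOpen_lt (continuous_const.mul (continuous_apply j)) (continuous_apply i)
    · simp only [hij, false_imp_iff, Set.setOf_true]
      exact isOpen_univ

theorem cone_up {k K : ℕ} {s : ℝ} (hs : 0 < s) {L : Set (Fin k → ℝ)}
    (hcl : ∀ x ∈ Pos K, ∃ τ : Fin (k + 1) → Fin K, StrictMono τ ∧ DDL k K τ s x ∈ closure (interior L))
    (R T : ℝ) (hT : 0 < T) : ∃ v ∈ interior L, v ∈ ConeUp k R T := by
  obtain ⟨B, hB⟩ : ∃ B : ℝ, B = max R 1 + 1 := ⟨_, rfl⟩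
  have hB2 : 2 ≤ B := by rw [hB]; linarith [le_max_right R 1]
  have hBR : R ≤ B - 1 := by rw [hB]; linarith [le_max_left R 1]
  have hB0 : 0 < B := by linarith
  obtain ⟨t, ht⟩ : ∃ t : ℝ, t = min 1 (T / s) := ⟨_, rfl⟩
  have ht0 : 0 < t := by rw [ht]; exact lt_min one_pos (div_pos hT hs)
  have ht1 : t ≤ 1 := by rw [ht]; exact min_le_left _ _
  have htT : s * t ≤ T := by
    have h1 : t ≤ T / s := by rw [ht]; exact min_le_right _ _
    rwa [le_div_iff₀ hs, mul_comm] at h1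
  obtain ⟨η, hη⟩ : ∃ η : ℝ, η = t / B ^ K := ⟨_, rfl⟩
  have hη0 : 0 < η := by rw [hη]; positivity
  have hx : (fun j : Fin K => η * B ^ (j : ℕ)) ∈ Pos K := by
    refine ⟨fun i j hij => ?_, fun j => ⟨by positivity, ?_⟩⟩
    · exact mul_lt_mul_of_pos_left (pow_lt_pow_right₀ (by linarith) hij) hη0
    · have h1 : B ^ (j : ℕ) < B ^ K := pow_lt_pow_right₀ (by linarith) j.2
      calc η * B ^ (j : ℕ) < η * B ^ K := mul_lt_mul_of_pos_left h1 hη0
        _ = t := by rw [hη]; field_simp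
        _ ≤ 1 := ht1
  have hxt : ∀ j : Fin K, η * B ^ (j : ℕ) < t := by
    intro j
    have h1 : B ^ (j : ℕ) < B ^ K := pow_lt_pow_right₀ (by linarith) j.2
    calc η * B ^ (j : ℕ) < η * B ^ K := mul_lt_mul_of_pos_left h1 hη0
      _ = t := by rw [hη]; field_simp
  obtain ⟨τ, hτ, hτ2⟩ := hcl _ hx
  have hmem : DDL k K τ s (fun j : Fin K => η * B ^ (j : ℕ)) ∈ ConeUp k R T := by
    refine ⟨fun i => ⟨?_, ?_⟩, fun i j hij => ?_⟩
    · rw [DDL_apply]
      have h1 := hx.1 (hτ (Fin.castSucc_lt_succ (i := i)))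
      exact mul_pos hs (sub_pos.2 h1)
    · rw [DDL_apply]
      have h1 := hxt (τ i.succ)
      have h2 := (hx.2 (τ i.castSucc)).1
      calc s * (η * B ^ (τ i.succ : ℕ) - η * B ^ (τ i.castSucc : ℕ)) < s * t := by
            apply mul_lt_mul_of_pos_left _ hs
            simp only at h2
            linarith
        _ ≤ T := htT
    · rw [DDL_apply, DDL_apply]
      have h1 : τ i.succ ≤ τ j.castSucc := hτ.monotone (by
        rw [Fin.le_iff_val_le_val]
        simp only [Fin.val_succ, Fin.val_castSucc]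
        exact hij)
      have h2 : B ^ (τ i.succ : ℕ) ≤ B ^ (τ j.castSucc : ℕ) := pow_le_pow_right₀ (by linarith) h1
      have h3 : (τ j.castSucc : ℕ) + 1 ≤ τ j.succ := hτ (Fin.castSucc_lt_succ (i := j))
      have h4 : B ^ ((τ j.castSucc : ℕ) + 1) ≤ B ^ (τ j.succ : ℕ) := pow_le_pow_right₀ (by linarith) h3
      have h5 : 0 < B ^ (τ i.castSucc : ℕ) := by positivity
      have h6 : B ^ (τ i.castSucc : ℕ) < B ^ (τ i.succ : ℕ) :=
        pow_lt_pow_right₀ (by linarith) (hτ (Fin.castSucc_lt_succ (i := i)))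
      rw [pow_succ] at h4
      obtain ⟨a, ha⟩ : ∃ a : ℝ, a = B ^ (τ i.castSucc : ℕ) := ⟨_, rfl⟩
      obtain ⟨b, hb⟩ : ∃ b : ℝ, b = B ^ (τ i.succ : ℕ) := ⟨_, rfl⟩
      obtain ⟨a', ha'⟩ : ∃ a : ℝ, a = B ^ (τ j.castSucc : ℕ) := ⟨_, rfl⟩
      obtain ⟨b', hb'⟩ : ∃ b : ℝ, b = B ^ (τ j.succ : ℕ) := ⟨_, rfl⟩
      rw [← ha, ← hb, ← ha', ← hb']
      rw [← ha, ← hb] at h6
      rw [← hb, ← ha'] at h2
      rw [← ha', ← hb'] at h4
      rw [← ha] at h5
      have h7 : R * (b - a) ≤ (B - 1) * (b - a) := mul_le_mul_of_nonneg_right hBR (by linarith)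
      have h8 : (B - 1) * (b - a) < (B - 1) * b := by
        apply mul_lt_mul_of_pos_left _ (by linarith)
        linarith
      have h9 : (B - 1) * b ≤ (B - 1) * a' := mul_le_mul_of_nonneg_left h2 (by linarith)
      have h10 : R * (b - a) < b' - a' := by nlinarith
      have h11 : R * (s * (η * b - η * a)) = (s * η) * (R * (b - a)) := by ring
      have h12 : s * (η * b' - η * a') = (s * η) * (b' - a') := by ring
      rw [h11, h12]
      exact mul_lt_mul_of_pos_left h10 (mul_pos hs hη0)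
  obtain ⟨v, hv1, hv2⟩ := mem_closure_iff.1 hτ2 _ (ConeUp_open k R T) hmem
  exact ⟨v, hv2, hv1⟩

theorem cone_down {k K : ℕ} {s : ℝ} (hs : 0 < s) {L : Set (Fin k → ℝ)}
    (hcl : ∀ x ∈ Pos K, ∃ τ : Fin (k + 1) → Fin K, StrictMono τ ∧ DDL k K τ s x ∈ closure (interior L))
    (R T : ℝ) (hT : 0 < T) : ∃ v ∈ interior L, v ∈ ConeDown k R T := by
  obtain ⟨B, hB⟩ : ∃ B : ℝ, B = max R 1 + 1 := ⟨_, rfl⟩
  have hB2 : 2 ≤ B := by rw [hB]; linarith [le_max_right R 1]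
  have hBR : R ≤ B - 1 := by rw [hB]; linarith [le_max_left R 1]
  have hB0 : 0 < B := by linarith
  obtain ⟨β, hβ⟩ : ∃ β : ℝ, β = B⁻¹ := ⟨_, rfl⟩
  have hβ0 : 0 < β := by rw [hβ]; positivity
  have hβB : B * β = 1 := by rw [hβ]; field_simp
  have hβ1 : β < 1 := by nlinarith
  obtain ⟨t, ht⟩ : ∃ t : ℝ, t = min 1 (T / s) := ⟨_, rfl⟩
  have ht0 : 0 < t := by rw [ht]; exact lt_min one_pos (div_pos hT hs)
  have ht1 : t ≤ 1 := by rw [ht]; exact min_le_left _ _
  have htT : s * t ≤ T := by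
    have h1 : t ≤ T / s := by rw [ht]; exact min_le_right _ _
    rwa [le_div_iff₀ hs, mul_comm] at h1
  have hpp : ∀ n : ℕ, 0 < β ^ (n + 1) := fun n => by positivity
  have hp1 : ∀ n : ℕ, β ^ (n + 1) < 1 := fun n => pow_lt_one₀ hβ0.le hβ1 (Nat.succ_ne_zero _)
  have hx : (fun j : Fin K => t * (1 - β ^ ((j : ℕ) + 1))) ∈ Pos K := by
    refine ⟨fun i j hij => ?_, fun j => ⟨?_, ?_⟩⟩
    · apply mul_lt_mul_of_pos_left _ ht0
      have h1 : β ^ ((j : ℕ) + 1) < β ^ ((i : ℕ) + 1) :=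
        pow_lt_pow_right_of_lt_one₀ hβ0 hβ1 (Nat.succ_lt_succ hij)
      linarith
    · exact mul_pos ht0 (by linarith [hp1 (j : ℕ)])
    · have := hpp (j : ℕ)
      simp only
      nlinarith
  obtain ⟨τ, hτ, hτ2⟩ := hcl _ hx
  have hmem : DDL k K τ s (fun j : Fin K => t * (1 - β ^ ((j : ℕ) + 1))) ∈ ConeDown k R T := by
    refine ⟨fun i => ⟨?_, ?_⟩, fun i j hij => ?_⟩
    · rw [DDL_apply]
      have h1 := hx.1 (hτ (Fin.castSucc_lt_succ (i := i)))
      exact mul_pos hs (sub_pos.2 h1)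
    · rw [DDL_apply]
      have h1 := hpp (τ i.succ : ℕ)
      have h2 := (hx.2 (τ i.castSucc)).1
      calc s * (t * (1 - β ^ ((τ i.succ : ℕ) + 1)) - t * (1 - β ^ ((τ i.castSucc : ℕ) + 1))) < s * t := by
            apply mul_lt_mul_of_pos_left _ hs
            simp only at h2
            nlinarith
        _ ≤ T := htT
    · rw [DDL_apply, DDL_apply]
      have h1 : τ i.succ ≤ τ j.castSucc := hτ.monotone (by
        rw [Fin.le_iff_val_le_val]
        simp only [Fin.val_succ, Fin.val_castSucc]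
        exact hij)
      have h2 : β ^ ((τ j.castSucc : ℕ) + 1) ≤ β ^ ((τ i.succ : ℕ) + 1) :=
        pow_le_pow_of_le_one hβ0.le hβ1.le (Nat.succ_le_succ h1)
      have h3 : (τ i.castSucc : ℕ) + 1 ≤ τ i.succ := hτ (Fin.castSucc_lt_succ (i := i))
      have h4 : β ^ (τ i.succ : ℕ) ≤ β ^ ((τ i.castSucc : ℕ) + 1) :=
        pow_le_pow_of_le_one hβ0.le hβ1.le h3
      have h5 := hpp (τ j.succ : ℕ)
      have h6 := hpp (τ i.succ : ℕ)
      have h7 : β ^ (τ i.succ : ℕ) = B * β ^ ((τ i.succ : ℕ) + 1) := by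
        rw [pow_succ]
        calc β ^ (τ i.succ : ℕ) = β ^ (τ i.succ : ℕ) * (B * β) := by rw [hβB, mul_one]
          _ = _ := by ring
      have h8 := hτ (Fin.castSucc_lt_succ (i := j))
      have h9 : β ^ ((τ j.succ : ℕ) + 1) < β ^ ((τ j.castSucc : ℕ) + 1) :=
        pow_lt_pow_right_of_lt_one₀ hβ0 hβ1 (Nat.succ_lt_succ h8)
      rw [h7] at h4
      obtain ⟨a, ha⟩ : ∃ a : ℝ, a = β ^ ((τ i.castSucc : ℕ) + 1) := ⟨_, rfl⟩
      obtain ⟨b, hb⟩ : ∃ b : ℝ, b = β ^ ((τ i.succ : ℕ) + 1) := ⟨_, rfl⟩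
      obtain ⟨a', ha'⟩ : ∃ a : ℝ, a = β ^ ((τ j.castSucc : ℕ) + 1) := ⟨_, rfl⟩
      obtain ⟨b', hb'⟩ : ∃ b : ℝ, b = β ^ ((τ j.succ : ℕ) + 1) := ⟨_, rfl⟩
      rw [← ha, ← hb, ← ha', ← hb']
      rw [← ha', ← hb] at h2
      rw [← ha, ← hb] at h4
      rw [← hb'] at h5
      rw [← hb] at h6
      rw [← ha', ← hb'] at h9
      have g1 : R * (a' - b') ≤ (B - 1) * (a' - b') := mul_le_mul_of_nonneg_right hBR (by linarith)
      have g2 : (B - 1) * (a' - b') < (B - 1) * a' := by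
        apply mul_lt_mul_of_pos_left _ (by linarith)
        linarith
      have g3 : (B - 1) * a' ≤ (B - 1) * b := mul_le_mul_of_nonneg_left h2 (by linarith)
      have g4 : R * (a' - b') < a - b := by nlinarith
      have g5 : R * (s * (t * (1 - b') - t * (1 - a'))) = (s * t) * (R * (a' - b')) := by ring
      have g6 : s * (t * (1 - b) - t * (1 - a)) = (s * t) * (a - b) := by ring
      rw [g5, g6]
      exact mul_lt_mul_of_pos_left g4 (mul_pos hs ht0)
  obtain ⟨v, hv1, hv2⟩ := mem_closure_iff.1 hτ2 _ (ConeDown_open k R T) hmem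
  exact ⟨v, hv2, hv1⟩

/-- the interior of the set of the limit vectors of `k` consecutive gaps -/
theorem lim_interior (k : ℕ) (hk : 1 ≤ k) : ∃ c : ℝ, 0 < c ∧ ∀ F : ℝ → ℝ,
    (∀ᶠ X : ℝ in atTop, Real.log X ≤ F X ∧ F X ≤ ff X) →
    (∀ δ : ℝ, 0 < δ → ∀ᶠ X : ℝ in atTop, ∀ y, X ≤ y → y ≤ 4 * X → |F y / F X - 1| < δ) →
    ∀ q a : ℕ, Squarefree q → a.Coprime q → ∀ L : Set (Fin k → ℝ),
    L = {v : Fin k → ℝ | ∀ ε : ℝ, 0 < ε → (Near F q a k v ε).Infinite} →
    (∀ T : ℝ, 0 < T → T ≤ 1 →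
      ENNReal.ofReal (c * T ^ k) ≤ volume (closure (interior L) ∩ Set.Icc 0 (fun _ => T))) ∧
    (∀ R T : ℝ, 0 < T → (∃ v ∈ interior L, v ∈ ConeUp k R T) ∧
      (∃ v ∈ interior L, v ∈ ConeDown k R T)) := by
  obtain ⟨K, s₀, hs₀, hs₁, h⟩ := lim_claim k
  obtain ⟨D, hD, hvol⟩ := vol_cov k K hk
  refine ⟨s₀ ^ k / D, by positivity, ?_⟩
  intro F hF1 hF2 q a hq haq L hL
  have hLc : IsClosed L := by rw [hL]; exact lim_closed F q a k
  have hcov : ∀ s : ℝ, 0 < s → s ≤ s₀ → ∀ x ∈ Pos K, ∃ τ : Fin (k + 1) → Fin K,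
      StrictMono τ ∧ DDL k K τ s x ∈ closure (interior L) := by
    intro s hs hss
    apply top_cover hs.ne' hLc (Pos_open K)
    intro x hx
    obtain ⟨τ, hτ, hτ2⟩ := h F hF1 hF2 q a hq haq s hs hss x hx.1 fun j => ⟨(hx.2 j).1, (hx.2 j).2.le⟩
    refine ⟨τ, hτ, ?_⟩
    rw [hL]
    exact hτ2
  refine ⟨?_, fun R T hT => ⟨cone_up hs₀ (hcov s₀ hs₀ le_rfl) R T hT,
    cone_down hs₀ (hcov s₀ hs₀ le_rfl) R T hT⟩⟩
  intro T hT0 hT1
  have hs0 : 0 < s₀ * T := by positivity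
  have h1 := hvol (s₀ * T) hs0 (closure (interior L)) (hcov (s₀ * T) hs0 (by nlinarith))
  calc ENNReal.ofReal (s₀ ^ k / D * T ^ k) = ENNReal.ofReal ((s₀ * T) ^ k / D) := by
        congr 1
        rw [mul_pow]
        ring
    _ ≤ volume (closure (interior L) ∩ Set.Icc 0 (fun _ => s₀ * T)) := h1
    _ ≤ volume (closure (interior L) ∩ Set.Icc 0 (fun _ => T)) := by
        apply measure_mono
        intro v hv
        exact ⟨hv.1, hv.2.1, fun i => (hv.2.2 i).trans (by nlinarith)⟩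

end Pool.Agent.TH816.RR
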