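import Pool.Agent.TH816.RR.Ord
import Pool.Agent.TH779.Ord.Asym

set_option autoImplicit false

/-! RR: the number of the orders of consecutive record gaps (after `Pool.Agent.TH779.Ord.Asym`, helper779). -/

open Finset Filter

namespace Pool.Agent.TH816.RR

open Pool.Agent.TH779.Ord (fact_le)

theorem ord_log {k : ℕ} {lam : ℝ} (hlam : 2 ≤ lam) (hk : 1 ≤ k) : ∃ δ : ℝ, 0 < δ ∧ ∀ q a : ℕ,
    Squarefree q → Nat.Coprime a q → 1 ≤ (PSR δ q a k).ncard ∧
    Real.log k.factorial ≤ Real.log (PSR δ q a k).ncard + (2 * k / lam + 1) * Real.log k +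
      (k + lam * (k + 1) / eta0 + 1) * Real.log 2 := by
  have hη := eta0_pos
  have hk1 : (1 : ℝ) ≤ k := by exact_mod_cast hk
  have hlam0 : (0 : ℝ) < lam := by linarith
  obtain ⟨N, hNd⟩ : ∃ N : ℕ, N = ⌈lam * ((k : ℝ) + 1) / eta0⌉₊ := ⟨_, rfl⟩
  obtain ⟨c, hcd⟩ : ∃ c : ℕ, c = ⌊(k : ℝ) - 2 * k / lam⌋₊ := ⟨_, rfl⟩
  have h0 : 0 ≤ (k : ℝ) - 2 * k / lam := by
    have : 2 * k / lam ≤ (k : ℝ) := by
      rw [div_le_iff₀ hlam0]
      nlinarith
    linarith
  have hc : (c : ℝ) ≤ k - 2 * k / lam := by rw [hcd]; exact Nat.floor_le h0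
  have hc2 : (k : ℝ) - 2 * k / lam < c + 1 := by rw [hcd]; exact Nat.lt_floor_add_one _
  have hN1 : lam * ((k : ℝ) + 1) / eta0 ≤ N := by rw [hNd]; exact Nat.le_ceil _
  have hN2 : (N : ℝ) < lam * ((k : ℝ) + 1) / eta0 + 1 := by
    rw [hNd]; exact Nat.ceil_lt_add_one (by positivity)
  have hck : c ≤ k := by
    have h1 : 0 ≤ 2 * (k : ℝ) / lam := by positivity
    have : (c : ℝ) ≤ k := by linarith
    exact_mod_cast this
  obtain ⟨δ, hδ, hmain0⟩ := ord_many stRR (k := k) (c := c) (N := N) (lam := lam) (by linarith) hk hc (by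
    have h1 : lam * ((k : ℝ) + 1) / eta0 * (eta0 / lam) ≤ ((N + 1 : ℕ) : ℝ) * (eta0 / lam) := by
      apply mul_le_mul_of_nonneg_right _ (by positivity)
      push_cast
      linarith
    have h2 : lam * ((k : ℝ) + 1) / eta0 * (eta0 / lam) = (k : ℝ) + 1 := by field_simp
    linarith)
  refine ⟨δ, hδ, fun q a hq haq => ?_⟩
  have hmain := hmain0 q a hq haq
  have hP : 1 ≤ (PSR δ q a k).ncard := by
    by_contra hcon
    push Not at hcon
    have h1 : (PSR δ q a k).ncard = 0 := by omega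
    rw [h1, zero_mul] at hmain
    exact absurd (Nat.factorial_pos c) (by omega)
  refine ⟨hP, ?_⟩
  have hP' : (0 : ℝ) < (PSR δ q a k).ncard := by exact_mod_cast hP
  have h1 : Real.log c.factorial ≤ Real.log (PSR δ q a k).ncard + (k + N) * Real.log 2 := by
    have h2 : (c.factorial : ℝ) ≤ (PSR δ q a k).ncard * 2 ^ (k + N) := by exact_mod_cast hmain
    have h3 := Real.log_le_log (by exact_mod_cast Nat.factorial_pos c) h2
    rw [Real.log_mul hP'.ne' (by positivity), Real.log_pow] at h3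
    push_cast at h3
    exact h3
  have h2 : Real.log k.factorial ≤ Real.log c.factorial + (k - c) * Real.log k := by
    have h3 : (k.factorial : ℝ) ≤ c.factorial * (k : ℝ) ^ (k - c) := by exact_mod_cast fact_le hck
    have h4 := Real.log_le_log (by exact_mod_cast Nat.factorial_pos k) h3
    have hcf : (0 : ℝ) < c.factorial := by exact_mod_cast Nat.factorial_pos c
    rw [Real.log_mul hcf.ne' (by positivity), Real.log_pow, Nat.cast_sub hck] at h4
    exact h4
  have hlogk : 0 ≤ Real.log k := Real.log_nonneg hk1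
  have hlog2 : 0 ≤ Real.log 2 := Real.log_nonneg (by norm_num)
  have h3 : ((k : ℝ) - c) * Real.log k ≤ (2 * k / lam + 1) * Real.log k :=
    mul_le_mul_of_nonneg_right (by linarith) hlogk
  have h4 : ((k : ℝ) + N) * Real.log 2 ≤ (k + lam * (k + 1) / eta0 + 1) * Real.log 2 :=
    mul_le_mul_of_nonneg_right (by linarith) hlog2
  linarith

/-- the explicit form -/
theorem ord_explicit : ∃ C : ℝ, 0 < C ∧ ∀ k : ℕ, 1 ≤ k → ∃ δ : ℝ, 0 < δ ∧ ∀ q a : ℕ, Squarefree q →
    Nat.Coprime a q →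
    (k.factorial : ℝ) * Real.exp (-(C * k * Real.sqrt (Real.log k))) ≤ (PSR δ q a k).ncard := by
  have hη := eta0_pos
  have hη1 := eta0_le
  obtain ⟨W, hW⟩ : ∃ W : ℝ, W = 1 / eta0 := ⟨_, rfl⟩
  have hW1 : 1 ≤ W := by rw [hW, le_div_iff₀ hη]; linarith
  refine ⟨10 * W, by positivity, ?_⟩
  intro k hk
  have hk1 : (1 : ℝ) ≤ k := by exact_mod_cast hk
  obtain ⟨L, hL⟩ : ∃ L : ℝ, L = Real.log k := ⟨_, rfl⟩
  have hL0 : 0 ≤ L := by rw [hL]; exact Real.log_nonneg hk1
  obtain ⟨s, hs⟩ : ∃ s : ℝ, s = Real.sqrt L := ⟨_, rfl⟩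
  have hs0 : 0 ≤ s := by rw [hs]; exact Real.sqrt_nonneg _
  have hsL : s * s = L := by rw [hs]; exact Real.mul_self_sqrt hL0
  obtain ⟨δ, hδ, hb⟩ := ord_log (k := k) (lam := 2 + s) (by linarith) hk
  refine ⟨δ, hδ, fun q a hq haq => ?_⟩
  obtain ⟨hP, hb1⟩ := hb q a hq haq
  have hP' : (0 : ℝ) < (PSR δ q a k).ncard := by exact_mod_cast hP
  rw [← hL, ← hs]
  rw [← hL] at hb1
  rcases Nat.lt_or_ge k 2 with h2 | h2
  · have h3 : k = 1 := by omega
    subst h3
    have h4 : L = 0 := by rw [hL, Nat.cast_one, Real.log_one]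
    have h5 : s = 0 := by rw [hs, h4, Real.sqrt_zero]
    rw [h5, mul_zero, neg_zero, Real.exp_zero, mul_one, Nat.factorial_one]
    exact_mod_cast hP
  · have hk2 : (2 : ℝ) ≤ k := by exact_mod_cast h2
    have hlog2 : Real.log 2 < 0.7 := by
      have := Real.log_two_lt_d9
      linarith
    have hlog2' : 0.69 < Real.log 2 := by
      have := Real.log_two_gt_d9
      linarith
    have hL2 : 0.69 < L := by
      rw [hL]; exact hlog2'.trans_le (Real.log_le_log (by norm_num) hk2)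
    have hs1 : 0.83 ≤ s := by
      rw [hs]
      apply Real.le_sqrt_of_sq_le
      norm_num
      linarith
    have hsk : s ≤ k := by
      rw [hs, Real.sqrt_le_left (by linarith), hL]
      have := Real.log_le_sub_one_of_pos (show (0 : ℝ) < k by linarith)
      nlinarith
    have e1 : 2 * k / (2 + s) * L ≤ 2 * (k * s) := by
      rw [div_mul_eq_mul_div, div_le_iff₀ (by linarith), ← hsL]
      have : 0 ≤ (k : ℝ) * s := by positivity
      nlinarith
    have e2 : L ≤ k * s := by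
      rw [← hsL]
      exact mul_le_mul_of_nonneg_right hsk hs0
    have hks : (k : ℝ) * 0.83 ≤ k * s := mul_le_mul_of_nonneg_left hs1 (by linarith)
    have hks0 : 0 ≤ (k : ℝ) * s := by positivity
    have e3 : ((k : ℝ) + (2 + s) * (k + 1) / eta0 + 1) * Real.log 2 ≤ 6 * W * (k * s) := by
      have h1 : (2 + s) * ((k : ℝ) + 1) ≤ 5.25 * (k * s) := by nlinarith
      have h2 : (2 + s) * ((k : ℝ) + 1) / eta0 = W * ((2 + s) * (k + 1)) := by rw [hW]; field_simp
      have h3 : W * ((2 + s) * ((k : ℝ) + 1)) ≤ W * (5.25 * (k * s)) :=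
        mul_le_mul_of_nonneg_left h1 (by linarith)
      have h4 : (k : ℝ) + 1 ≤ 2 * (k * s) := by nlinarith
      have h5 : 2 * (k * s) ≤ W * (2 * (k * s)) := le_mul_of_one_le_left (by positivity) hW1
      have h6 : (k : ℝ) + (2 + s) * (k + 1) / eta0 + 1 ≤ W * (7.25 * (k * s)) := by
        rw [h2]
        have : W * (7.25 * ((k : ℝ) * s)) = W * (5.25 * (k * s)) + W * (2 * (k * s)) := by ring
        linarith
      have h7 : 0 ≤ W * (7.25 * ((k : ℝ) * s)) := by positivity
      calc ((k : ℝ) + (2 + s) * (k + 1) / eta0 + 1) * Real.log 2 ≤ W * (7.25 * (k * s)) * Real.log 2 :=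
            mul_le_mul_of_nonneg_right h6 (by linarith)
        _ ≤ W * (7.25 * (k * s)) * 0.7 := mul_le_mul_of_nonneg_left hlog2.le h7
        _ ≤ 6 * W * (k * s) := by
            have : 0 ≤ W * ((k : ℝ) * s) := by positivity
            nlinarith
    have e4 : (2 * k / (2 + s) + 1) * L = 2 * k / (2 + s) * L + L := by ring
    have e6 : (k : ℝ) * s ≤ W * (k * s) := le_mul_of_one_le_left hks0 hW1
    have e5 : Real.log k.factorial ≤ Real.log (PSR δ q a k).ncard + 10 * W * k * s := by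
      have : 10 * W * (k : ℝ) * s = 6 * W * (k * s) + 4 * (W * (k * s)) := by ring
      linarith
    have hf : (0 : ℝ) < k.factorial := by exact_mod_cast Nat.factorial_pos k
    rw [← Real.log_le_log_iff (by positivity) hP', Real.log_mul hf.ne' (Real.exp_pos _).ne',
      Real.log_exp]
    linarith

end Pool.Agent.TH816.RR
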