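import Mathlib
import Pool.Agent.TH779.Ord.Fn

set_option autoImplicit false

/-! RR: the detector of the groups which contain exactly one prime. -/

open Finset Filter

namespace Pool.Agent.TH816.RR

open Pool.Agent.TH779.Ord (fn)

/-- the indices of the groups -/
def Gr (K T k : ℕ) : Finset (Fin K) := univ.filter (fun i : Fin K => (i : ℕ) < T * k)

/-- the other indices of the same group -/
def Ot (K T k : ℕ) (i : Fin K) : Finset (Fin K) := (Gr K T k).filter (fun j : Fin K => i ≠ j ∧ (j : ℕ) / k = (i : ℕ) / k)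

/-- the detector -/
noncomputable def QF (K T k : ℕ) (lam : ℝ) (θ : Fin K → ℝ) : ℝ :=
  ∑ i ∈ Gr K T k, θ i - lam * ∑ i ∈ Gr K T k, ∑ j ∈ Ot K T k i, θ i * θ j

theorem card_Gr (K T k : ℕ) (h : T * k ≤ K) : (Gr K T k).card = T * k := by
  have h1 : (Gr K T k).card = (range (T * k)).card := by
    apply card_bij (fun (i : Fin K) _ => (i : ℕ))
    · intro i hi
      exact mem_range.2 (mem_filter.1 hi).2
    · intro i _ j _ h
      exact Fin.ext h
    · intro x hx
      rw [mem_range] at hx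
      exact ⟨⟨x, by omega⟩, mem_filter.2 ⟨mem_univ _, hx⟩, rfl⟩
  rw [h1, card_range]

theorem card_fib_le (K T k : ℕ) (hk : 1 ≤ k) (g : ℕ) :
    ((Gr K T k).filter (fun j : Fin K => (j : ℕ) / k = g)).card ≤ k := by
  have h1 : ((Gr K T k).filter (fun j : Fin K => (j : ℕ) / k = g)).card ≤ (Ico (g * k) (g * k + k)).card := by
    apply card_le_card_of_injOn (fun (i : Fin K) => (i : ℕ))
    · intro i hi
      have h2 : (i : ℕ) / k = g := (mem_filter.1 hi).2
      have h3 := Nat.div_add_mod (i : ℕ) k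
      rw [h2] at h3
      have h4 := Nat.mod_lt (i : ℕ) (show 0 < k by omega)
      rw [mul_comm] at h3
      have h5 : g * k ≤ (i : ℕ) ∧ (i : ℕ) < g * k + k := by omega
      exact mem_Ico.2 h5
    · intro i _ j _ h
      exact Fin.ext h
  rw [Nat.card_Ico] at h1
  omega

theorem card_Ot_le (K T k : ℕ) (hk : 1 ≤ k) (i : Fin K) : (Ot K T k i).card ≤ k := by
  refine le_trans (card_le_card ?_) (card_fib_le K T k hk ((i : ℕ) / k))
  intro j hj
  have := mem_filter.1 hj
  exact mem_filter.2 ⟨this.1, this.2.2⟩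

/-- the detector is at most the number of primes -/
theorem QF_le_sum (K T k : ℕ) (lam : ℝ) (hlam : 0 ≤ lam) (θ : Fin K → ℝ) (h0 : ∀ i, 0 ≤ θ i) :
    QF K T k lam θ ≤ ∑ i, θ i := by
  unfold QF
  have h1 : 0 ≤ lam * ∑ i ∈ Gr K T k, ∑ j ∈ Ot K T k i, θ i * θ j :=
    mul_nonneg hlam (sum_nonneg fun i _ => sum_nonneg fun j _ => mul_nonneg (h0 i) (h0 j))
  have h2 : ∑ i ∈ Gr K T k, θ i ≤ ∑ i, θ i :=
    sum_le_sum_of_subset_of_nonneg (filter_subset _ _) fun i _ _ => h0 i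
  linarith

/-- the detector is at most the sum of the functional over the groups -/
theorem QF_le_fn (K T k : ℕ) (hk : 1 ≤ k) (lam : ℝ) (hlam : 0 ≤ lam) (θ : Fin K → ℝ)
    (h0 : ∀ i, 0 ≤ θ i) (h1 : ∀ i, θ i ≤ 1) (hit : Fin K → Prop) [DecidablePred hit]
    (hh : ∀ i, ¬ hit i → θ i = 0) (hh2 : ∀ i, hit i → 1 / 2 ≤ θ i) :
    QF K T k lam θ ≤ ∑ g : Fin T, fn (lam / 4)
      (((Gr K T k).filter (fun j : Fin K => (j : ℕ) / k = g)).filter hit).card := by
  classical
  have hdiv : ∀ i ∈ Gr K T k, (i : ℕ) / k < T := fun i hi =>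
    (Nat.div_lt_iff_lt_mul (by omega)).2 (mem_filter.1 hi).2
  have hmaps : ∀ i ∈ Gr K T k, (i : ℕ) / k ∈ range T := fun i hi => mem_range.2 (hdiv i hi)
  have e : QF K T k lam θ = ∑ g ∈ range T, (∑ i ∈ (Gr K T k).filter (fun j : Fin K => (j : ℕ) / k = g), θ i -
      lam * ∑ i ∈ (Gr K T k).filter (fun j : Fin K => (j : ℕ) / k = g), ∑ j ∈ Ot K T k i, θ i * θ j) := by
    unfold QF
    rw [sum_sub_distrib, ← mul_sum,
      sum_fiberwise_of_maps_to (g := fun i : Fin K => (i : ℕ) / k) hmaps (fun i => θ i),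
      sum_fiberwise_of_maps_to (g := fun i : Fin K => (i : ℕ) / k) hmaps
        (fun i => ∑ j ∈ Ot K T k i, θ i * θ j)]
  rw [e, ← Fin.sum_univ_eq_sum_range (fun g => (∑ i ∈ (Gr K T k).filter (fun j : Fin K => (j : ℕ) / k = g), θ i -
      lam * ∑ i ∈ (Gr K T k).filter (fun j : Fin K => (j : ℕ) / k = g), ∑ j ∈ Ot K T k i, θ i * θ j)) T]
  apply sum_le_sum
  intro g _
  set F := (Gr K T k).filter (fun j : Fin K => (j : ℕ) / k = g) with hF
  set H := F.filter hit with hH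
  -- first moment
  have a1 : ∑ i ∈ F, θ i ≤ H.card := by
    have : ∑ i ∈ F, θ i = ∑ i ∈ H, θ i :=
      (sum_subset (filter_subset hit F) (fun i hi hni => hh i (fun h => hni (mem_filter.2 ⟨hi, h⟩)))).symm
    rw [this]
    calc ∑ i ∈ H, θ i ≤ ∑ _i ∈ H, (1 : ℝ) := sum_le_sum fun i _ => h1 i
      _ = H.card := by rw [sum_const, nsmul_eq_mul, mul_one]
  -- second moment
  have a2 : (1 / 4) * ((H.card : ℝ) * (H.card - 1)) ≤ ∑ i ∈ F, ∑ j ∈ Ot K T k i, θ i * θ j := by
    have hpairs : (1 / 4) * ((H.card : ℝ) * (H.card - 1)) = ∑ i ∈ H, ∑ _j ∈ H.erase i, (1 / 4 : ℝ) := by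
      have : ∀ i ∈ H, ∑ _j ∈ H.erase i, (1 / 4 : ℝ) = (1 / 4) * ((H.card : ℝ) - 1) := by
        intro i hi
        rw [sum_const, nsmul_eq_mul, card_erase_of_mem hi, Nat.cast_pred (card_pos.2 ⟨i, hi⟩)]
        ring
      rw [sum_congr rfl this, sum_const, nsmul_eq_mul]
      ring
    rw [hpairs]
    calc ∑ i ∈ H, ∑ _j ∈ H.erase i, (1 / 4 : ℝ) ≤ ∑ i ∈ H, ∑ j ∈ Ot K T k i, θ i * θ j := by
          apply sum_le_sum
          intro i hi
          have hi' := mem_filter.1 hi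
          have hiF := mem_filter.1 hi'.1
          calc ∑ _j ∈ H.erase i, (1 / 4 : ℝ) ≤ ∑ j ∈ H.erase i, θ i * θ j := by
                apply sum_le_sum
                intro j hj
                have hj' := mem_filter.1 (mem_erase.1 hj).2
                have b1 := hh2 i hi'.2
                have b2 := hh2 j hj'.2
                nlinarith
            _ ≤ ∑ j ∈ Ot K T k i, θ i * θ j := by
                apply sum_le_sum_of_subset_of_nonneg
                · intro j hj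
                  have hj1 := mem_erase.1 hj
                  have hj' := mem_filter.1 (mem_filter.1 hj1.2).1
                  exact mem_filter.2 ⟨hj'.1, fun h => hj1.1 h.symm, by rw [hj'.2, hiF.2]⟩
                · intro j _ _
                  exact mul_nonneg (h0 i) (h0 j)
      _ ≤ ∑ i ∈ F, ∑ j ∈ Ot K T k i, θ i * θ j :=
          sum_le_sum_of_subset_of_nonneg (filter_subset _ _)
            fun i _ _ => sum_nonneg fun j _ => mul_nonneg (h0 i) (h0 j)
  have a3 := mul_le_mul_of_nonneg_left a2 hlam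
  unfold fn
  have e4 : lam / 4 * ((H.card : ℝ) * (H.card - 1)) = lam * ((1 / 4) * ((H.card : ℝ) * (H.card - 1))) := by ring
  rw [e4]
  linarith

/-- weighted sum of the detector -/
theorem sum_QF (K T k : ℕ) (hTk : T * k ≤ K) (hk : 1 ≤ k) (lam : ℝ) (hlam : 0 ≤ lam)
    (I : Finset ℕ) (Wn : ℕ → ℝ) (θ : ℕ → Fin K → ℝ) (LB UB : ℝ) (hUB : 0 ≤ UB)
    (h1 : ∀ i, LB ≤ ∑ n ∈ I, Wn n * θ n i)
    (h2 : ∀ i j, i ≠ j → ∑ n ∈ I, Wn n * (θ n i * θ n j) ≤ UB) :
    T * k * LB - lam * (T * k ^ 2) * UB ≤ ∑ n ∈ I, Wn n * QF K T k lam (θ n) := by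
  have e1 : ∑ n ∈ I, Wn n * QF K T k lam (θ n) = ∑ i ∈ Gr K T k, ∑ n ∈ I, Wn n * θ n i -
      lam * ∑ i ∈ Gr K T k, ∑ j ∈ Ot K T k i, ∑ n ∈ I, Wn n * (θ n i * θ n j) := by
    have e2 : ∀ n, Wn n * QF K T k lam (θ n) = ∑ i ∈ Gr K T k, Wn n * θ n i -
        lam * ∑ i ∈ Gr K T k, ∑ j ∈ Ot K T k i, Wn n * (θ n i * θ n j) := by
      intro n
      unfold QF
      rw [mul_sub, mul_sum, ← mul_assoc, mul_comm (Wn n) lam, mul_assoc, mul_sum]
      congr 2
      apply sum_congr rfl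
      intro i _
      rw [mul_sum]
    rw [sum_congr rfl (fun n _ => e2 n), sum_sub_distrib, ← mul_sum]
    congr 1
    · rw [sum_comm]
    · congr 1
      rw [sum_comm]
      apply sum_congr rfl
      intro i _
      rw [sum_comm]
  rw [e1]
  have e3 : (T : ℝ) * k * LB ≤ ∑ i ∈ Gr K T k, ∑ n ∈ I, Wn n * θ n i := by
    have h3 := card_nsmul_le_sum (Gr K T k) (fun i => ∑ n ∈ I, Wn n * θ n i) LB (fun i _ => h1 i)
    rw [card_Gr K T k hTk, nsmul_eq_mul] at h3
    push_cast at h3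
    exact h3
  have e4 : ∑ i ∈ Gr K T k, ∑ j ∈ Ot K T k i, ∑ n ∈ I, Wn n * (θ n i * θ n j) ≤ (T * k ^ 2 : ℝ) * UB := by
    calc ∑ i ∈ Gr K T k, ∑ j ∈ Ot K T k i, ∑ n ∈ I, Wn n * (θ n i * θ n j)
        ≤ ∑ _i ∈ Gr K T k, (k : ℝ) * UB := by
          apply sum_le_sum
          intro i _
          calc ∑ j ∈ Ot K T k i, ∑ n ∈ I, Wn n * (θ n i * θ n j) ≤ ∑ _j ∈ Ot K T k i, UB := by
                apply sum_le_sum
                intro j hj
                exact h2 i j (mem_filter.1 hj).2.1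
            _ = (Ot K T k i).card * UB := by rw [sum_const, nsmul_eq_mul]
            _ ≤ (k : ℝ) * UB := by
                apply mul_le_mul_of_nonneg_right _ hUB
                exact_mod_cast card_Ot_le K T k hk i
      _ = (T * k ^ 2 : ℝ) * UB := by
          rw [sum_const, nsmul_eq_mul, card_Gr K T k hTk]
          push_cast
          ring
  have e5 := mul_le_mul_of_nonneg_left e4 hlam
  have e6 : lam * ((T * k ^ 2 : ℝ) * UB) = lam * (T * k ^ 2) * UB := by ring
  rw [e6] at e5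
  linarith

end Pool.Agent.TH816.RR
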