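import Pool.Agent.H362R2.RQ.Comb

set_option autoImplicit false

/-! RR: the final combination (adapted from `Pool.Agent.H362R2.RQ.Comb`, helper362). -/

namespace Pool.Agent.TH816.RR

open Pool.Agent.H362R2.RQ (kap kap_pos)

theorem combineRR (Mm sK sJ s b g Z K T k lam w η S1v Qv Tv Bv LB UB E1 E2 E3 E4 M₂ : ℝ)
    (hMm : 0 < Mm) (hs : 0 < s) (hb : 0 < b) (hg : 0 < g) (hsK : 0 < sK) (hsJ : sJ * s = sK * b ^ 2)
    (hZ : 1 ≤ Z) (hT : 1 ≤ T) (hK : 0 < K) (hk : 0 < k) (hlam : 0 < lam)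
    (hw : w = k * b ^ 2 / s) (hw1 : w ≤ kap / (64 * g ^ 2 * lam)) (hη : 0 < η) (hη1 : 16 * η ≤ w * kap)
    (hLB : LB = kap * (Z * Mm * sJ) - E2)
    (hUB : UB = Z * (Mm * (2 * (sK * (4 * g * b ^ 2 / s) ^ 2))) + E1)
    (H1 : S1v ≤ Z * (Mm * (2 * sK)) + E1) (H2 : T * k * LB - lam * (T * k ^ 2) * UB ≤ Qv)
    (H3 : Tv ≤ M₂ * (Mm * (2 * sK)) + E3) (H4 : Bv ≤ E4)
    (hE : T * k * E2 + lam * (T * k ^ 2) * E1 + η * T * E1 + K * E3 + K * E4 ≤ η * (Z * Mm * sK))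
    (hM₂ : K * M₂ ≤ η * Z) :
    0 < Qv - η * T * S1v - K * Tv - K * Bv := by
  set P := Z * Mm * sK with hP
  have hPpos : 0 < P := by rw [hP]; positivity
  have hkap := kap_pos
  have hwpos : 0 < w := by rw [hw]; positivity
  have e1 : T * k * LB = T * (w * kap) * P - T * k * E2 := by
    have h1 : k * sJ = w * sK := by
      rw [hw]
      have : k * b ^ 2 / s * sK = k * (sK * b ^ 2) / s := by ring
      rw [this, ← hsJ]
      field_simp
    rw [hLB, hP]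
    calc T * k * (kap * (Z * Mm * sJ) - E2) = T * kap * Z * Mm * (k * sJ) - T * k * E2 := by ring
      _ = _ := by rw [h1]; ring
  have e2 : lam * (T * k ^ 2) * UB = T * (32 * lam * g ^ 2 * w ^ 2) * P + lam * (T * k ^ 2) * E1 := by
    have h1 : k ^ 2 * (4 * g * b ^ 2 / s) ^ 2 = 16 * g ^ 2 * w ^ 2 := by
      rw [hw]
      field_simp
      ring
    rw [hUB, hP]
    calc lam * (T * k ^ 2) * (Z * (Mm * (2 * (sK * (4 * g * b ^ 2 / s) ^ 2))) + E1)
        = lam * T * 2 * Z * Mm * sK * (k ^ 2 * (4 * g * b ^ 2 / s) ^ 2) + lam * (T * k ^ 2) * E1 := by ring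
      _ = _ := by rw [h1]; ring
  have e3 : 8 * η ≤ w * kap - 32 * lam * g ^ 2 * w ^ 2 := by
    have h1 : 32 * lam * g ^ 2 * w ^ 2 ≤ w * kap / 2 := by
      calc 32 * lam * g ^ 2 * w ^ 2 = 32 * lam * g ^ 2 * w * w := by ring
        _ ≤ 32 * lam * g ^ 2 * w * (kap / (64 * g ^ 2 * lam)) := by gcongr
        _ = w * kap / 2 := by field_simp; ring
    linarith
  have h1 : 8 * η * T * P - T * k * E2 - lam * (T * k ^ 2) * E1 ≤ Qv := by
    refine le_trans ?_ H2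
    rw [e1, e2]
    have h2 : 8 * η * (T * P) ≤ (w * kap - 32 * lam * g ^ 2 * w ^ 2) * (T * P) :=
      mul_le_mul_of_nonneg_right e3 (by positivity)
    linarith
  have h2 : η * T * S1v ≤ 2 * (η * T * P) + η * T * E1 := by
    have := mul_le_mul_of_nonneg_left H1 (show 0 ≤ η * T by positivity)
    refine this.trans (le_of_eq ?_)
    rw [hP]; ring
  have h3 : K * Tv ≤ 2 * (η * P) + K * E3 := by
    have h4 := mul_le_mul_of_nonneg_left H3 hK.le
    have h5 : K * M₂ * (Mm * (2 * sK)) ≤ η * Z * (Mm * (2 * sK)) :=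
      mul_le_mul_of_nonneg_right hM₂ (by positivity)
    calc K * Tv ≤ K * (M₂ * (Mm * (2 * sK)) + E3) := h4
      _ = K * M₂ * (Mm * (2 * sK)) + K * E3 := by ring
      _ ≤ η * Z * (Mm * (2 * sK)) + K * E3 := by linarith
      _ = _ := by rw [hP]; ring
  have h4 : K * Bv ≤ K * E4 := mul_le_mul_of_nonneg_left H4 hK.le
  have h5 : η * P ≤ η * T * P := by
    have : η * P * 1 ≤ η * P * T := mul_le_mul_of_nonneg_left hT (by positivity)
    linarith
  have h6 : 0 < η * P := by positivity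
  linarith

end Pool.Agent.TH816.RR
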