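import Mathlib
import Pool.Agent.H378R2.M7g

set_option autoImplicit false

open Finset MeasureTheory
open scoped ContDiff

/-! RR: the family of test functions, with the lower bound for `s` (copy of `Pool.Agent.H362R2.RQ.familyQ`,
helper362). -/

namespace Pool.Agent.TH816.RR

open Pool.Agent.H378R2

theorem familyR (B : ℕ) (hB1 : 1 ≤ B) : ∃ (K0 : ℕ) (f : Fin B → ℝ → ℝ) (c : Fin B → ℝ)
    (A : Finset (Fin (K0 + 1) → Fin B)) (rho : Fin B → ℝ) (s : ℝ),
    K0 + 1 = 2 ^ B ∧
    (∀ l, ContDiff ℝ ∞ (f l)) ∧ (∀ l, HasCompactSupport (f l)) ∧ (∀ l x, c l < x → f l x = 0) ∧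
    (∀ l, 0 ≤ c l ∧ c l ≤ 1 / 2) ∧ (∀ a ∈ A, ∑ j, c (a j) ≤ 1 / 2) ∧ (∀ l x, |f l x| ≤ 1) ∧
    (∀ l, f l 0 = 1) ∧ (∀ l, 0 < rho l) ∧ s = ∑ l, rho l ∧
    (∀ l l', DD (f l) (f l') = if l = l' then rho l else 0) ∧
    0 < s ∧ s ≤ 16 * 2 ^ B * B * gam ∧ 8 * 2 ^ B * B * gam ≤ s ∧ 0 < II f A ∧ II f A ≤ s ^ (K0 + 1) ∧
    (∀ i, (2 / 3) * s ^ K0 * B ^ 2 ≤ JJ f A i) := by
  classical
  have hBr : (1 : ℝ) ≤ B := by exact_mod_cast hB1
  obtain ⟨K0, hK0⟩ : ∃ K0, K0 + 1 = 2 ^ B := ⟨2 ^ B - 1, Nat.sub_add_cancel Nat.one_le_two_pow⟩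
  have hK0r : (K0 : ℝ) + 1 = 2 ^ B := by exact_mod_cast hK0
  have hK0n : (0 : ℝ) ≤ K0 := Nat.cast_nonneg _
  set u : ℝ := 1 / (8 * 2 ^ B * B) with hu
  have hupos : 0 < u := by rw [hu]; positivity
  set c : Fin B → ℝ := fun l => 2 ^ ((l : ℕ) + 1) * u with hc
  have hcpos : ∀ l, 0 < c l := fun l => by simp only [hc]; positivity
  have hcle : ∀ l, c l ≤ 1 / 8 := by
    intro l
    have h1 : (2 : ℝ) ^ ((l : ℕ) + 1) ≤ 2 ^ B := pow_le_pow_right₀ (by norm_num) (by have := l.2; omega)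
    calc c l ≤ 2 ^ B * u := mul_le_mul_of_nonneg_right h1 hupos.le
      _ = 1 / (8 * B) := by rw [hu]; field_simp
      _ ≤ 1 / 8 := by
        apply one_div_le_one_div_of_le (by norm_num)
        linarith
  set c' : Fin B → ℝ := fun l => c l / 2 with hc'
  have hcpos' : ∀ l, 0 < c' l := fun l => by simp only [hc']; linarith [hcpos l]
  set rho : Fin B → ℝ := fun l => gam / c' l with hrho
  have hrhopos : ∀ l, 0 < rho l := fun l => div_pos gam_pos (hcpos' l)
  have hcr : ∀ l, c l * rho l = 2 * gam := by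
    intro l
    simp only [hrho, hc']
    have := (hcpos l).ne'
    field_simp
  set s : ℝ := ∑ l, rho l with hsdef
  set f : Fin B → ℝ → ℝ := fun l => hs (c' l) with hf
  have hDD : ∀ l l', DD (f l) (f l') = if l = l' then rho l else 0 := by
    intro l l'
    have key : ∀ l l' : Fin B, l < l' → DD (f l) (f l') = 0 := by
      intro l l' h
      apply DD_hs_ne (hcpos' l)
      simp only [hc, hc']
      have h1 : (2 : ℝ) ^ ((l : ℕ) + 1) ≤ 2 ^ (l' : ℕ) := pow_le_pow_right₀ (by norm_num) h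
      have h2 : (2 : ℝ) ^ ((l' : ℕ) + 1) = 2 ^ (l' : ℕ) * 2 := pow_succ _ _
      rw [h2]
      nlinarith
    split_ifs with h
    · subst h
      exact DD_hs_self (hcpos' l)
    · rcases lt_or_gt_of_ne h with h1 | h1
      · exact key _ _ h1
      · rw [DD_comm]; exact key _ _ h1
  have hprodDD : ∀ {n : ℕ} (a b : Fin n → Fin B), ∏ j, DD (f (a j)) (f (b j)) =
      if a = b then ∏ j, rho (a j) else 0 := by
    intro n a b
    split_ifs with h
    · subst h
      refine Finset.prod_congr rfl fun j _ => ?_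
      rw [hDD, if_pos rfl]
    · obtain ⟨j, hj⟩ := Function.ne_iff.1 h
      apply Finset.prod_eq_zero (Finset.mem_univ j)
      rw [hDD, if_neg hj]
  set A : Finset (Fin (K0 + 1) → Fin B) := univ.filter (fun a => ∑ j, c (a j) ≤ 1) with hA
  have hprodnn : ∀ {n : ℕ} (a : Fin n → Fin B), 0 ≤ ∏ j, rho (a j) := fun a =>
    Finset.prod_nonneg fun j _ => (hrhopos _).le
  have hII : II f A = ∑ a ∈ A, ∏ j, rho (a j) := by
    unfold II
    refine Finset.sum_congr rfl fun a ha => ?_
    simp_rw [hprodDD]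
    rw [Finset.sum_ite_eq A a, if_pos ha]
  have hIIle : II f A ≤ s ^ (K0 + 1) := by
    rw [hII]
    calc _ ≤ ∑ a : Fin (K0 + 1) → Fin B, ∏ j, rho (a j) :=
          Finset.sum_le_sum_of_subset_of_nonneg (Finset.filter_subset _ _) (fun a _ _ => hprodnn a)
      _ = s ^ (K0 + 1) := by
          rw [sum_prod_fun (fun _ l => rho l), Finset.prod_const, Finset.card_univ, Fintype.card_fin]
  have hIIpos : 0 < II f A := by
    rw [hII]
    apply Finset.sum_pos (fun a _ => Finset.prod_pos fun j _ => hrhopos _)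
    refine ⟨fun _ => ⟨0, hB1⟩, ?_⟩
    rw [hA, Finset.mem_filter]
    refine ⟨Finset.mem_univ _, ?_⟩
    simp only [hc]
    rw [Finset.sum_const, Finset.card_univ, Fintype.card_fin, nsmul_eq_mul, hu]
    push_cast
    rw [hK0r]
    rw [show (2 : ℝ) ^ B * (2 ^ (0 + 1) * (1 / (8 * 2 ^ B * B))) = 1 / (4 * B) by field_simp; norm_num]
    rw [div_le_one (by positivity)]
    linarith
  have hg := gam_pos
  have hsge : 4 * K0 * B * (2 * gam) ≤ s := by
    have h1 : rho ⟨0, hB1⟩ ≤ s := Finset.single_le_sum (f := rho) (fun l _ => (hrhopos l).le) (Finset.mem_univ _)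
    have h2 : rho ⟨0, hB1⟩ = 4 * 2 ^ B * B * (2 * gam) := by
      have hc0 : c ⟨0, hB1⟩ = 2 * u := by simp only [hc]; norm_num
      simp only [hrho, hc']
      rw [hc0, hu]
      field_simp
      ring
    rw [h2] at h1
    refine le_trans ?_ h1
    have : (K0 : ℝ) ≤ 2 ^ B := by linarith
    gcongr
  have hslo : 8 * 2 ^ B * B * gam ≤ s := by
    have h1 : rho ⟨0, hB1⟩ ≤ s := Finset.single_le_sum (f := rho) (fun l _ => (hrhopos l).le) (Finset.mem_univ _)
    have h2 : rho ⟨0, hB1⟩ = 4 * 2 ^ B * B * (2 * gam) := by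
      have hc0 : c ⟨0, hB1⟩ = 2 * u := by simp only [hc]; norm_num
      simp only [hrho, hc']
      rw [hc0, hu]
      field_simp
      ring
    rw [h2] at h1
    linarith
  have hsle : s ≤ 16 * 2 ^ B * B * gam := by
    have h1 : s = (2 * gam / u) * ∑ l : Fin B, (1 / 2 : ℝ) ^ ((l : ℕ) + 1) := by
      rw [hsdef, Finset.mul_sum]
      refine Finset.sum_congr rfl fun l _ => ?_
      simp only [hrho, hc, hc']
      rw [one_div, inv_pow]
      field_simp
    have h2 : ∑ l : Fin B, (1 / 2 : ℝ) ^ ((l : ℕ) + 1) ≤ 1 := by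
      rw [Fin.sum_univ_eq_sum_range (fun l => (1 / 2 : ℝ) ^ (l + 1)) B]
      have : ∀ n : ℕ, ∑ l ∈ range n, (1 / 2 : ℝ) ^ (l + 1) = 1 - (1 / 2) ^ n := by
        intro n
        induction n with
        | zero => simp
        | succ n ih => rw [Finset.sum_range_succ, ih]; ring
      rw [this]
      have : (0 : ℝ) ≤ (1 / 2) ^ B := by positivity
      linarith
    rw [h1]
    calc (2 * gam / u) * ∑ l : Fin B, (1 / 2 : ℝ) ^ ((l : ℕ) + 1) ≤ (2 * gam / u) * 1 := by
          apply mul_le_mul_of_nonneg_left h2 (by positivity)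
      _ = 16 * 2 ^ B * B * gam := by rw [hu]; field_simp; norm_num
  have hcomb := family_comb K0 B c rho (2 * gam) s (by linarith) hcpos hcle hcr hsdef hsge
  have hspos : 0 < s := by
    have : (Finset.univ : Finset (Fin B)).Nonempty := ⟨⟨0, hB1⟩, Finset.mem_univ _⟩
    exact Finset.sum_pos (fun l _ => hrhopos l) this
  have hJJ : ∀ i, (2 / 3) * s ^ K0 * B ^ 2 ≤ JJ f A i := by
    intro i
    unfold JJ
    set good := (univ : Finset (Fin K0 → Fin B)).filter (fun a => ∑ j, c (a j) ≤ 3 / 4) with hgood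
    have hf0 : ∀ l, f l 0 = 1 := fun l => hs_at_zero _
    simp_rw [hf0, one_mul]
    rw [← Finset.sum_product']
    -- the injection
    set φ : (Fin B × Fin B) × (Fin K0 → Fin B) → (Fin (K0 + 1) → Fin B) × (Fin (K0 + 1) → Fin B) :=
      fun x => (i.insertNth (α := fun _ => Fin B) x.1.1 x.2, i.insertNth (α := fun _ => Fin B) x.1.2 x.2) with hφ
    have hmem : ∀ a' ∈ good, ∀ l : Fin B, (i.insertNth (α := fun _ => Fin B) l a') ∈ A := by
      intro a' ha' l
      rw [hA, Finset.mem_filter]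
      refine ⟨Finset.mem_univ _, ?_⟩
      rw [Fin.sum_univ_succAbove _ i]
      simp only [Fin.insertNth_apply_same, Fin.insertNth_apply_succAbove]
      have := (Finset.mem_filter.1 ha').2
      have := hcle l
      linarith
    have himg : ((univ : Finset (Fin B × Fin B)) ×ˢ good).image φ ⊆ A ×ˢ A := by
      intro x hx
      rw [Finset.mem_image] at hx
      obtain ⟨y, hy, rfl⟩ := hx
      rw [Finset.mem_product] at hy
      rw [Finset.mem_product]
      exact ⟨hmem _ hy.2 _, hmem _ hy.2 _⟩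
    have hnn : ∀ x ∈ A ×ˢ A, x ∉ ((univ : Finset (Fin B × Fin B)) ×ˢ good).image φ →
        0 ≤ ∏ j : Fin K0, DD (f (x.1 (i.succAbove j))) (f (x.2 (i.succAbove j))) := by
      intro x _ _
      rw [hprodDD (fun j => x.1 (i.succAbove j)) (fun j => x.2 (i.succAbove j))]
      split_ifs
      · exact hprodnn _
      · exact le_rfl
    refine le_trans ?_ (Finset.sum_le_sum_of_subset_of_nonneg himg hnn)
    rw [Finset.sum_image]
    · rw [Finset.sum_product]
      have h1 : ∀ x : Fin B × Fin B, ∑ y ∈ good, ∏ j : Fin K0, DD (f ((φ (x, y)).1 (i.succAbove j)))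
          (f ((φ (x, y)).2 (i.succAbove j))) = ∑ y ∈ good, ∏ j, rho (y j) := by
        intro x
        refine Finset.sum_congr rfl fun y _ => ?_
        simp only [hφ, Fin.insertNth_apply_succAbove]
        rw [hprodDD y y, if_pos rfl]
      simp_rw [h1]
      rw [Finset.sum_const, Finset.card_univ, Fintype.card_prod, Fintype.card_fin, nsmul_eq_mul]
      push_cast
      have hBB : (0 : ℝ) ≤ (B : ℝ) * B := by positivity
      calc 2 / 3 * s ^ K0 * (B : ℝ) ^ 2 = (B : ℝ) * B * (2 / 3 * s ^ K0) := by ring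
        _ ≤ _ := mul_le_mul_of_nonneg_left hcomb hBB
    · intro x _ y _ hxy
      simp only [hφ, Prod.mk.injEq] at hxy
      have h1 := congrFun hxy.1 i
      have h2 := congrFun hxy.2 i
      simp only [Fin.insertNth_apply_same] at h1 h2
      have h3 : x.2 = y.2 := by
        funext j
        have := congrFun hxy.1 (i.succAbove j)
        simpa only [Fin.insertNth_apply_succAbove] using this
      exact Prod.ext (Prod.ext h1 h2) h3
  refine ⟨K0, f, c', A, rho, s, hK0, fun l => hs_smooth _, fun l => hs_compact (hcpos' l), ?_, ?_, ?_, ?_,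
    fun l => hs_at_zero _, hrhopos, rfl, hDD, hspos, hsle, hslo, hIIpos, hIIle, hJJ⟩
  · intro l x hx
    apply hs_zero (hcpos' l)
    exact hx.le.trans (le_abs_self x)
  · intro l
    refine ⟨(hcpos' l).le, ?_⟩
    have := hcle l
    have := hcpos l
    simp only [hc']
    linarith
  · intro a ha
    have h1 := (Finset.mem_filter.1 ha).2
    simp only [hc']
    rw [← Finset.sum_div]
    linarith
  · intro l x
    exact hs_abs_le _ _

end Pool.Agent.TH816.RR
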