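import Pool.Agent.TH816.RR.Fin
import Pool.Agent.TH779.Ord.Main

set_option autoImplicit false

/-! RR: limit points of the vectors of `k` consecutive gaps, at every scale up to the record size. -/

open Finset Filter

namespace Pool.Agent.TH816.RR

open Pool.Agent.H378R2 (yy)
open Pool.Agent.H256R2.SC (ff)
open Pool.Agent.H312R2.RG.C3 (ff_tendsto ff_lower ff_small ff_slow)
open Pool.Agent.H362R2.RQ (exists_prime_mod dvd_of_primes)
open Pool.Agent.TH779.Ord (fn fn_le nth_block)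
open Pool.Agent.TH816.RP (pigeon)

/-- the primes `p_n, ..., p_(n+k)` are `≡ a (mod q)` and the vector of the `k` gaps, divided by `F p_n`,
is `ε`-close to `v` -/
def Near (F : ℝ → ℝ) (q a k : ℕ) (v : Fin k → ℝ) (ε : ℝ) : Set ℕ :=
  {n : ℕ | (∀ i : Fin (k + 1), Nat.nth Nat.Prime (n + i) ≡ a [MOD q]) ∧
    ∀ i : Fin k, |((Nat.nth Nat.Prime (n + i + 1) : ℝ) - Nat.nth Nat.Prime (n + i)) /
      F (Nat.nth Nat.Prime n) - v i| < ε}

theorem near_mono {F : ℝ → ℝ} {q a k : ℕ} {v : Fin k → ℝ} {ε ε' : ℝ} (h : ε ≤ ε') :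
    Near F q a k v ε ⊆ Near F q a k v ε' := fun _ hn => ⟨hn.1, fun i => (hn.2 i).trans_le h⟩

/-- a positive lower bound for the gaps of a strictly increasing finite sequence -/
theorem exists_sep {K : ℕ} {x : Fin K → ℝ} (hx : StrictMono x) :
    ∃ d : ℝ, 0 < d ∧ ∀ j j', j < j' → x j + d ≤ x j' := by
  obtain ⟨M, hM⟩ := Finite.exists_le (fun p : Fin K × Fin K => 1 / (x p.2 - x p.1))
  refine ⟨1 / max M 1, by positivity, fun j j' hj => ?_⟩
  have h1 := hM (j, j')
  have h2 : 0 < x j' - x j := sub_pos.2 (hx hj)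
  simp only at h1
  have h3 : 1 / (x j' - x j) ≤ max M 1 := h1.trans (le_max_left _ _)
  have h4 : 1 / max M 1 ≤ x j' - x j := by
    rw [div_le_iff₀ (by positivity)]
    rw [div_le_iff₀ h2] at h3
    linarith
  linarith

/-- the number of hits -/
theorem card_ge {K T kk k : ℕ} (hT : ((k : ℝ) + 1) / eta0 ≤ T) (P : Finset (Fin K))
    (h : (T : ℝ) * (eta0 / 1) ≤ ∑ g : Fin T, fn 1
      (((Gr K T kk).filter (fun j : Fin K => (j : ℕ) / kk = g)).filter (fun j => j ∈ P)).card) :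
    k + 1 ≤ P.card := by
  classical
  have h0 : (k : ℝ) + 1 ≤ T * eta0 := (div_le_iff₀ eta0_pos).1 hT
  have h1 : ∑ g : Fin T, fn 1
      (((Gr K T kk).filter (fun j : Fin K => (j : ℕ) / kk = g)).filter (fun j => j ∈ P)).card ≤
      ∑ g : Fin T, ((((Gr K T kk).filter (fun j : Fin K => (j : ℕ) / kk = g)).filter
        (fun j => j ∈ P)).card : ℝ) := sum_le_sum fun g _ => fn_le zero_le_one _
  have h2 : ∑ g : Fin T, (((Gr K T kk).filter (fun j : Fin K => (j : ℕ) / kk = g)).filter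
        (fun j => j ∈ P)).card ≤ P.card := by
    rw [← card_biUnion]
    · apply card_le_card
      intro j hj
      rw [mem_biUnion] at hj
      obtain ⟨g, _, hg⟩ := hj
      exact (mem_filter.1 hg).2
    · intro g _ g' _ hgg
      change Disjoint _ _
      rw [Finset.disjoint_left]
      intro j hj hj'
      have e1 := (mem_filter.1 (mem_filter.1 hj).1).2
      have e2 := (mem_filter.1 (mem_filter.1 hj').1).2
      exact hgg (Fin.ext (e1.symm.trans e2))
  have h3 : ∑ g : Fin T, ((((Gr K T kk).filter (fun j : Fin K => (j : ℕ) / kk = g)).filter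
        (fun j => j ∈ P)).card : ℝ) ≤ P.card := by exact_mod_cast h2
  have h4 : (k : ℝ) + 1 ≤ P.card := by
    rw [div_one] at h
    linarith
  exact_mod_cast h4

/-- one window -/
theorem lim_step {k T K kk : ℕ} {c : ℝ} (hc : 0 < c) (hT : ((k : ℝ) + 1) / eta0 ≤ T)
    (hst : ∀ z : ℕ, ∃ X0 : ℝ, ∀ X : ℝ, X0 ≤ X →
      ∀ t : Fin K → ℕ, Function.Injective t →
      (∀ j, (t j).Prime ∧ yy X < t j ∧ (t j : ℝ) ≤ c * ff X) →
      ∀ bad : Finset ℕ, (bad.card : ℝ) ≤ X ^ (9 / 10 : ℝ) →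
      ∃ n : ℕ, X < n ∧ (n : ℝ) ≤ 3 * X ∧ n ∉ bad ∧
        (T : ℝ) * (eta0 / 1) ≤ ∑ g : Fin T, fn 1
          (((Gr K T kk).filter (fun j : Fin K => (j : ℕ) / kk = g)).filter
            (fun j => (n + t j).Prime)).card ∧
        (∀ s : ℕ, (s : ℝ) ≤ c * ff X → (n + s).Prime → ∃ j, s = t j) ∧
        ∀ p : ℕ, p.Prime → p ≤ z → p ∣ n)
    {F : ℝ → ℝ} (hF1 : ∀ᶠ X : ℝ in atTop, Real.log X ≤ F X ∧ F X ≤ ff X)
    (hF2 : ∀ δ : ℝ, 0 < δ → ∀ᶠ X : ℝ in atTop, ∀ y, X ≤ y → y ≤ 4 * X → |F y / F X - 1| < δ)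
    {q a : ℕ} (hq : Squarefree q) (haq : a.Coprime q) {s : ℝ} (hs0 : 0 < s) (hs1 : s ≤ c / 2)
    {x : Fin K → ℝ} (hx : StrictMono x) (hx1 : ∀ j, 0 < x j ∧ x j ≤ 1) {ε : ℝ} (hε : 0 < ε) :
    ∃ τ : Fin (k + 1) → Fin K, StrictMono τ ∧
      (Near F q a k (fun i => s * (x (τ i.succ) - x (τ i.castSucc))) ε).Infinite := by
  classical
  have hq0 : 0 < q := Nat.pos_of_ne_zero hq.ne_zero
  obtain ⟨d, hd0, hd⟩ := exists_sep hx
  obtain ⟨η, hη⟩ : ∃ η : ℝ, η = min (min (s * d / 2) (ε / 8)) (min (c / 8) 1) := ⟨_, rfl⟩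
  have hη0 : 0 < η := by rw [hη]; positivity
  have hηd : η ≤ s * d / 2 := by
    rw [hη]; exact (min_le_left _ _).trans (min_le_left _ _)
  have hηε : η ≤ ε / 8 := by
    rw [hη]; exact (min_le_left _ _).trans (min_le_right _ _)
  have hηc : η ≤ c / 8 := by
    rw [hη]; exact (min_le_right _ _).trans (min_le_left _ _)
  have hη1 : η ≤ 1 := by
    rw [hη]; exact (min_le_right _ _).trans (min_le_right _ _)
  obtain ⟨ε', hε'⟩ : ∃ ε' : ℝ, ε' = η / (1 + s) := ⟨_, rfl⟩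
  have hε'0 : 0 < ε' := by rw [hε']; positivity
  obtain ⟨δ, hδ⟩ : ∃ δ : ℝ, δ = min (1 / 2) (ε / (8 * (s + 1))) := ⟨_, rfl⟩
  have hδ0 : 0 < δ := by rw [hδ]; positivity
  have hδ1 : δ ≤ 1 / 2 := by rw [hδ]; exact min_le_left _ _
  have hδ2 : δ ≤ ε / (8 * (s + 1)) := by rw [hδ]; exact min_le_right _ _
  obtain ⟨Y0, hY0⟩ := eventually_atTop.1 (exists_prime_mod q hq0 a haq ε' hε'0)
  obtain ⟨X1, hX1⟩ := hst q
  have hll : Tendsto (fun X : ℝ => Real.log (Real.log X)) atTop atTop :=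
    Real.tendsto_log_atTop.comp Real.tendsto_log_atTop
  have hev : ∀ᶠ X : ℝ in atTop, X1 ≤ X ∧ 1 ≤ X ∧ 1 ≤ Real.log X ∧ Y0 ≤ Real.log X ∧
      (Real.log X ≤ F X ∧ F X ≤ ff X) ∧ Real.log X ≤ c / 8 * ff X ∧ c * ff X ≤ X ∧
      ∀ y, X ≤ y → y ≤ 4 * X → |F y / F X - 1| < δ := by
    filter_upwards [eventually_ge_atTop X1, eventually_ge_atTop (1 : ℝ),
      Real.tendsto_log_atTop.eventually_ge_atTop (1 : ℝ), Real.tendsto_log_atTop.eventually_ge_atTop Y0,
      hF1, ff_lower, ff_small c hc, hll.eventually_ge_atTop (8 / c), hF2 δ hδ0]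
      with X h1 h2 h3 h4 h5 h6 h7 h8 h9
    refine ⟨h1, h2, h3, h4, h5, ?_, h7, h9⟩
    have h10 : Real.log X * (8 / c) ≤ Real.log X * Real.log (Real.log X) :=
      mul_le_mul_of_nonneg_left h8 (by linarith)
    have h11 : Real.log X * (8 / c) ≤ ff X := h10.trans h6
    have h12 : c / 8 * (Real.log X * (8 / c)) ≤ c / 8 * ff X :=
      mul_le_mul_of_nonneg_left h11 (by positivity)
    have h13 : c / 8 * (Real.log X * (8 / c)) = Real.log X := by field_simp
    linarith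
  obtain ⟨X0, hX0⟩ := eventually_atTop.1 hev
  -- the windows
  have key : ∀ X : ℝ, X0 ≤ X → ∃ (n : ℕ) (t : Fin K → ℕ), X < n ∧ (n : ℝ) ≤ 3 * X ∧
      (∀ j, Real.log X + s * F X * x j < t j ∧ (t j : ℝ) ≤ Real.log X + s * F X * x j + η * F X) ∧
      (∀ j, n + t j ≡ a [MOD q]) ∧
      k + 1 ≤ (univ.filter (fun j : Fin K => (n + t j).Prime)).card ∧
      (∀ j, (t j : ℝ) ≤ c * ff X) ∧
      ∀ s : ℕ, (s : ℝ) ≤ c * ff X → (n + s).Prime → ∃ j, s = t j := by
    intro X hX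
    obtain ⟨h1, h2, h3, h4, ⟨h5, h6⟩, h7, h8, h9⟩ := hX0 X hX
    have hF0 : 0 < F X := by linarith
    have hy : ∀ j, Real.log X ≤ Real.log X + s * F X * x j := fun j => by
      have := mul_pos (mul_pos hs0 hF0) (hx1 j).1
      linarith
    have hyle : ∀ j, Real.log X + s * F X * x j ≤ (1 + s) * F X := fun j => by
      have := mul_le_mul_of_nonneg_left (hx1 j).2 (mul_pos hs0 hF0).le
      nlinarith
    have hp : ∀ j, ∃ p : ℕ, p.Prime ∧ p ≡ a [MOD q] ∧ Real.log X + s * F X * x j < p ∧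
        (p : ℝ) ≤ Real.log X + s * F X * x j + η * F X := fun j => by
      obtain ⟨p, hp1, hp2, hp3, hp4⟩ := hY0 (Real.log X + s * F X * x j) (h4.trans (hy j))
      refine ⟨p, hp1, hp2, hp3, ?_⟩
      have e1 : ε' * (Real.log X + s * F X * x j) ≤ ε' * ((1 + s) * F X) :=
        mul_le_mul_of_nonneg_left (hyle j) hε'0.le
      have e2 : ε' * ((1 + s) * F X) = η * F X := by
        rw [hε']
        field_simp
      linarith
    choose t ht1 ht2 ht3 ht4 using hp
    have htlt : ∀ j j', j < j' → t j < t j' := by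
      intro j j' hj
      have e1 := ht4 j
      have e2 := ht3 j'
      have e3 := mul_le_mul_of_nonneg_left (hd j j' hj) (mul_pos hs0 hF0).le
      have e4 : η * F X ≤ s * d / 2 * F X := mul_le_mul_of_nonneg_right hηd hF0.le
      have e5 : 0 < s * d * F X := by positivity
      have e6 : (t j : ℝ) < t j' := by nlinarith
      exact_mod_cast e6
    have htinj : Function.Injective t := by
      intro j j' hjj
      rcases lt_trichotomy j j' with h | h | h
      · exact absurd hjj (htlt j j' h).ne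
      · exact h
      · exact absurd hjj.symm (htlt j' j h).ne
    have htc : ∀ j, (t j : ℝ) ≤ c * ff X := by
      intro j
      have e1 := ht4 j
      have e2 := mul_le_mul_of_nonneg_left (hx1 j).2 (mul_pos hs0 hF0).le
      have e3 : s * F X ≤ c / 2 * ff X := mul_le_mul hs1 h6 hF0.le (by positivity)
      have e4 : η * F X ≤ c / 8 * ff X := mul_le_mul hηc h6 hF0.le (by positivity)
      have e5 : 0 ≤ c * ff X := by
        have := hF0.le.trans h6
        positivity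
      linarith
    have hty : ∀ j, yy X < t j := by
      intro j
      have e1 : ((yy X : ℕ) : ℝ) ≤ Real.log X / 1000 := Nat.floor_le (by positivity)
      have e2 : ((yy X : ℕ) : ℝ) < t j := by
        have := ht3 j
        have := hy j
        linarith
      exact_mod_cast e2
    obtain ⟨n, hn1, hn2, _, hn4, hn5, hn6⟩ := hX1 X h1 t htinj (fun j => ⟨ht1 j, hty j, htc j⟩) ∅
      (by rw [card_empty, Nat.cast_zero]; positivity)
    have hqn : q ∣ n := dvd_of_primes q n hq fun p hp hpq => hn6 p hp (Nat.le_of_dvd hq0 hpq)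
    refine ⟨n, t, hn1, hn2, fun j => ⟨ht3 j, ht4 j⟩, fun j => ?_, ?_, htc, hn5⟩
    · have e1 : n ≡ 0 [MOD q] := Nat.modEq_zero_iff_dvd.2 hqn
      have e2 := e1.add (ht2 j)
      rwa [zero_add] at e2
    · apply card_ge (kk := kk) hT
      refine hn4.trans (le_of_eq ?_)
      apply sum_congr rfl
      intro g _
      congr 2
      ext j
      simp only [mem_filter, mem_univ, true_and]
  have hXn : ∀ X : ℕ, ∃ (n : ℕ) (t : Fin K → ℕ), X0 ≤ X → (X : ℝ) < n ∧ (n : ℝ) ≤ 3 * X ∧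
      (∀ j, Real.log X + s * F X * x j < t j ∧ (t j : ℝ) ≤ Real.log X + s * F X * x j + η * F X) ∧
      (∀ j, n + t j ≡ a [MOD q]) ∧
      k + 1 ≤ (univ.filter (fun j : Fin K => (n + t j).Prime)).card ∧
      (∀ j, (t j : ℝ) ≤ c * ff X) ∧
      ∀ s : ℕ, (s : ℝ) ≤ c * ff X → (n + s).Prime → ∃ j, s = t j := by
    intro X
    by_cases hX : X0 ≤ X
    · obtain ⟨n, t, hh⟩ := key X hX
      exact ⟨n, t, fun _ => hh⟩
    · exact ⟨0, fun _ => 0, fun h' => absurd h' hX⟩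
  choose n t hnt using hXn
  obtain ⟨PP, hPP⟩ : ∃ PP : ℕ → Finset (Fin K), PP = fun X =>
    univ.filter (fun x : Fin K => (n X + t X x).Prime) := ⟨_, rfl⟩
  have hPPmem : ∀ X x, x ∈ PP X ↔ (n X + t X x).Prime := by
    intro X x
    rw [hPP]
    simp only [mem_filter, mem_univ, true_and]
  have hinfA : {X : ℕ | X0 ≤ (X : ℝ)}.Infinite := by
    obtain ⟨N0, hN0⟩ := exists_nat_ge X0
    refine (Set.Ici_infinite N0).mono ?_
    intro X hX
    exact hN0.trans (by exact_mod_cast hX)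
  obtain ⟨P, hP⟩ := pigeon PP hinfA
  have hPcard : k + 1 ≤ P.card := by
    obtain ⟨X, hX, hXP⟩ := hP.nonempty
    have := (hnt X hX).2.2.2.2.1
    rw [← hXP, hPP]
    exact this
  have hek : ∀ i : Fin (k + 1), (i : ℕ) < P.card := fun i => i.2.trans_le hPcard
  obtain ⟨e, he⟩ : ∃ e : Fin P.card ↪o Fin K, e = P.orderEmbOfFin rfl := ⟨_, rfl⟩
  have hemem : ∀ i, e i ∈ P := fun i => by rw [he]; exact P.orderEmbOfFin_mem rfl i
  have hesurj : ∀ z ∈ P, ∃ i, e i = z := fun z hz => by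
    have h1 := P.range_orderEmbOfFin rfl
    have h2 : z ∈ (P : Set (Fin K)) := hz
    rw [← h1] at h2
    obtain ⟨i, hi⟩ := h2
    exact ⟨i, by rw [he]; exact hi⟩
  refine ⟨fun i => e ⟨i, hek i⟩, fun i j hij => e.strictMono (by exact hij), ?_⟩
  have hinf : (Set.ofPred Nat.Prime).Infinite := Nat.infinite_setOfPred_prime
  apply Set.infinite_of_forall_exists_gt
  intro N0
  obtain ⟨X, ⟨hX, hXP⟩, hXN⟩ := hP.exists_gt (Nat.nth Nat.Prime N0)
  obtain ⟨h1, h2, h3, h4, _, h6, h8⟩ := hnt X hX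
  obtain ⟨_, g2, g3, _, ⟨g5, g6⟩, _, g8, g9⟩ := hX0 X hX
  have hF0 : 0 < F X := by linarith
  have htlt : ∀ j j', j < j' → t X j < t X j' := by
    intro j j' hj
    have e1 := (h3 j).2
    have e2 := (h3 j').1
    have e3 := mul_le_mul_of_nonneg_left (hd j j' hj) (mul_pos hs0 hF0).le
    have e4 : η * F X ≤ s * d / 2 * F X := mul_le_mul_of_nonneg_right hηd hF0.le
    have e5 : 0 < s * d * F X := by positivity
    have e6 : (t X j : ℝ) < t X j' := by nlinarith
    exact_mod_cast e6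
  have htle : ∀ j j', t X j ≤ t X j' → j ≤ j' := by
    intro j j' hjj
    by_contra hcon
    have := htlt j' j (not_le.1 hcon)
    omega
  obtain ⟨r, hr⟩ : ∃ r : ℕ → ℕ, r = fun i =>
    if h : i < k + 1 then t X (e ⟨i, hek ⟨i, h⟩⟩) else 0 := ⟨_, rfl⟩
  have hri : ∀ (i : ℕ) (h : i < k + 1), r i = t X (e ⟨i, hek ⟨i, h⟩⟩) := by
    intro i h
    rw [hr]
    simp only [h, dite_true]
  have hrlt : ∀ i j, i < j → j ≤ k → r i < r j := by
    intro i j hij hj
    rw [hri i (by omega), hri j (by omega)]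
    exact htlt _ _ (e.strictMono (by exact hij))
  have hPm : ∀ z, z ∈ P ↔ (n X + t X z).Prime := by
    intro z
    rw [← hXP]
    exact hPPmem X z
  obtain ⟨m, hm⟩ := nth_block (n X) k r hrlt
    (fun i hi => by
      have a1 := (hPm _).1 (hemem ⟨i, hek ⟨i, by omega⟩⟩)
      rw [hri i (by omega)]
      exact a1)
    (by
      intro y _ hy2 hy3
      have hy4 : (y : ℝ) ≤ c * ff X := by
        have a1 : (y : ℝ) ≤ r k := by exact_mod_cast hy2
        rw [hri k (by omega)] at a1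
        exact a1.trans (h6 _)
      obtain ⟨j, hj⟩ := h8 y hy4 hy3
      have hjP : j ∈ P := by
        rw [hPm, ← hj]
        exact hy3
      obtain ⟨i, hi⟩ := hesurj j hjP
      have hik : (i : ℕ) ≤ k := by
        rw [hj, hri k (by omega), ← hi] at hy2
        have a2 := e.le_iff_le.1 (htle _ _ hy2)
        exact a2
      refine ⟨i, hik, ?_⟩
      rw [hri i (by omega), hj, ← hi])
  have hm0 : Nat.nth Nat.Prime m = n X + r 0 := by
    have := hm 0 (Nat.zero_le _)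
    rwa [add_zero] at this
  refine ⟨m, ⟨?_, ?_⟩, ?_⟩
  · intro i
    rw [hm i (by omega), hri i i.2]
    exact h4 _
  · intro i
    have b1 := hm i i.2.le
    have b2 := hm (i + 1) i.2
    rw [← add_assoc] at b2
    rw [b1, b2, hri i (by omega), hri (i + 1) (by omega), hm0]
    obtain ⟨j, hj⟩ : ∃ j : Fin K, j = e ⟨i, hek ⟨i, by omega⟩⟩ := ⟨_, rfl⟩
    obtain ⟨j', hj'⟩ : ∃ j' : Fin K, j' = e ⟨i + 1, hek ⟨i + 1, by omega⟩⟩ := ⟨_, rfl⟩
    have c1 : e ⟨(i.succ : Fin (k + 1)), hek i.succ⟩ = j' := by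
      rw [hj']
      congr 1
    have c2 : e ⟨(i.castSucc : Fin (k + 1)), hek i.castSucc⟩ = j := by
      rw [hj]
      congr 1
    rw [← hj, ← hj']
    beta_reduce
    rw [c1, c2]
    have hjj : j < j' := by
      rw [hj, hj']
      exact e.strictMono (Fin.mk_lt_mk.2 (Nat.lt_succ_self _))
    obtain ⟨G, hG⟩ : ∃ G : ℝ, G = (((n X + t X j' : ℕ) : ℝ) - ((n X + t X j : ℕ) : ℝ)) := ⟨_, rfl⟩
    rw [← hG]
    push_cast at hG
    obtain ⟨z, hz⟩ : ∃ z : ℝ, z = s * (x j' - x j) := ⟨_, rfl⟩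
    rw [← hz]
    obtain ⟨p, hp⟩ : ∃ p : ℝ, p = ((n X + r 0 : ℕ) : ℝ) := ⟨_, rfl⟩
    rw [← hp]
    push_cast at hp
    have hz0 : 0 ≤ z := by
      rw [hz]
      exact mul_nonneg hs0.le (sub_nonneg.2 (hx.monotone hjj.le))
    have hzs : z ≤ s := by
      rw [hz]
      have a1 := (hx1 j').2
      have a2 := (hx1 j).1
      nlinarith
    have hr0 : (r 0 : ℝ) ≤ X := by
      rw [hri 0 (by omega)]
      exact (h6 _).trans g8
    have hr00 : (0 : ℝ) ≤ r 0 := Nat.cast_nonneg _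
    have hw := g9 p (by linarith) (by linarith)
    obtain ⟨w, hwdef⟩ : ∃ w : ℝ, w = F p / F X := ⟨_, rfl⟩
    rw [← hwdef] at hw
    rw [abs_lt] at hw
    have hw2 : 1 / 2 ≤ w := by linarith
    have hw0 : 0 < w := by linarith
    have hFp : F p = w * F X := by rw [hwdef]; field_simp
    obtain ⟨u, hu⟩ : ∃ u : ℝ, u = G / F X := ⟨_, rfl⟩
    have hGu : G / F p = u / w := by rw [hFp, hu]; field_simp
    have huz : |u - z| ≤ η := by
      have a1 : u - z = (G - z * F X) / F X := by rw [hu]; field_simp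
      rw [a1, abs_div, abs_of_pos hF0, div_le_iff₀ hF0, abs_le]
      have a2 := h3 j
      have a3 := h3 j'
      have a4 : z * F X = s * F X * x j' - s * F X * x j := by rw [hz]; ring
      constructor <;> linarith
    have e1 : G / F p - z = (u - z * w) / w := by rw [hGu]; field_simp
    rw [e1, abs_div, abs_of_pos hw0, div_lt_iff₀ hw0]
    have e2 : |u - z * w| ≤ |u - z| + |z * (1 - w)| := by
      have := abs_add_le (u - z) (z * (1 - w))
      have a1 : u - z + z * (1 - w) = u - z * w := by ring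
      rwa [a1] at this
    have e3 : |z * (1 - w)| ≤ s * δ := by
      rw [abs_mul, abs_of_nonneg hz0]
      apply mul_le_mul hzs _ (abs_nonneg _) hs0.le
      rw [abs_le]
      constructor <;> linarith
    have e4 : s * δ ≤ ε / 8 := by
      have a1 : s * δ ≤ s * (ε / (8 * (s + 1))) := mul_le_mul_of_nonneg_left hδ2 hs0.le
      have a2 : s * (ε / (8 * (s + 1))) ≤ ε / 8 := by
        rw [← mul_div_assoc, div_le_div_iff₀ (by positivity) (by norm_num)]
        nlinarith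
      linarith
    have e5 : ε * (1 / 2) ≤ ε * w := mul_le_mul_of_nonneg_left hw2 hε.le
    linarith
  · have a2 : X < n X := by exact_mod_cast h1
    have a3 : Nat.nth Nat.Prime N0 < Nat.nth Nat.Prime m := by
      rw [hm0]
      omega
    exact (Nat.nth_strictMono hinf).lt_iff_lt.1 a3

/-- limit points of the vectors of `k` consecutive gaps, for every configuration of the positions -/
theorem lim_claim (k : ℕ) : ∃ (K : ℕ) (s₀ : ℝ), 0 < s₀ ∧ s₀ ≤ 1 ∧ ∀ F : ℝ → ℝ,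
    (∀ᶠ X : ℝ in atTop, Real.log X ≤ F X ∧ F X ≤ ff X) →
    (∀ δ : ℝ, 0 < δ → ∀ᶠ X : ℝ in atTop, ∀ y, X ≤ y → y ≤ 4 * X → |F y / F X - 1| < δ) →
    ∀ q a : ℕ, Squarefree q → a.Coprime q → ∀ s : ℝ, 0 < s → s ≤ s₀ →
    ∀ x : Fin K → ℝ, StrictMono x → (∀ j, 0 < x j ∧ x j ≤ 1) →
    ∃ τ : Fin (k + 1) → Fin K, StrictMono τ ∧
      ∀ ε : ℝ, 0 < ε → (Near F q a k (fun i => s * (x (τ i.succ) - x (τ i.castSucc))) ε).Infinite := by
  classical
  obtain ⟨T, hT⟩ := exists_nat_ge (((k : ℝ) + 1) / eta0)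
  have hT1 : 1 ≤ T := by
    have h1 : (0 : ℝ) < T := lt_of_lt_of_le (div_pos (by positivity) eta0_pos) hT
    exact_mod_cast h1
  obtain ⟨K, kk, hkk, hTk, c, hc, hX1⟩ := stRR 1 le_rfl T hT1
  refine ⟨K, min (c / 2) 1, by positivity, min_le_right _ _, ?_⟩
  intro F hF1 hF2 q a hq haq s hs0 hs1 x hx hx1
  by_contra hcon
  push Not at hcon
  have hex : ∀ τ : Fin (k + 1) → Fin K, ∃ ε : ℝ, 0 < ε ∧ (StrictMono τ →
      (Near F q a k (fun i => s * (x (τ i.succ) - x (τ i.castSucc))) ε).Finite) := by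
    intro τ
    by_cases hτ : StrictMono τ
    · obtain ⟨ε, hε, h⟩ := hcon τ hτ
      exact ⟨ε, hε, fun _ => h⟩
    · exact ⟨1, one_pos, fun h => absurd h hτ⟩
  choose eps he0 he using hex
  obtain ⟨M, hM⟩ := Finite.exists_le (fun τ => 1 / eps τ)
  obtain ⟨τ, hτ, h⟩ := lim_step (ε := 1 / max M 1) hc hT hX1 hF1 hF2 hq haq hs0
    (hs1.trans (min_le_left _ _)) hx hx1 (by positivity)
  apply h
  refine (he τ hτ).subset (near_mono ?_)
  have h1 := (hM τ).trans (le_max_left M 1)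
  rw [div_le_iff₀ (he0 τ)] at h1
  rw [div_le_iff₀ (by positivity)]
  linarith

end Pool.Agent.TH816.RR
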