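import Pool.Agent.TH816.RR.Lim

set_option autoImplicit false

/-! RR: the set of the limit points of the vectors of `k` consecutive gaps has positive volume. -/

open Finset Filter

namespace Pool.Agent.TH816.RR

open Pool.Agent.H256R2.SC (ff)
open MeasureTheory

/-- the normalising constant -/
noncomputable def MM (k K : ℕ) : ℝ := k * (K : ℝ) ^ k + 1

theorem MM_pos (k K : ℕ) : 0 < MM k K := by
  unfold MM
  positivity

/-- positions depending linearly on `v` -/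
noncomputable def xpos (k K : ℕ) (v : Fin k → ℝ) (j : Fin K) : ℝ :=
  (∑ l : Fin k, ((j : ℝ) + 1) ^ ((l : ℕ) + 1) * v l) / MM k K

theorem xpos_mono {k K : ℕ} (hk : 1 ≤ k) {v : Fin k → ℝ} (hv : ∀ l, 0 < v l) :
    StrictMono (xpos k K v) := by
  intro j j' hj
  unfold xpos
  apply div_lt_div_of_pos_right _ (MM_pos k K)
  haveI : Nonempty (Fin k) := ⟨⟨0, hk⟩⟩
  apply Finset.sum_lt_sum_of_nonempty univ_nonempty
  intro l _
  apply mul_lt_mul_of_pos_right _ (hv l)
  apply pow_lt_pow_left₀ _ (by positivity) (Nat.succ_ne_zero _)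
  have : (j : ℕ) < j' := hj
  have : ((j : ℕ) : ℝ) < ((j' : ℕ) : ℝ) := by exact_mod_cast this
  linarith

theorem xpos_bound {k K : ℕ} (hk : 1 ≤ k) {v : Fin k → ℝ} (hv : ∀ l, 0 < v l ∧ v l ≤ 1) (j : Fin K) :
    0 < xpos k K v j ∧ xpos k K v j ≤ 1 := by
  haveI : Nonempty (Fin k) := ⟨⟨0, hk⟩⟩
  unfold xpos
  constructor
  · apply div_pos _ (MM_pos k K)
    apply Finset.sum_pos _ univ_nonempty
    intro l _
    have := (hv l).1
    positivity
  · rw [div_le_one (MM_pos k K)]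
    have hK1 : (1 : ℝ) ≤ K := by
      have : 1 ≤ K := by have := j.2; omega
      exact_mod_cast this
    have h1 : ∀ l ∈ (univ : Finset (Fin k)), ((j : ℝ) + 1) ^ ((l : ℕ) + 1) * v l ≤ (K : ℝ) ^ k := by
      intro l _
      have a1 : ((j : ℕ) : ℝ) + 1 ≤ K := by exact_mod_cast j.2
      have a2 : ((j : ℝ) + 1) ^ ((l : ℕ) + 1) ≤ (K : ℝ) ^ ((l : ℕ) + 1) :=
        pow_le_pow_left₀ (by positivity) a1 _
      have a3 : (K : ℝ) ^ ((l : ℕ) + 1) ≤ (K : ℝ) ^ k := pow_le_pow_right₀ hK1 l.2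
      calc ((j : ℝ) + 1) ^ ((l : ℕ) + 1) * v l ≤ ((j : ℝ) + 1) ^ ((l : ℕ) + 1) * 1 :=
            mul_le_mul_of_nonneg_left (hv l).2 (by positivity)
        _ ≤ (K : ℝ) ^ k := by rw [mul_one]; exact a2.trans a3
    have h2 := Finset.sum_le_sum h1
    rw [Finset.sum_const, card_univ, Fintype.card_fin, nsmul_eq_mul] at h2
    unfold MM
    linarith

/-- the matrix of the differences -/
noncomputable def BB (k K : ℕ) (τ : Fin (k + 1) → Fin K) : Matrix (Fin k) (Fin k) ℝ :=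
  fun i l => (((τ i.succ : ℕ) : ℝ) + 1) ^ ((l : ℕ) + 1) / MM k K -
    (((τ i.castSucc : ℕ) : ℝ) + 1) ^ ((l : ℕ) + 1) / MM k K

theorem BB_mulVec (k K : ℕ) (τ : Fin (k + 1) → Fin K) (v : Fin k → ℝ) (i : Fin k) :
    (BB k K τ).mulVec v i = xpos k K v (τ i.succ) - xpos k K v (τ i.castSucc) := by
  unfold BB xpos Matrix.mulVec dotProduct
  rw [Finset.sum_div, Finset.sum_div, ← Finset.sum_sub_distrib]
  apply Finset.sum_congr rfl
  intro l _
  ring

theorem BB_det (k K : ℕ) {τ : Fin (k + 1) → Fin K} (hτ : StrictMono τ) : (BB k K τ).det ≠ 0 := by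
  intro hdet
  obtain ⟨v, hv0, hv⟩ := Matrix.exists_mulVec_eq_zero_iff.2 hdet
  apply hv0
  obtain ⟨P, hP⟩ : ∃ P : Polynomial ℝ, P = ∑ l : Fin k, Polynomial.monomial ((l : ℕ) + 1) (v l) :=
    ⟨_, rfl⟩
  have hPe : ∀ y : ℝ, P.eval y = ∑ l : Fin k, y ^ ((l : ℕ) + 1) * v l := by
    intro y
    rw [hP, Polynomial.eval_finset_sum]
    apply Finset.sum_congr rfl
    intro l _
    rw [Polynomial.eval_monomial, mul_comm]
  have hstep : ∀ i : Fin k, P.eval (((τ i.succ : ℕ) : ℝ) + 1) = P.eval (((τ i.castSucc : ℕ) : ℝ) + 1) := by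
    intro i
    have h1 : (BB k K τ).mulVec v i = 0 := by rw [hv]; rfl
    rw [BB_mulVec] at h1
    unfold xpos at h1
    rw [← sub_div, div_eq_zero_iff] at h1
    rcases h1 with h1 | h1
    · rw [hPe, hPe]
      linarith
    · exact absurd h1 (MM_pos k K).ne'
  have hall : ∀ i : Fin (k + 1), P.eval (((τ i : ℕ) : ℝ) + 1) = P.eval (((τ 0 : ℕ) : ℝ) + 1) := by
    intro i
    induction i using Fin.induction with
    | zero => rfl
    | succ i ih => rw [hstep i, ih]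
  have hzero : P - Polynomial.C (P.eval (((τ 0 : ℕ) : ℝ) + 1)) = 0 := by
    apply Polynomial.eq_zero_of_natDegree_lt_card_of_eval_eq_zero
      (f := fun i : Fin (k + 1) => ((τ i : ℕ) : ℝ) + 1)
    · intro i i' hii
      have h1 : ((τ i : ℕ) : ℝ) = ((τ i' : ℕ) : ℝ) := by
        have : ((τ i : ℕ) : ℝ) + 1 = ((τ i' : ℕ) : ℝ) + 1 := hii
        linarith
      exact hτ.injective (Fin.ext (by exact_mod_cast h1))
    · intro i
      rw [Polynomial.eval_sub, Polynomial.eval_C, hall i, sub_self]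
    · rw [Fintype.card_fin]
      apply Nat.lt_succ_of_le
      refine (Polynomial.natDegree_sub_le _ _).trans (max_le ?_ ?_)
      · rw [hP]
        apply Polynomial.natDegree_sum_le_of_forall_le
        intro l _
        exact (Polynomial.natDegree_monomial_le _).trans l.2
      · rw [Polynomial.natDegree_C]
        exact Nat.zero_le _
  funext l
  have h1 := congrArg (fun p : Polynomial ℝ => p.coeff ((l : ℕ) + 1)) hzero
  simp only [Polynomial.coeff_sub, Polynomial.coeff_zero] at h1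
  rw [Polynomial.coeff_C, if_neg (Nat.succ_ne_zero _), sub_zero, hP, Polynomial.finset_sum_coeff] at h1
  rw [Finset.sum_eq_single l] at h1
  · rw [Polynomial.coeff_monomial, if_pos rfl] at h1
    exact h1
  · intro l' _ hl'
    rw [Polynomial.coeff_monomial, if_neg]
    intro h2
    exact hl' (Fin.ext (by omega))
  · intro h2
    exact absurd (mem_univ l) h2

/-- the set of the limit points of the vectors of `k` consecutive gaps has positive volume -/
theorem lim_volume (k : ℕ) (hk : 1 ≤ k) : ∃ c : ℝ, 0 < c ∧ ∀ F : ℝ → ℝ,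
    (∀ᶠ X : ℝ in atTop, Real.log X ≤ F X ∧ F X ≤ ff X) →
    (∀ δ : ℝ, 0 < δ → ∀ᶠ X : ℝ in atTop, ∀ y, X ≤ y → y ≤ 4 * X → |F y / F X - 1| < δ) →
    ∀ q a : ℕ, Squarefree q → a.Coprime q → ∀ T : ℝ, 0 < T → T ≤ 1 →
    ENNReal.ofReal (c * T ^ k) ≤ volume
      ({v : Fin k → ℝ | ∀ ε : ℝ, 0 < ε → (Near F q a k v ε).Infinite} ∩ Set.Icc 0 (fun _ => T)) := by
  classical
  obtain ⟨K, s₀, hs₀, hs₁, h⟩ := lim_claim k
  obtain ⟨S, hS⟩ : ∃ S : Finset (Fin (k + 1) → Fin K), S = univ.filter (fun τ => StrictMono τ) :=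
    ⟨_, rfl⟩
  obtain ⟨D, hD⟩ : ∃ D : ℝ, D = ∑ τ ∈ S, |(BB k K τ).det|⁻¹ + 1 := ⟨_, rfl⟩
  have hD0 : 0 < D := by
    rw [hD]
    have : 0 ≤ ∑ τ ∈ S, |(BB k K τ).det|⁻¹ := Finset.sum_nonneg fun τ _ => by positivity
    linarith
  refine ⟨s₀ ^ k / D, by positivity, ?_⟩
  intro F hF1 hF2 q a hq haq T hT0 hT1
  obtain ⟨L, hL⟩ : ∃ L : Set (Fin k → ℝ), L = {v | ∀ ε : ℝ, 0 < ε → (Near F q a k v ε).Infinite} :=
    ⟨_, rfl⟩
  rw [← hL]
  obtain ⟨s, hs⟩ : ∃ s : ℝ, s = min T s₀ := ⟨_, rfl⟩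
  have hs0 : 0 < s := by rw [hs]; exact lt_min hT0 hs₀
  have hsT : s ≤ T := by rw [hs]; exact min_le_left _ _
  have hss : s ≤ s₀ := by rw [hs]; exact min_le_right _ _
  have hsl : s₀ * T ≤ s := by
    rw [hs]
    apply le_min
    · nlinarith
    · nlinarith
  have hmono : L ∩ Set.Icc 0 (fun _ => s) ⊆ L ∩ Set.Icc 0 (fun _ => T) := by
    intro v hv
    exact ⟨hv.1, hv.2.1, fun i => (hv.2.2 i).trans hsT⟩
  refine le_trans ?_ (measure_mono hmono)
  obtain ⟨V, hV⟩ : ∃ V : Set (Fin k → ℝ), V = L ∩ Set.Icc 0 (fun _ => s) := ⟨_, rfl⟩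
  rw [← hV]
  obtain ⟨Q, hQ⟩ : ∃ Q : Set (Fin k → ℝ), Q = Set.pi Set.univ (fun _ => Set.Ioc (0 : ℝ) 1) := ⟨_, rfl⟩
  have hQ1 : volume Q = 1 := by
    rw [hQ, volume_pi_pi]
    apply Finset.prod_eq_one
    intro i _
    rw [Real.volume_Ioc, sub_zero, ENNReal.ofReal_one]
  have hcov : Q ⊆ ⋃ τ ∈ S, (Matrix.toLin' (s • BB k K τ)) ⁻¹' V := by
    intro v hv
    rw [hQ, Set.mem_univ_pi] at hv
    obtain ⟨τ, hτ, hτ2⟩ := h F hF1 hF2 q a hq haq s hs0 hss (xpos k K v)
      (xpos_mono hk fun l => (hv l).1) (xpos_bound hk hv)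
    have heq : Matrix.toLin' (s • BB k K τ) v =
        fun i : Fin k => s * (xpos k K v (τ i.succ) - xpos k K v (τ i.castSucc)) := by
      funext i
      rw [Matrix.toLin'_apply, Matrix.smul_mulVec, Pi.smul_apply, smul_eq_mul, BB_mulVec]
    rw [Set.mem_iUnion₂]
    refine ⟨τ, by rw [hS]; exact mem_filter.2 ⟨mem_univ _, hτ⟩, ?_⟩
    rw [Set.mem_preimage, heq, hV, hL]
    refine ⟨hτ2, fun i => ?_, fun i => ?_⟩
    · have h1 := (xpos_mono hk fun l => (hv l).1).monotone (hτ.monotone (Fin.castSucc_lt_succ (i := i)).le)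
      exact mul_nonneg hs0.le (sub_nonneg.2 h1)
    · have h1 := (xpos_bound hk hv (τ i.succ)).2
      have h2 := (xpos_bound hk hv (τ i.castSucc)).1
      show s * (xpos k K v (τ i.succ) - xpos k K v (τ i.castSucc)) ≤ s
      nlinarith
  have hvol : ∀ τ ∈ S, volume ((Matrix.toLin' (s • BB k K τ)) ⁻¹' V) =
      ENNReal.ofReal ((s ^ k)⁻¹ * |(BB k K τ).det|⁻¹) * volume V := by
    intro τ hτ
    rw [hS, mem_filter] at hτ
    have hdet : LinearMap.det (Matrix.toLin' (s • BB k K τ)) = s ^ k * (BB k K τ).det := by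
      rw [LinearMap.det_toLin', Matrix.det_smul, Fintype.card_fin]
    rw [Measure.addHaar_preimage_linearMap, hdet]
    · congr 2
      rw [abs_inv, abs_mul, abs_of_pos (pow_pos hs0 k), mul_inv]
    · rw [hdet]
      exact mul_ne_zero (pow_pos hs0 k).ne' (BB_det k K hτ.2)
  have hsum : (1 : ENNReal) ≤ ENNReal.ofReal (D / s ^ k) * volume V := by
    calc (1 : ENNReal) = volume Q := hQ1.symm
      _ ≤ volume (⋃ τ ∈ S, (Matrix.toLin' (s • BB k K τ)) ⁻¹' V) := measure_mono hcov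
      _ ≤ ∑ τ ∈ S, volume ((Matrix.toLin' (s • BB k K τ)) ⁻¹' V) := measure_biUnion_finset_le _ _
      _ = ∑ τ ∈ S, ENNReal.ofReal ((s ^ k)⁻¹ * |(BB k K τ).det|⁻¹) * volume V :=
          Finset.sum_congr rfl hvol
      _ = (∑ τ ∈ S, ENNReal.ofReal ((s ^ k)⁻¹ * |(BB k K τ).det|⁻¹)) * volume V := by
          rw [Finset.sum_mul]
      _ = ENNReal.ofReal (∑ τ ∈ S, (s ^ k)⁻¹ * |(BB k K τ).det|⁻¹) * volume V := by
          rw [ENNReal.ofReal_sum_of_nonneg]
          intro τ _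
          positivity
      _ ≤ ENNReal.ofReal (D / s ^ k) * volume V := by
          gcongr
          rw [← Finset.mul_sum, hD, div_eq_inv_mul]
          apply mul_le_mul_of_nonneg_left _ (by positivity)
          linarith
  have hx : 0 < s ^ k / D := by positivity
  calc ENNReal.ofReal (s₀ ^ k / D * T ^ k) ≤ ENNReal.ofReal (s ^ k / D) := by
        apply ENNReal.ofReal_le_ofReal
        rw [div_mul_eq_mul_div, ← mul_pow]
        apply div_le_div_of_nonneg_right _ hD0.le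
        exact pow_le_pow_left₀ (by positivity) hsl k
    _ = ENNReal.ofReal (s ^ k / D) * 1 := (mul_one _).symm
    _ ≤ ENNReal.ofReal (s ^ k / D) * (ENNReal.ofReal (D / s ^ k) * volume V) := by gcongr
    _ = volume V := by
        rw [← mul_assoc, ← ENNReal.ofReal_mul hx.le]
        have : s ^ k / D * (D / s ^ k) = 1 := by
          have := (pow_pos hs0 k).ne'
          field_simp
        rw [this, ENNReal.ofReal_one, one_mul]

end Pool.Agent.TH816.RR
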