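import Pool.Agent.TH816.RR.Lim2

set_option autoImplicit false

/-! RR: the interior of the set of the limit points of the vectors of `k` consecutive gaps. -/

open Finset Filter

namespace Pool.Agent.TH816.RR

open Pool.Agent.H256R2.SC (ff)
open MeasureTheory

/-- the differences of the coordinates `τ 0 < τ 1 < ... < τ k` of `x`, times `s` -/
def DDL (k K : ℕ) (τ : Fin (k + 1) → Fin K) (s : ℝ) : (Fin K → ℝ) →ₗ[ℝ] (Fin k → ℝ) where
  toFun x := fun i => s * (x (τ i.succ) - x (τ i.castSucc))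
  map_add' x y := by
    funext i
    simp only [Pi.add_apply]
    ring
  map_smul' c x := by
    funext i
    simp only [Pi.smul_apply, smul_eq_mul, RingHom.id_apply]
    ring

theorem DDL_apply (k K : ℕ) (τ : Fin (k + 1) → Fin K) (s : ℝ) (x : Fin K → ℝ) (i : Fin k) :
    DDL k K τ s x i = s * (x (τ i.succ) - x (τ i.castSucc)) := rfl

theorem DDL_surj {k K : ℕ} {τ : Fin (k + 1) → Fin K} (hτ : StrictMono τ) {s : ℝ} (hs : s ≠ 0) :
    Function.Surjective (DDL k K τ s) := by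
  intro v
  refine ⟨fun j => ∑ i : Fin k, if τ i.succ ≤ j then v i / s else 0, ?_⟩
  funext i
  rw [DDL_apply]
  have h1 : (∑ i' : Fin k, if τ i'.succ ≤ τ i.succ then v i' / s else 0) -
      (∑ i' : Fin k, if τ i'.succ ≤ τ i.castSucc then v i' / s else 0) = v i / s := by
    rw [← Finset.sum_sub_distrib, Finset.sum_eq_single i]
    · rw [if_pos le_rfl, if_neg, sub_zero]
      exact not_le.2 (hτ (Fin.castSucc_lt_succ (i := i)))
    · intro i' _ hne
      rcases lt_or_gt_of_ne hne with h | h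
      · rw [if_pos, if_pos, sub_self]
        · exact hτ.monotone (by rw [Fin.le_iff_val_le_val]; simp only [Fin.val_succ, Fin.val_castSucc]; exact h)
        · exact hτ.monotone (Fin.succ_le_succ_iff.2 h.le)
      · rw [if_neg, if_neg, sub_self]
        · exact not_le.2 (hτ (by rw [Fin.lt_def]; simp only [Fin.val_succ, Fin.val_castSucc]
                                 have : (i : ℕ) < i' := h
                                 omega))
        · exact not_le.2 (hτ (Fin.succ_lt_succ_iff.2 h))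
    · intro h
      exact absurd (mem_univ i) h
  rw [h1, mul_div_cancel₀ _ hs]

/-- the covering property passes from a closed set to the closure of its interior -/
theorem top_cover {k K : ℕ} {s : ℝ} (hs : s ≠ 0) {L : Set (Fin k → ℝ)} (hL : IsClosed L)
    {X : Set (Fin K → ℝ)} (hX : IsOpen X)
    (hcov : ∀ x ∈ X, ∃ τ : Fin (k + 1) → Fin K, StrictMono τ ∧ DDL k K τ s x ∈ L) :
    ∀ x ∈ X, ∃ τ : Fin (k + 1) → Fin K, StrictMono τ ∧ DDL k K τ s x ∈ closure (interior L) := by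
  classical
  by_contra hcon
  push Not at hcon
  obtain ⟨x, hx, hx2⟩ := hcon
  have hcont : ∀ τ : Fin (k + 1) → Fin K, Continuous (DDL k K τ s) :=
    fun τ => LinearMap.continuous_of_finiteDimensional _
  obtain ⟨X', hX'⟩ : ∃ X' : Set (Fin K → ℝ), X' = X ∩
      ⋂ τ : {τ : Fin (k + 1) → Fin K // StrictMono τ}, (DDL k K τ.1 s) ⁻¹' (closure (interior L))ᶜ :=
    ⟨_, rfl⟩
  have hXo : IsOpen X' := by
    rw [hX']
    exact hX.inter (isOpen_iInter_of_finite fun τ => isClosed_closure.isOpen_compl.preimage (hcont τ.1))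
  have hx' : x ∈ X' := by
    rw [hX']
    exact ⟨hx, Set.mem_iInter.2 fun τ => hx2 τ.1 τ.2⟩
  have key : ∀ S : Finset {τ : Fin (k + 1) → Fin K // StrictMono τ}, ∃ O : Set (Fin K → ℝ),
      IsOpen O ∧ O.Nonempty ∧ O ⊆ X' ∧ ∀ τ ∈ S, ∀ y ∈ O, DDL k K τ.1 s y ∉ L := by
    intro S
    induction S using Finset.induction with
    | empty => exact ⟨X', hXo, ⟨x, hx'⟩, subset_rfl, by simp⟩
    | insert τ S _ ih =>
      obtain ⟨O, hO, hOn, hOX, hOS⟩ := ih
      refine ⟨O ∩ (DDL k K τ.1 s) ⁻¹' Lᶜ, hO.inter (hL.isOpen_compl.preimage (hcont τ.1)), ?_,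
        Set.inter_subset_left.trans hOX, ?_⟩
      · by_contra hne
        rw [Set.not_nonempty_iff_eq_empty] at hne
        obtain ⟨y, hy⟩ := hOn
        have h1 : (DDL k K τ.1 s) '' O ⊆ L := by
          rintro _ ⟨z, hz, rfl⟩
          by_contra hzL
          have hz2 : z ∈ O ∩ (DDL k K τ.1 s) ⁻¹' Lᶜ := ⟨hz, hzL⟩
          rw [hne] at hz2
          exact hz2
        have h2 : IsOpen ((DDL k K τ.1 s) '' O) :=
          LinearMap.isOpenMap_of_finiteDimensional _ (DDL_surj τ.2 hs) O hO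
        have h3 : DDL k K τ.1 s y ∈ interior L := interior_maximal h1 h2 ⟨y, hy, rfl⟩
        have h4 := hOX hy
        rw [hX'] at h4
        exact (Set.mem_iInter.1 h4.2 τ) (subset_closure h3)
      · intro τ' hτ' y hy
        rcases Finset.mem_insert.1 hτ' with h | h
        · rw [h]
          exact hy.2
        · exact hOS τ' h y hy.1
  obtain ⟨O, hO, ⟨y, hy⟩, hOX, hOS⟩ := key univ
  have hyX : y ∈ X := by
    have := hOX hy
    rw [hX'] at this
    exact this.1
  obtain ⟨τ, hτ, hτ2⟩ := hcov y hyX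
  exact hOS ⟨τ, hτ⟩ (mem_univ _) y hy hτ2

/-- the increasing positions in `(0, 1)` -/
def Pos (K : ℕ) : Set (Fin K → ℝ) := {x | StrictMono x ∧ ∀ j, 0 < x j ∧ x j < 1}

theorem Pos_open (K : ℕ) : IsOpen (Pos K) := by
  have h1 : Pos K = (⋂ i : Fin K, ⋂ j : Fin K, {x : Fin K → ℝ | i < j → x i < x j}) ∩
      ⋂ j : Fin K, ({x : Fin K → ℝ | 0 < x j} ∩ {x : Fin K → ℝ | x j < 1}) := by
    ext x
    simp only [Pos, Set.mem_setOf_eq, Set.mem_inter_iff, Set.mem_iInter]
    constructor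
    · rintro ⟨a, b⟩
      exact ⟨fun i j h => a h, b⟩
    · rintro ⟨a, b⟩
      exact ⟨fun i j h => a i j h, b⟩
  rw [h1]
  apply IsOpen.inter
  · apply isOpen_iInter_of_finite
    intro i
    apply isOpen_iInter_of_finite
    intro j
    by_cases hij : i < j
    · simp only [hij, true_imp_iff]
      exact isOpen_lt (continuous_apply i) (continuous_apply j)
    · simp only [hij, false_imp_iff, Set.setOf_true]
      exact isOpen_univ
  · apply isOpen_iInter_of_finite
    intro j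
    exact (isOpen_lt continuous_const (continuous_apply j)).inter
      (isOpen_lt (continuous_apply j) continuous_const)

/-- the set of the limit vectors is closed -/
theorem lim_closed (F : ℝ → ℝ) (q a k : ℕ) :
    IsClosed {v : Fin k → ℝ | ∀ ε : ℝ, 0 < ε → (Near F q a k v ε).Infinite} := by
  apply isClosed_of_closure_subset
  intro v hv ε hε
  obtain ⟨w, hw, hvw⟩ := Metric.mem_closure_iff.1 hv (ε / 2) (by positivity)
  refine (hw (ε / 2) (by positivity)).mono ?_
  intro n hn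
  refine ⟨hn.1, fun i => ?_⟩
  have h1 := hn.2 i
  have h2 : |w i - v i| < ε / 2 := by
    have h3 := (dist_pi_lt_iff (by positivity : (0 : ℝ) < ε / 2)).1 hvw i
    rw [Real.dist_eq, abs_sub_comm] at h3
    exact h3
  calc |((Nat.nth Nat.Prime (n + i + 1) : ℝ) - Nat.nth Nat.Prime (n + i)) /
        F (Nat.nth Nat.Prime n) - v i|
      = |(((Nat.nth Nat.Prime (n + i + 1) : ℝ) - Nat.nth Nat.Prime (n + i)) /
        F (Nat.nth Nat.Prime n) - w i) + (w i - v i)| := by congr 1; ring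
    _ ≤ _ := abs_add_le _ _
    _ < ε := by linarith

theorem xpos_lt_one {k K : ℕ} (hk : 1 ≤ k) {v : Fin k → ℝ} (hv : ∀ l, 0 < v l ∧ v l ≤ 1) (j : Fin K) :
    xpos k K v j < 1 := by
  unfold xpos
  rw [div_lt_one (MM_pos k K)]
  have hK1 : (1 : ℝ) ≤ K := by
    have : 1 ≤ K := by have := j.2; omega
    exact_mod_cast this
  have h1 : ∀ l ∈ (univ : Finset (Fin k)), ((j : ℝ) + 1) ^ ((l : ℕ) + 1) * v l ≤ (K : ℝ) ^ k := by
    intro l _
    have a1 : ((j : ℕ) : ℝ) + 1 ≤ K := by exact_mod_cast j.2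
    have a2 : ((j : ℝ) + 1) ^ ((l : ℕ) + 1) ≤ (K : ℝ) ^ ((l : ℕ) + 1) :=
      pow_le_pow_left₀ (by positivity) a1 _
    have a3 : (K : ℝ) ^ ((l : ℕ) + 1) ≤ (K : ℝ) ^ k := pow_le_pow_right₀ hK1 l.2
    calc ((j : ℝ) + 1) ^ ((l : ℕ) + 1) * v l ≤ ((j : ℝ) + 1) ^ ((l : ℕ) + 1) * 1 :=
          mul_le_mul_of_nonneg_left (hv l).2 (by positivity)
      _ ≤ (K : ℝ) ^ k := by rw [mul_one]; exact a2.trans a3
  have h2 := Finset.sum_le_sum h1
  rw [Finset.sum_const, card_univ, Fintype.card_fin, nsmul_eq_mul] at h2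
  unfold MM
  linarith

/-- the volume of a set with the covering property -/
theorem vol_cov (k K : ℕ) (hk : 1 ≤ k) : ∃ D : ℝ, 0 < D ∧ ∀ s : ℝ, 0 < s → ∀ L : Set (Fin k → ℝ),
    (∀ x ∈ Pos K, ∃ τ : Fin (k + 1) → Fin K, StrictMono τ ∧ DDL k K τ s x ∈ L) →
    ENNReal.ofReal (s ^ k / D) ≤ volume (L ∩ Set.Icc 0 (fun _ => s)) := by
  classical
  obtain ⟨S, hS⟩ : ∃ S : Finset (Fin (k + 1) → Fin K), S = univ.filter (fun τ => StrictMono τ) :=
    ⟨_, rfl⟩
  obtain ⟨D, hD⟩ : ∃ D : ℝ, D = ∑ τ ∈ S, |(BB k K τ).det|⁻¹ + 1 := ⟨_, rfl⟩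
  have hD0 : 0 < D := by
    rw [hD]
    have : 0 ≤ ∑ τ ∈ S, |(BB k K τ).det|⁻¹ := Finset.sum_nonneg fun τ _ => by positivity
    linarith
  refine ⟨D, hD0, ?_⟩
  intro s hs0 L h
  obtain ⟨V, hV⟩ : ∃ V : Set (Fin k → ℝ), V = L ∩ Set.Icc 0 (fun _ => s) := ⟨_, rfl⟩
  rw [← hV]
  obtain ⟨Q, hQ⟩ : ∃ Q : Set (Fin k → ℝ), Q = Set.pi Set.univ (fun _ => Set.Ioc (0 : ℝ) 1) := ⟨_, rfl⟩
  have hQ1 : volume Q = 1 := by
    rw [hQ, volume_pi_pi]
    apply Finset.prod_eq_one
    intro i _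
    rw [Real.volume_Ioc, sub_zero, ENNReal.ofReal_one]
  have hcov : Q ⊆ ⋃ τ ∈ S, (Matrix.toLin' (s • BB k K τ)) ⁻¹' V := by
    intro v hv
    rw [hQ, Set.mem_univ_pi] at hv
    obtain ⟨τ, hτ, hτ2⟩ := h (xpos k K v) ⟨xpos_mono hk fun l => (hv l).1, fun j =>
      ⟨(xpos_bound hk hv j).1, xpos_lt_one hk hv j⟩⟩
    have heq : Matrix.toLin' (s • BB k K τ) v = DDL k K τ s (xpos k K v) := by
      funext i
      rw [Matrix.toLin'_apply, Matrix.smul_mulVec, Pi.smul_apply, smul_eq_mul, BB_mulVec, DDL_apply]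
    rw [Set.mem_iUnion₂]
    refine ⟨τ, by rw [hS]; exact mem_filter.2 ⟨mem_univ _, hτ⟩, ?_⟩
    rw [Set.mem_preimage, heq, hV]
    refine ⟨hτ2, fun i => ?_, fun i => ?_⟩
    · have h1 := (xpos_mono hk fun l => (hv l).1).monotone (hτ.monotone (Fin.castSucc_lt_succ (i := i)).le)
      rw [DDL_apply]
      exact mul_nonneg hs0.le (sub_nonneg.2 h1)
    · have h1 := (xpos_bound hk hv (τ i.succ)).2
      have h2 := (xpos_bound hk hv (τ i.castSucc)).1
      rw [DDL_apply]
      show s * (xpos k K v (τ i.succ) - xpos k K v (τ i.castSucc)) ≤ s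
      nlinarith
  have hvol : ∀ τ ∈ S, volume ((Matrix.toLin' (s • BB k K τ)) ⁻¹' V) =
      ENNReal.ofReal ((s ^ k)⁻¹ * |(BB k K τ).det|⁻¹) * volume V := by
    intro τ hτ
    rw [hS, mem_filter] at hτ
    have hdet : LinearMap.det (Matrix.toLin' (s • BB k K τ)) = s ^ k * (BB k K τ).det := by
      rw [LinearMap.det_toLin', Matrix.det_smul, Fintype.card_fin]
    rw [Measure.addHaar_preimage_linearMap, hdet]
    · congr 2
      rw [abs_inv, abs_mul, abs_of_pos (pow_pos hs0 k), mul_inv]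
    · rw [hdet]
      exact mul_ne_zero (pow_pos hs0 k).ne' (BB_det k K hτ.2)
  have hsum : (1 : ENNReal) ≤ ENNReal.ofReal (D / s ^ k) * volume V := by
    calc (1 : ENNReal) = volume Q := hQ1.symm
      _ ≤ volume (⋃ τ ∈ S, (Matrix.toLin' (s • BB k K τ)) ⁻¹' V) := measure_mono hcov
      _ ≤ ∑ τ ∈ S, volume ((Matrix.toLin' (s • BB k K τ)) ⁻¹' V) := measure_biUnion_finset_le _ _
      _ = ∑ τ ∈ S, ENNReal.ofReal ((s ^ k)⁻¹ * |(BB k K τ).det|⁻¹) * volume V :=
          Finset.sum_congr rfl hvol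
      _ = (∑ τ ∈ S, ENNReal.ofReal ((s ^ k)⁻¹ * |(BB k K τ).det|⁻¹)) * volume V := by
          rw [Finset.sum_mul]
      _ = ENNReal.ofReal (∑ τ ∈ S, (s ^ k)⁻¹ * |(BB k K τ).det|⁻¹) * volume V := by
          rw [ENNReal.ofReal_sum_of_nonneg]
          intro τ _
          positivity
      _ ≤ ENNReal.ofReal (D / s ^ k) * volume V := by
          gcongr
          rw [← Finset.mul_sum, hD, div_eq_inv_mul]
          apply mul_le_mul_of_nonneg_left _ (by positivity)
          linarith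
  have hx : 0 < s ^ k / D := by positivity
  calc ENNReal.ofReal (s ^ k / D) = ENNReal.ofReal (s ^ k / D) * 1 := (mul_one _).symm
    _ ≤ ENNReal.ofReal (s ^ k / D) * (ENNReal.ofReal (D / s ^ k) * volume V) := by gcongr
    _ = volume V := by
        rw [← mul_assoc, ← ENNReal.ofReal_mul hx.le]
        have : s ^ k / D * (D / s ^ k) = 1 := by
          have := (pow_pos hs0 k).ne'
          field_simp
        rw [this, ENNReal.ofReal_one, one_mul]

end Pool.Agent.TH816.RR
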