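import Mathlib

set_option autoImplicit false

/-! RR: the choice of the parameters. -/

namespace Pool.Agent.TH816.RR

theorem params (g κ lam : ℝ) (hg : 1 ≤ g) (hκ : 0 < κ) (hκ1 : κ ≤ 1) (hlam : 1 ≤ lam) (T : ℕ) (hT : 1 ≤ T) :
    ∃ B : ℕ, 1 ≤ B ∧ ∀ s : ℝ, 8 * 2 ^ B * B * g ≤ s → s ≤ 16 * 2 ^ B * B * g →
      ∃ k : ℕ, 1 ≤ k ∧ T * k ≤ 2 ^ B ∧
      (k : ℝ) * (B : ℝ) ^ 2 / s ≤ κ / (64 * g ^ 2 * (4 * lam)) ∧
      16 * (κ ^ 2 / (8192 * g ^ 2) / lam) ≤ (k : ℝ) * (B : ℝ) ^ 2 / s * κ := by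
  have hg0 : 0 < g := by linarith
  have hlam0 : 0 < lam := by linarith
  obtain ⟨M, hM⟩ := exists_nat_ge (128 * g * lam / κ)
  obtain ⟨m, hm⟩ : ∃ m : ℕ, m = M + T := ⟨_, rfl⟩
  have hm1 : 1 ≤ m := by omega
  have hmT : T ≤ m := by omega
  have hmr : (1 : ℝ) ≤ m := by exact_mod_cast hm1
  have hmM : 128 * g * lam ≤ m * κ := by
    have h1 : 128 * g * lam / κ ≤ m := by
      refine hM.trans ?_
      rw [hm]; push_cast; linarith [(Nat.cast_nonneg T : (0 : ℝ) ≤ T)]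
    rwa [div_le_iff₀ hκ] at h1
  refine ⟨2 * m, by omega, ?_⟩
  intro s hs1 hs2
  obtain ⟨B, hB⟩ : ∃ B : ℝ, B = ((2 * m : ℕ) : ℝ) := ⟨_, rfl⟩
  rw [← hB] at hs1 hs2 ⊢
  have hB2 : B = 2 * m := by rw [hB]; push_cast; ring
  have hBpos : 0 < B := by rw [hB2]; linarith
  have hpow : (m : ℝ) * B / 4 ≤ 2 ^ (2 * m) := by
    have h1 : (m : ℝ) ≤ 2 ^ m := by exact_mod_cast (Nat.lt_two_pow_self (n := m)).le
    have h2 : (2 : ℝ) ^ (2 * m) = 2 ^ m * 2 ^ m := by rw [← pow_add]; congr 1; ring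
    rw [h2, hB2]
    have h3 : (m : ℝ) * m ≤ 2 ^ m * 2 ^ m := mul_le_mul h1 h1 (by linarith) (by positivity)
    have h4 : (0 : ℝ) ≤ m * m := by positivity
    linarith
  obtain ⟨Q, hQ⟩ : ∃ Q : ℝ, Q = 2 ^ (2 * m) := ⟨_, rfl⟩
  rw [← hQ] at hs1 hs2 hpow
  have hQpos : 0 < Q := by rw [hQ]; positivity
  have hspos : 0 < s := lt_of_lt_of_le (by positivity) hs1
  obtain ⟨r, hr⟩ : ∃ r : ℝ, r = κ * s / (256 * g ^ 2 * lam * B ^ 2) := ⟨_, rfl⟩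
  have hr1 : 1 ≤ r := by
    rw [hr, le_div_iff₀ (by positivity), one_mul]
    calc 256 * g ^ 2 * lam * B ^ 2 = (128 * g * lam) * (2 * g * B ^ 2) := by ring
      _ ≤ (m * κ) * (2 * g * B ^ 2) := by gcongr
      _ = κ * (8 * (m * B / 4) * B * g) := by ring
      _ ≤ κ * (8 * Q * B * g) := by gcongr
      _ ≤ κ * s := by gcongr
  have hk1 : 1 ≤ ⌊r⌋₊ := (Nat.one_le_floor_iff r).2 hr1
  have hkr : (⌊r⌋₊ : ℝ) ≤ r := Nat.floor_le (by linarith)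
  have hkr2 : r / 2 ≤ (⌊r⌋₊ : ℝ) := by
    have h1 := Nat.lt_floor_add_one r
    have h2 : (1 : ℝ) ≤ (⌊r⌋₊ : ℝ) := by exact_mod_cast hk1
    linarith
  refine ⟨⌊r⌋₊, hk1, ?_, ?_, ?_⟩
  · have h1 : r * B ≤ Q := by
      rw [hr, div_mul_eq_mul_div, div_le_iff₀ (by positivity)]
      calc κ * s * B ≤ 1 * (16 * Q * B * g) * B := by gcongr
        _ = Q * (16 * 1 * 1 * g * B ^ 2) := by ring
        _ ≤ Q * (256 * g * lam * g * B ^ 2) := by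
            have h2 : (1 : ℝ) ≤ g * lam := by nlinarith
            have h3 : 16 * 1 * 1 * g * B ^ 2 ≤ 256 * g * lam * g * B ^ 2 := by
              have h4 : 16 * g ≤ 256 * (g * lam) * g := by nlinarith
              nlinarith [sq_nonneg B]
            exact mul_le_mul_of_nonneg_left h3 hQpos.le
        _ = _ := by ring
    have h2 : (T : ℝ) * (⌊r⌋₊ : ℝ) ≤ Q := by
      have h3 : (T : ℝ) ≤ B := by
        rw [hB2]
        have : (T : ℝ) ≤ m := by exact_mod_cast hmT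
        linarith
      calc (T : ℝ) * (⌊r⌋₊ : ℝ) ≤ B * r := by gcongr
        _ = r * B := mul_comm _ _
        _ ≤ Q := h1
    rw [hQ] at h2
    exact_mod_cast h2
  · calc (⌊r⌋₊ : ℝ) * B ^ 2 / s ≤ r * B ^ 2 / s := by gcongr
      _ = κ / (64 * g ^ 2 * (4 * lam)) := by
          rw [hr]
          field_simp
          ring
  · calc 16 * (κ ^ 2 / (8192 * g ^ 2) / lam) = (r / 2) * B ^ 2 / s * κ := by
          rw [hr]
          field_simp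
          ring
      _ ≤ (⌊r⌋₊ : ℝ) * B ^ 2 / s * κ := by gcongr

end Pool.Agent.TH816.RR
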