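import Pool.Agent.H312R2.RG.A2
import Pool.Agent.H362R2.RQ.Pair2
import Pool.Agent.TH816.RR.Col
import Pool.Agent.TH816.RR.Comb

set_option autoImplicit false

/-! RR: positivity at a single `X` (adapted from `Pool.Agent.H362R2.RQ.Pos`, helper362) -/

open Finset Filter

namespace Pool.Agent.TH816.RR

open Pool.Agent.H378R2
open Pool.Agent.H312R2.RG (ClassA ClassB tot)
open Pool.Agent.H362R2.RQ (kap kap_pos low1 thn)

/-- the positivity statement at a single `X` -/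
theorem pos_atRR (K0 B T k : ℕ) (f : Fin B → ℝ → ℝ) (c : Fin B → ℝ)
    (A : Finset (Fin (K0 + 1) → Fin B)) (s : ℝ) (hf0 : ∀ l x, c l < x → f l x = 0)
    (hA : ∀ a ∈ A, ∑ j, c (a j) ≤ 1) (hf1 : ∀ l x, |f l x| ≤ 1)
    (hIpos : 0 < II f A) (hIle : II f A ≤ s ^ (K0 + 1)) (hs0 : 0 < s) (hB : 1 ≤ B)
    (hJ : ∀ i, (2 / 3) * s ^ K0 * B ^ 2 ≤ JJ f A i)
    (ε1 X : ℝ) (hε1 : 0 < ε1) (hε1a : ε1 ≤ s ^ (K0 + 1)) (hε1b : ε1 ≤ s ^ K0 * B ^ 2 / 3)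
    (hε1c : ε1 ≤ s ^ (K0 + 1) * (4 * gam * B ^ 2 / s) ^ 2)
    (hT : 1 ≤ T) (hk : 1 ≤ k) (hTk : T * k ≤ K0 + 1) (lam w η : ℝ) (hlam : 0 < lam)
    (hw : w = k * (B : ℝ) ^ 2 / s) (hw1 : w ≤ kap / (64 * gam ^ 2 * lam)) (hη : 0 < η) (hη1 : 16 * η ≤ w * kap)
    (ps a0 : ℕ) (S : Finset ℕ) (t : Fin (K0 + 1) → ℕ)
    (hX40 : 40 ≤ X) (hL1 : 1 ≤ LL X)
    (hMM : MPhi X / 400 ≤ LPhi X)
    (E : Finset ℕ) (hEsup : E ⊆ Esup X ps)
    (hBEPW : BE (PW X S ps) / 2 ≤ BE E)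
    (V Tf : ℤ → ℝ) (Z₁ M M' M₂ t1 t2 t3 : ℝ)
    (hV : ∀ a, 0 ≤ V a ∧ V a ≤ X ^ (1 / 100 : ℝ)) (hZ : 1 ≤ Z₁) (hM1 : 3 / 4 * Z₁ ≤ M) (hMZ : M ≤ Z₁)
    (hM' : 3 / 4 * M ≤ M') (hM₂0 : 0 ≤ M₂) (hM₂ : ((K0 + 1 : ℕ) : ℝ) * M₂ ≤ η * Z₁)
    (ht1nn : 0 ≤ t1) (ht2nn : 0 ≤ t2) (ht3nn : 0 ≤ t3)
    (S1 : ∑ n ∈ Icc 1 ⌊3 * X⌋₊, nu X (WW X S ps) a0 n *
          (sqw E X f A (fun j => (n : ℤ) + t j) ^ 2 * V n) ≤
        M * ((MPhi X * (1 / (WW X S ps : ℝ))) * (1 / (LL X * BE E) ^ (K0 + 1)) * (II f A + ε1)) +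
          (A.card : ℝ) ^ 2 * t1)
    (S2 : ∀ i, M' * ((LPhi X * (1 / ((WW X S ps).totient : ℝ))) * (1 / (LL X * BE E) ^ K0) *
          (JJ f A i - ε1)) -
        (A.card : ℝ) ^ 2 * (t3 + Real.exp (2 * LL X) * X ^ (1 / 100 : ℝ) *
          ((4 * (Real.log X) ^ 2) * Real.log (4 * X) + 4 * Real.sqrt X * Real.log (4 * X))) ≤
      ∑ n ∈ Icc 1 ⌊3 * X⌋₊, nu X (WW X S ps) a0 n *
        (sqw E X f A (fun j => (n : ℤ) + t j) ^ 2 * V n * th (n + t i)))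
    (PS : ∀ i j, i ≠ j → ∑ n ∈ Icc 1 ⌊3 * X⌋₊,
          (nu X (WW X S ps) a0 n * sqw E X f A (fun j => (n : ℤ) + t j) ^ 2 * V n) *
          (thn X (n + t i) * thn X (n + t j)) ≤
        M * ((MPhi X * (1 / (WW X S ps : ℝ))) * (1 / (LL X * BE E) ^ (K0 + 1)) *
          (s ^ (K0 + 1) * (4 * gam * B ^ 2 / s) ^ 2 + ε1)) + (A.card : ℝ) ^ 2 * t1)
    (TS : ∑ n ∈ Icc 1 ⌊3 * X⌋₊, nu X (WW X S ps) a0 n *
          (sqw E X f A (fun j => (n : ℤ) + t j) ^ 2 * (V n * Tf n)) ≤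
        M₂ * ((MPhi X * (1 / (WW X S ps : ℝ))) * (1 / (LL X * BE E) ^ (K0 + 1)) * (II f A + ε1)) +
          (A.card : ℝ) ^ 2 * t2)
    (ht : ((T * k : ℝ) + lam * (T * (k : ℝ) ^ 2) + η * T + ((K0 + 1 : ℕ) : ℝ)) * ((A.card : ℝ) ^ 2 * (t1 + t2 + t3)) ≤
      Z₁ * ((X / ((WW X S ps : ℝ) * (Real.log X) ^ (K0 + 1))) * (η * s ^ (K0 + 1) / 40)))
    (herr : ((T * k : ℝ) + 1) * (((K0 + 1 : ℕ) : ℝ) * ((A.card : ℝ) ^ 2 * (Real.exp (2 * LL X) * X ^ (1 / 100 : ℝ) *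
        ((4 * (Real.log X) ^ 2) * Real.log (4 * X) + 4 * Real.sqrt X * Real.log (4 * X)))) +
      ((K0 + 1 : ℕ) : ℝ) * (X ^ (9 / 10 : ℝ) * ((A.card : ℝ) ^ 2 * Real.exp (2 * LL X) * X ^ (1 / 100 : ℝ)))) ≤
      (X / ((WW X S ps : ℝ) * (Real.log X) ^ (K0 + 1))) * (η * s ^ (K0 + 1) / 40))
    (bad : Finset ℕ) (hbad : (bad.card : ℝ) ≤ X ^ (9 / 10 : ℝ)) :
    0 < ∑ n ∈ Icc 1 ⌊3 * X⌋₊, (nu X (WW X S ps) a0 n * sqw E X f A (fun j => (n : ℤ) + t j) ^ 2 * V n) *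
      (QF (K0 + 1) T k lam (fun i => thn X (n + t i)) - η * T - ((K0 + 1 : ℕ) : ℝ) * Tf n -
      ((K0 + 1 : ℕ) : ℝ) * (if n ∈ bad then 1 else 0)) := by
  classical
  have hXpos : 0 < X := by linarith
  have hg := gam_pos
  have hkap := kap_pos
  have hLl : LL X = Real.log X / 200 := rfl
  have hlogX : 200 ≤ Real.log X := by linarith
  have hWpos : 0 < WW X S ps := WW_pos X S ps
  have hWr : (0 : ℝ) < (WW X S ps : ℝ) := by exact_mod_cast hWpos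
  have hBE : 0 < BE E := BE_pos fun p hp => Esup_prime (hEsup hp)
  have hBE1 : BE E ≤ 1 := BE_le_one fun p hp => Esup_prime (hEsup hp)
  have hPWpos : 0 < BE (PW X S ps) := BE_pos fun p hp => (mem_PW.1 hp).2.1
  have hMge := MPhi_ge X hX40
  have hMpos : 0 < MPhi X := lt_of_lt_of_le (by positivity) hMge
  have hBr : (0 : ℝ) < B := by exact_mod_cast hB
  have hTr : (1 : ℝ) ≤ T := by exact_mod_cast hT
  have hkr : (1 : ℝ) ≤ k := by exact_mod_cast hk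
  have hwpos : 0 < w := by rw [hw]; positivity
  have hZpos : 0 < Z₁ := by linarith
  have hMpos' : 0 < M := by linarith
  set Wn : ℕ → ℝ := fun n => nu X (WW X S ps) a0 n * sqw E X f A (fun j => (n : ℤ) + t j) ^ 2 * V n with hWn
  set bd : ℕ → ℝ := fun n => if n ∈ bad then 1 else 0 with hbd
  have hl4 : 1 ≤ Real.log (4 * X) := by
    rw [Real.log_mul (by norm_num) hXpos.ne']
    have := Real.log_nonneg (by norm_num : (1 : ℝ) ≤ 4)
    linarith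
  have hl4le : Real.log (4 * X) ≤ 400 * LL X := by
    rw [Real.log_mul (by norm_num) hXpos.ne']
    have h2 : Real.log 4 ≤ 2 := by
      have : Real.log 4 = 2 * Real.log 2 := by
        rw [show (4 : ℝ) = 2 ^ 2 by norm_num, Real.log_pow]; norm_num
      have := Real.log_two_lt_d9
      linarith
    rw [hLl]
    linarith
  set Mm : ℝ := (MPhi X * (1 / (WW X S ps : ℝ))) * (1 / (LL X * BE E) ^ (K0 + 1)) with hMm
  set M2 : ℝ := (LPhi X * (1 / ((WW X S ps).totient : ℝ))) * (1 / (LL X * BE E) ^ K0) with hM2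
  set sm : ℝ := Real.exp (2 * LL X) * X ^ (1 / 100 : ℝ) *
        ((4 * (Real.log X) ^ 2) * Real.log (4 * X) + 4 * Real.sqrt X * Real.log (4 * X)) with hsm
  set sK : ℝ := s ^ (K0 + 1) with hsK
  have hsKpos : 0 < sK := by rw [hsK]; positivity
  have hMmpos : 0 < Mm := by
    have : 0 < LL X := by linarith
    rw [hMm]
    positivity
  have hsmnn : 0 ≤ sm := by
    have : 0 ≤ Real.log (4 * X) := by linarith
    rw [hsm]
    positivity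
  have E1 : ∑ n ∈ Icc 1 ⌊3 * X⌋₊, Wn n ≤ Z₁ * (Mm * (2 * sK)) + (A.card : ℝ) ^ 2 * t1 := by
    have h1 : ∑ n ∈ Icc 1 ⌊3 * X⌋₊, Wn n ≤ M * (Mm * (II f A + ε1)) + (A.card : ℝ) ^ 2 * t1 := by
      refine le_trans (le_of_eq ?_) S1
      refine Finset.sum_congr rfl fun n _ => ?_
      simp only [hWn]
      ring
    refine h1.trans ?_
    have h2 : M * (Mm * (II f A + ε1)) ≤ Z₁ * (Mm * (2 * sK)) := by
      apply mul_le_mul hMZ _ _ hZpos.le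
      · apply mul_le_mul_of_nonneg_left _ hMmpos.le
        linarith
      · positivity
    linarith
  have E2 : ∀ i, kap * (Z₁ * Mm * (s ^ K0 * B ^ 2)) - (A.card : ℝ) ^ 2 * (t3 + sm) ≤
      ∑ n ∈ Icc 1 ⌊3 * X⌋₊, Wn n * thn X (n + t i) := by
    intro i
    have h1 : ∑ n ∈ Icc 1 ⌊3 * X⌋₊, Wn n * thn X (n + t i) =
        (∑ n ∈ Icc 1 ⌊3 * X⌋₊, nu X (WW X S ps) a0 n *
          (sqw E X f A (fun j => (n : ℤ) + t j) ^ 2 * V n * th (n + t i))) / Real.log (4 * X) := by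
      rw [Finset.sum_div]
      refine Finset.sum_congr rfl fun n _ => ?_
      simp only [hWn]
      unfold thn
      ring
    rw [h1]
    have hM2ge : Mm * (LL X / 800) ≤ M2 := by
      rw [hMm, hM2, totient_WW]
      exact M2_real (MPhi X) (LPhi X) (WW X S ps) (BE E) (BE (PW X S ps)) (LL X) K0 hMpos.le hWr hBE
        hPWpos (by linarith) hBEPW hMM
    exact low1 Mm M2 (LL X) (Real.log (4 * X)) (s ^ K0 * B ^ 2) (JJ f A i) ε1 Z₁ M M' _ _ hMmpos (by linarith)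
      hl4 hl4le (by positivity) (by have := hJ i; linarith) hε1b hM2ge hZ hM1 hM' (by positivity) (S2 i)
  have E5 : ∀ i j, i ≠ j → ∑ n ∈ Icc 1 ⌊3 * X⌋₊, Wn n * (thn X (n + t i) * thn X (n + t j)) ≤
      Z₁ * (Mm * (2 * (sK * (4 * gam * B ^ 2 / s) ^ 2))) + (A.card : ℝ) ^ 2 * t1 := by
    intro i j hij
    refine (PS i j hij).trans ?_
    have h2 : M * (Mm * (sK * (4 * gam * B ^ 2 / s) ^ 2 + ε1)) ≤
        Z₁ * (Mm * (2 * (sK * (4 * gam * B ^ 2 / s) ^ 2))) := by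
      apply mul_le_mul hMZ _ _ hZpos.le
      · apply mul_le_mul_of_nonneg_left _ hMmpos.le
        linarith
      · positivity
    linarith
  have E3 : ∑ n ∈ Icc 1 ⌊3 * X⌋₊, Wn n * Tf n ≤ M₂ * (Mm * (2 * sK)) + (A.card : ℝ) ^ 2 * t2 := by
    have h1 : ∑ n ∈ Icc 1 ⌊3 * X⌋₊, Wn n * Tf n ≤ M₂ * (Mm * (II f A + ε1)) + (A.card : ℝ) ^ 2 * t2 := by
      refine le_trans (le_of_eq ?_) TS
      refine Finset.sum_congr rfl fun n _ => ?_
      simp only [hWn]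
      ring
    refine h1.trans ?_
    have h2 : M₂ * (Mm * (II f A + ε1)) ≤ M₂ * (Mm * (2 * sK)) := by
      apply mul_le_mul_of_nonneg_left _ hM₂0
      apply mul_le_mul_of_nonneg_left _ hMmpos.le
      linarith
    linarith
  have E4 : ∑ n ∈ Icc 1 ⌊3 * X⌋₊, Wn n * bd n ≤
      X ^ (9 / 10 : ℝ) * ((A.card : ℝ) ^ 2 * Real.exp (2 * LL X) * X ^ (1 / 100 : ℝ)) := by
    have hq0 : 0 ≤ X ^ (1 / 100 : ℝ) := by positivity
    have h1 : ∀ n, Wn n ≤ (A.card : ℝ) ^ 2 * Real.exp (2 * LL X) * X ^ (1 / 100 : ℝ) := by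
      intro n
      have h2 := sqw_sq_le E X (by linarith) f c A hf0 hA hf1 (fun j => (n : ℤ) + t j)
      have h3 : nu X (WW X S ps) a0 n ≤ 1 := by
        unfold nu
        split_ifs
        · exact Phi_le_one _
        · exact zero_le_one
      have h4 : nu X (WW X S ps) a0 n * sqw E X f A (fun j => (n : ℤ) + t j) ^ 2 ≤
          (A.card : ℝ) ^ 2 * Real.exp (2 * LL X) := by
        calc nu X (WW X S ps) a0 n * sqw E X f A (fun j => (n : ℤ) + t j) ^ 2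
            ≤ 1 * sqw E X f A (fun j => (n : ℤ) + t j) ^ 2 := mul_le_mul_of_nonneg_right h3 (sq_nonneg _)
          _ ≤ _ := by rw [one_mul]; exact h2
      exact mul_le_mul h4 (hV n).2 (hV n).1 (by positivity)
    have h2 : ∑ n ∈ Icc 1 ⌊3 * X⌋₊, Wn n * bd n = ∑ n ∈ (Icc 1 ⌊3 * X⌋₊).filter (fun n => n ∈ bad), Wn n := by
      rw [Finset.sum_filter]
      refine Finset.sum_congr rfl fun n _ => ?_
      simp only [hbd]
      split_ifs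
      · rw [mul_one]
      · rw [mul_zero]
    rw [h2]
    refine (Finset.sum_le_sum fun n _ => h1 n).trans ?_
    rw [Finset.sum_const, nsmul_eq_mul]
    apply mul_le_mul_of_nonneg_right _ (by positivity)
    refine le_trans ?_ hbad
    have h3 : ((Icc 1 ⌊3 * X⌋₊).filter (fun n => n ∈ bad)).card ≤ bad.card := by
      apply Finset.card_le_card
      intro n hn
      exact (Finset.mem_filter.1 hn).2
    exact_mod_cast h3
  have hUBnn : 0 ≤ Z₁ * (Mm * (2 * (sK * (4 * gam * B ^ 2 / s) ^ 2))) + (A.card : ℝ) ^ 2 * t1 := by positivity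
  have EQ := sum_QF (K0 + 1) T k hTk hk lam hlam.le (Icc 1 ⌊3 * X⌋₊) Wn (fun n i => thn X (n + t i)) _ _ hUBnn E2 E5
  have hMmge : X / ((WW X S ps : ℝ) * (Real.log X) ^ (K0 + 1)) / 20 ≤ Mm :=
    Mm_real X (MPhi X) (WW X S ps) (BE E) (LL X) (Real.log X) (K0 + 1) hXpos hWr hBE hBE1
      (by linarith) (by rw [hLl]; linarith) hMge
  set P0 : ℝ := X / ((WW X S ps : ℝ) * (Real.log X) ^ (K0 + 1)) with hP0
  have hP0nn : 0 ≤ P0 := by rw [hP0]; positivity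
  set K : ℝ := ((K0 + 1 : ℕ) : ℝ) with hK
  have hKpos : 0 < K := by rw [hK]; positivity
  have hK1 : 1 ≤ K := by rw [hK]; push_cast; linarith [(Nat.cast_nonneg K0 : (0 : ℝ) ≤ K0)]
  set eB : ℝ := X ^ (9 / 10 : ℝ) * ((A.card : ℝ) ^ 2 * Real.exp (2 * LL X) * X ^ (1 / 100 : ℝ)) with heB
  have heBnn : 0 ≤ eB := by rw [heB]; positivity
  have hcA : 0 ≤ (A.card : ℝ) ^ 2 := sq_nonneg _
  have hEtot : (T * k : ℝ) * ((A.card : ℝ) ^ 2 * (t3 + sm)) + lam * (T * (k : ℝ) ^ 2) * ((A.card : ℝ) ^ 2 * t1) +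
      η * T * ((A.card : ℝ) ^ 2 * t1) + K * ((A.card : ℝ) ^ 2 * t2) + K * eB ≤
      η * (Z₁ * Mm * sK) := by
    have h1 : P0 * (η * sK / 40) ≤ Z₁ * (P0 * (η * sK / 40)) :=
      le_mul_of_one_le_left (by positivity) hZ
    have h2 : Z₁ * (P0 * (η * sK / 40)) + Z₁ * (P0 * (η * sK / 40)) ≤
        η * (Z₁ * Mm * sK) := by
      have h3 : P0 / 20 * (Z₁ * (η * sK)) ≤ Mm * (Z₁ * (η * sK)) :=
        mul_le_mul_of_nonneg_right hMmge (by positivity)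
      calc Z₁ * (P0 * (η * sK / 40)) + Z₁ * (P0 * (η * sK / 40)) =
            P0 / 20 * (Z₁ * (η * sK)) := by ring
        _ ≤ Mm * (Z₁ * (η * sK)) := h3
        _ = _ := by ring
    have hmA : 0 ≤ (T * k : ℝ) := by positivity
    have hmA2 : 0 ≤ lam * (T * (k : ℝ) ^ 2) := by positivity
    have hem : 0 ≤ η * T := by positivity
    have h5 : (T * k : ℝ) * ((A.card : ℝ) ^ 2 * t3) + lam * (T * (k : ℝ) ^ 2) * ((A.card : ℝ) ^ 2 * t1) +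
      η * T * ((A.card : ℝ) ^ 2 * t1) + K * ((A.card : ℝ) ^ 2 * t2) ≤
      ((T * k : ℝ) + lam * (T * (k : ℝ) ^ 2) + η * T + K) * ((A.card : ℝ) ^ 2 * (t1 + t2 + t3)) := by
      have a1 : 0 ≤ (A.card : ℝ) ^ 2 * t1 := by positivity
      have a2 : 0 ≤ (A.card : ℝ) ^ 2 * t2 := by positivity
      have a3 : 0 ≤ (A.card : ℝ) ^ 2 * t3 := by positivity
      set p1 := (A.card : ℝ) ^ 2 * t1
      set p2 := (A.card : ℝ) ^ 2 * t2
      set p3 := (A.card : ℝ) ^ 2 * t3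
      have e1 : (A.card : ℝ) ^ 2 * (t1 + t2 + t3) = p1 + p2 + p3 := by ring
      rw [e1]
      have b1 := mul_nonneg hmA a1
      have b2 := mul_nonneg hmA a2
      have b3 := mul_nonneg hmA2 a2
      have b4 := mul_nonneg hmA2 a3
      have b5 := mul_nonneg hem a2
      have b6 := mul_nonneg hem a3
      have b7 := mul_nonneg hKpos.le a1
      have b8 := mul_nonneg hKpos.le a3
      linarith
    have h6 : (T * k : ℝ) * ((A.card : ℝ) ^ 2 * sm) + K * eB ≤ ((T * k : ℝ) + 1) * (K * ((A.card : ℝ) ^ 2 * sm) + K * eB) := by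
      have a1 : 0 ≤ (A.card : ℝ) ^ 2 * sm := by positivity
      have a2 : (A.card : ℝ) ^ 2 * sm ≤ K * ((A.card : ℝ) ^ 2 * sm) := le_mul_of_one_le_left a1 hK1
      have a3 : 0 ≤ K * eB := by positivity
      have a4 := mul_le_mul_of_nonneg_left a2 hmA
      have a5 := mul_nonneg hmA a3
      have a6 : 0 ≤ K * ((A.card : ℝ) ^ 2 * sm) := by positivity
      linarith
    have h7 : (T * k : ℝ) * ((A.card : ℝ) ^ 2 * (t3 + sm)) = (T * k : ℝ) * ((A.card : ℝ) ^ 2 * t3) +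
        (T * k : ℝ) * ((A.card : ℝ) ^ 2 * sm) := by ring
    rw [h7]
    linarith
  have hfin := combineRR Mm sK (s ^ K0 * B ^ 2) s B gam Z₁ K T k lam w η _ _ _ _ _ _
    ((A.card : ℝ) ^ 2 * t1) ((A.card : ℝ) ^ 2 * (t3 + sm)) ((A.card : ℝ) ^ 2 * t2) eB M₂
    hMmpos hs0 hBr hg hsKpos (by rw [hsK, pow_succ]; ring) hZ hTr hKpos (by linarith) hlam hw hw1 hη hη1 rfl rfl
    E1 EQ E3 E4 hEtot hM₂
  have e0 : ∑ n ∈ Icc 1 ⌊3 * X⌋₊, Wn n * (QF (K0 + 1) T k lam (fun i => thn X (n + t i)) - η * T -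
      K * Tf n - K * bd n) =
      (∑ n ∈ Icc 1 ⌊3 * X⌋₊, Wn n * QF (K0 + 1) T k lam (fun i => thn X (n + t i))) -
      η * T * ∑ n ∈ Icc 1 ⌊3 * X⌋₊, Wn n - K * ∑ n ∈ Icc 1 ⌊3 * X⌋₊, Wn n * Tf n -
      K * ∑ n ∈ Icc 1 ⌊3 * X⌋₊, Wn n * bd n := by
    rw [Finset.mul_sum, Finset.mul_sum, Finset.mul_sum, ← Finset.sum_sub_distrib,
      ← Finset.sum_sub_distrib, ← Finset.sum_sub_distrib]
    refine Finset.sum_congr rfl fun n _ => ?_
    ring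
  calc _ < _ := hfin
    _ = _ := e0.symm

end Pool.Agent.TH816.RR
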