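import Pool.Agent.TH816.RR.Fin
import Pool.Agent.TH779.Ord.Main

set_option autoImplicit false

/-! RR: the orders of consecutive record gaps (the counting is due to helper779, `Pool.Agent.TH779.Ord`). -/

open Finset Filter

namespace Pool.Agent.TH816.RR

open Pool.Agent.H378R2 (yy)
open Pool.Agent.H256R2.SC (ff)
open Pool.Agent.H312R2.RG.C3 (ff_tendsto ff_lower ff_small ff_slow)
open Pool.Agent.H362R2.RQ (exists_prime_mod dvd_of_primes)
open Pool.Agent.TH779.Ord (fn hh hh_strictMono C el el_mem el_lt el_surj gp block nth_block patterns_many)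
open Pool.Agent.TH816.RP (pigeon)

/-- positions with integral ratios in a record window -/
theorem place_pos (h : StRR) (lam : ℝ) (hlam : 1 ≤ lam) (T : ℕ) (hT : 1 ≤ T) :
    ∃ K k : ℕ, 1 ≤ k ∧ T * k ≤ K ∧ ∃ c : ℝ, 0 < c ∧ ∀ D : ℕ, ∀ q : ℕ, Squarefree q →
    ∀ a : ℕ, a.Coprime q → ∀ᶠ X : ℝ in atTop, ∀ pos : Fin K → ℕ, StrictMono pos → (∀ j, pos j ≤ D) →
    ∃ (n : ℕ) (t : Fin K → ℕ), X < n ∧ (n : ℝ) ≤ 3 * X ∧ c * ff X ≤ X ∧
      (∀ j, c * ff X / 4 + c * ff X / (8 * (D + 1)) * pos j < t j ∧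
        (t j : ℝ) ≤ c * ff X / 4 + c * ff X / (8 * (D + 1)) * (pos j + 1 / 8)) ∧
      (∀ j, n + t j ≡ a [MOD q]) ∧
      (T : ℝ) * (eta0 / lam) ≤ ∑ g : Fin T, fn lam
        (((Gr K T k).filter (fun j : Fin K => (j : ℕ) / k = g)).filter (fun j => (n + t j).Prime)).card ∧
      ∀ s : ℕ, (s : ℝ) ≤ c * ff X → (n + s).Prime → ∃ j, s = t j := by
  obtain ⟨K, k, hk, hTk, c, hc, hX1'⟩ := h lam hlam T hT
  refine ⟨K, k, hk, hTk, c, hc, ?_⟩
  intro D q hqsf a haq
  have hq0 : 0 < q := Nat.pos_of_ne_zero hqsf.ne_zero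
  obtain ⟨X1, hX1⟩ := hX1' q
  obtain ⟨ε, hε⟩ : ∃ ε : ℝ, ε = 1 / (64 * (D + 1)) := ⟨_, rfl⟩
  have hεpos : 0 < ε := by rw [hε]; positivity
  obtain ⟨Y0, hY0⟩ := Filter.eventually_atTop.1 (exists_prime_mod q hq0 a haq ε hεpos)
  have hll : Tendsto (fun X : ℝ => Real.log (Real.log X)) atTop atTop :=
    Real.tendsto_log_atTop.comp Real.tendsto_log_atTop
  filter_upwards [eventually_ge_atTop X1, Real.tendsto_log_atTop.eventually_ge_atTop (4 * |Y0| + 4),
    ff_lower, ff_small c hc, hll.eventually_ge_atTop (1 / c)] with X hXX1 hlX hlow hsmall hllX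
  intro pos hpos hD
  have hY0nn := abs_nonneg Y0
  have hlpos : 0 < Real.log X := by linarith
  have hlF : Real.log X ≤ c * ff X := by
    have h1 : Real.log X * (1 / c) ≤ Real.log X * Real.log (Real.log X) :=
      mul_le_mul_of_nonneg_left hllX hlpos.le
    have h2 : Real.log X * (1 / c) ≤ ff X := h1.trans hlow
    have h3 : c * (Real.log X * (1 / c)) ≤ c * ff X := mul_le_mul_of_nonneg_left h2 hc.le
    have h4 : c * (Real.log X * (1 / c)) = Real.log X := by field_simp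
    linarith
  obtain ⟨F, hFdef⟩ : ∃ F : ℝ, F = c * ff X := ⟨_, rfl⟩
  rw [← hFdef] at hlF hsmall ⊢
  have hF : 4 * |Y0| + 4 ≤ F := hlX.trans hlF
  have hFpos : 0 < F := by linarith
  obtain ⟨u, hu⟩ : ∃ u : ℝ, u = F / (8 * (D + 1)) := ⟨_, rfl⟩
  rw [← hu]
  have hupos : 0 < u := by rw [hu]; positivity
  have huD : u * (D + 1) = F / 8 := by rw [hu]; field_simp
  have hεu : ε * F = u * (1 / 8) := by rw [hε, hu]; field_simp; ring
  have hposD : ∀ j, (pos j : ℝ) ≤ D := fun j => by exact_mod_cast hD j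
  have hylow : ∀ j, F / 4 ≤ F / 4 + u * pos j := by
    intro j
    have : 0 ≤ u * (pos j : ℝ) := by positivity
    linarith
  have hyup : ∀ j, F / 4 + u * (pos j + 1) ≤ F / 2 := by
    intro j
    have h1 : u * ((pos j : ℝ) + 1) ≤ u * (D + 1) :=
      mul_le_mul_of_nonneg_left (by linarith [hposD j]) hupos.le
    linarith
  have hex : ∀ j, ∃ p : ℕ, p.Prime ∧ p ≡ a [MOD q] ∧ F / 4 + u * pos j < p ∧
      (p : ℝ) ≤ F / 4 + u * (pos j + 1 / 8) := by
    intro j
    have h1 := hylow j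
    have h2 := hyup j
    obtain ⟨p, hp, hpa, hp1, hp2⟩ := hY0 (F / 4 + u * pos j) (by
      have := le_abs_self Y0
      linarith)
    refine ⟨p, hp, hpa, hp1, hp2.trans ?_⟩
    have h3 : ε * (F / 4 + u * pos j) ≤ ε * F := by
      apply mul_le_mul_of_nonneg_left _ hεpos.le
      have : u * ((pos j : ℝ) + 1) = u * pos j + u := by ring
      linarith
    have h4 : (1 + ε) * (F / 4 + u * pos j) = F / 4 + u * pos j + ε * (F / 4 + u * pos j) := by ring
    have h5 : u * ((pos j : ℝ) + 1 / 8) = u * pos j + u * (1 / 8) := by ring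
    rw [h4, h5]
    linarith
  choose t htp hta htl htu using hex
  have htlt : ∀ j j', j < j' → t j < t j' := by
    intro j j' hjj
    have h1 := htu j
    have h2 := htl j'
    have h3 : ((pos j : ℕ) : ℝ) + 1 ≤ pos j' := by exact_mod_cast hpos hjj
    have h4 : u * ((pos j : ℝ) + 1) ≤ u * (pos j' : ℝ) := mul_le_mul_of_nonneg_left h3 hupos.le
    have h5 : (t j : ℝ) < t j' := by
      have h6 : u * ((pos j : ℝ) + 1 / 8) ≤ u * ((pos j : ℝ) + 1) :=
        mul_le_mul_of_nonneg_left (by linarith) hupos.le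
      linarith
    exact_mod_cast h5
  have htinj : Function.Injective t := (show StrictMono t from fun j j' h => htlt j j' h).injective
  have htF : ∀ j, (t j : ℝ) ≤ F := by
    intro j
    have h1 := htu j
    have h2 := hyup j
    have h6 : u * ((pos j : ℝ) + 1 / 8) ≤ u * ((pos j : ℝ) + 1) :=
      mul_le_mul_of_nonneg_left (by linarith) hupos.le
    linarith
  have htyy : ∀ j, yy X < t j := by
    intro j
    have h1 : (yy X : ℝ) ≤ Real.log X / 1000 := Nat.floor_le (by positivity)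
    have h4 := hylow j
    have h5 := htl j
    have h6 : (yy X : ℝ) < t j := by linarith
    exact_mod_cast h6
  obtain ⟨n, hn1, hn2, _, hn3, hn4, hn5⟩ := hX1 X hXX1 t htinj
    (fun j => ⟨htp j, htyy j, by have := htF j; rwa [hFdef] at this⟩) ∅ (by
      rw [Finset.card_empty, Nat.cast_zero]
      have : 0 < X := by linarith [hFpos]
      positivity)
  have hqn : q ∣ n := dvd_of_primes q n hqsf fun p hp hpq => hn5 p hp (Nat.le_of_dvd hq0 hpq)
  refine ⟨n, t, hn1, hn2, hsmall, fun j => ⟨htl j, htu j⟩, ?_, hn3, ?_⟩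
  · intro j
    have h1 : n ≡ 0 [MOD q] := (Nat.modEq_zero_iff_dvd).2 hqn
    have h2 := h1.add (hta j)
    rwa [zero_add] at h2
  · intro s hs hp
    exact hn4 s (by rw [← hFdef]; exact hs) hp

/-- the orders of `k` consecutive prime gaps of record size (at least `δ f(p)`), all the primes in the class of `a`
modulo `q`, which occur infinitely often -/
def PSR (δ : ℝ) (q a k : ℕ) : Set (Equiv.Perm (Fin k)) :=
  {π | ∀ N0 : ℕ, ∃ n > N0, (∀ i ≤ k, Nat.nth Nat.Prime (n + i) ≡ a [MOD q]) ∧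
    (∀ i < k, δ * ff (Nat.nth Nat.Prime (n + i)) ≤
      (Nat.nth Nat.Prime (n + i + 1) : ℝ) - Nat.nth Nat.Prime (n + i)) ∧
    ∀ i j : Fin k, π i < π j ↔
      Nat.nth Nat.Prime (n + i + 1) - Nat.nth Nat.Prime (n + i) <
        Nat.nth Nat.Prime (n + j + 1) - Nat.nth Nat.Prime (n + j)}

theorem hh_le (s : ℕ → ℕ) (B K N Kt x : ℕ) (hB : 1 ≤ B) (hs : ∀ l, s l ≤ N) (hx : x < Kt) :
    hh s B K x ≤ Kt * B ^ (N + 1) + 2 ^ Kt := by
  unfold hh C
  apply Nat.add_le_add
  · calc ∑ l ∈ range (x / K), B ^ (s l + 1) ≤ ∑ _l ∈ range (x / K), B ^ (N + 1) :=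
          sum_le_sum fun l _ => Nat.pow_le_pow_right hB (by have := hs l; omega)
      _ = (x / K) * B ^ (N + 1) := by rw [sum_const, card_range, smul_eq_mul]
      _ ≤ Kt * B ^ (N + 1) := Nat.mul_le_mul_right _ ((Nat.div_le_self x K).trans hx.le)
  · exact Nat.pow_le_pow_right (by norm_num) hx.le

/-- the main step -/
theorem ord_many (h : StRR) {k c N : ℕ} {lam : ℝ} (hlam : 1 ≤ lam) (hk : 1 ≤ k)
    (hc : (c : ℝ) ≤ k - 2 * k / lam) (hN : (k : ℝ) + 1 ≤ ((N + 1 : ℕ) : ℝ) * (eta0 / lam)) :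
    ∃ δ : ℝ, 0 < δ ∧ ∀ q a : ℕ, Squarefree q → Nat.Coprime a q →
      c.factorial ≤ (PSR δ q a k).ncard * 2 ^ (k + N) := by
  classical
  obtain ⟨K, kk, hkk, hTk, cc, hcc, hpl⟩ := place_pos h lam hlam (N + 1) (by omega)
  obtain ⟨B, hB⟩ : ∃ B : ℕ, B = 2 ^ ((N + 1) * kk) + N + 4 := ⟨_, rfl⟩
  obtain ⟨D, hD⟩ : ∃ D : ℕ, D = K * B ^ (N + 1) + 2 ^ K := ⟨_, rfl⟩
  have hB1 : 1 ≤ B := by rw [hB]; exact (Nat.one_le_two_pow).trans ((Nat.le_add_right _ _).trans (Nat.le_add_right _ _))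
  refine ⟨cc / (32 * (D + 1)), by positivity, ?_⟩
  intro q a hq haq
  have hfin : (PSR (cc / (32 * (D + 1))) q a k).Finite := Set.toFinite _
  rw [Set.ncard_eq_toFinset_card _ hfin]
  apply patterns_many
  intro σ
  obtain ⟨s, hs⟩ : ∃ s : ℕ → ℕ, s = fun l => if h : l < N then (σ ⟨l, h⟩ : ℕ) else 0 := ⟨_, rfl⟩
  have hs' : ∀ (l : ℕ) (h : l < N), s l = (σ ⟨l, h⟩ : ℕ) := by
    intro l h
    rw [hs]
    simp only [h, dite_true]
  have hsN : ∀ l, s l ≤ N := by
    intro l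
    by_cases hl : l < N
    · rw [hs' l hl]; exact (σ ⟨l, hl⟩).2.le
    · rw [hs]; simp only [hl, dite_false]; exact Nat.zero_le _
  have hmono : StrictMono (hh s B kk) := hh_strictMono s B kk
  obtain ⟨pos, hposdef⟩ : ∃ pos : Fin K → ℕ, pos = fun x : Fin K => hh s B kk (x : ℕ) := ⟨_, rfl⟩
  have hposmono : StrictMono pos := by
    intro x y hxy
    rw [hposdef]
    exact hmono hxy
  have hposD : ∀ x, pos x ≤ D := by
    intro x
    rw [hposdef, hD]
    exact hh_le s B kk N K x hB1 hsN x.2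
  have hall := (hpl D q hq a haq).and ((ff_slow (1 / 2) (by norm_num)).and
    ((ff_tendsto.eventually_gt_atTop 0).and (eventually_ge_atTop (1 : ℝ))))
  obtain ⟨X0, hX0⟩ := Filter.eventually_atTop.1 hall
  have hXn : ∀ X : ℕ, ∃ (n : ℕ) (t : Fin K → ℕ), X0 ≤ X → (X : ℝ) < n ∧ (n : ℝ) ≤ 3 * X ∧ cc * ff X ≤ X ∧
      (∀ j, cc * ff X / 4 + cc * ff X / (8 * (D + 1)) * pos j < t j ∧
        (t j : ℝ) ≤ cc * ff X / 4 + cc * ff X / (8 * (D + 1)) * (pos j + 1 / 8)) ∧
      (∀ j, n + t j ≡ a [MOD q]) ∧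
      ((N + 1 : ℕ) : ℝ) * (eta0 / lam) ≤ ∑ g : Fin (N + 1), fn lam
        (((Gr K (N + 1) kk).filter (fun j : Fin K => (j : ℕ) / kk = g)).filter (fun j => (n + t j).Prime)).card ∧
      ∀ s : ℕ, (s : ℝ) ≤ cc * ff X → (n + s).Prime → ∃ j, s = t j := by
    intro X
    by_cases hX : X0 ≤ X
    · obtain ⟨n, t, hh⟩ := (hX0 X hX).1 pos hposmono hposD
      exact ⟨n, t, fun _ => hh⟩
    · exact ⟨0, fun _ => 0, fun h' => absurd h' hX⟩
  choose n t hnt using hXn
  obtain ⟨PP, hPP⟩ : ∃ PP : ℕ → Finset (Fin K), PP = fun X =>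
    univ.filter (fun x : Fin K => (n X + t X x).Prime) := ⟨_, rfl⟩
  have hPPmem : ∀ X x, x ∈ PP X ↔ (n X + t X x).Prime := by
    intro X x
    rw [hPP]
    simp only [mem_filter, mem_univ, true_and]
  have hinfA : {X : ℕ | X0 ≤ (X : ℝ)}.Infinite := by
    obtain ⟨N0, hN0⟩ := exists_nat_ge X0
    refine (Set.Ici_infinite N0).mono ?_
    intro X hX
    exact hN0.trans (by exact_mod_cast hX)
  obtain ⟨P, hP⟩ := pigeon PP hinfA
  obtain ⟨J, hJdef⟩ : ∃ J : Finset ℕ, J = (P.filter (fun x : Fin K => (x : ℕ) < (N + 1) * kk)).map Fin.valEmbedding :=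
    ⟨_, rfl⟩
  have hJmem : ∀ x : ℕ, x ∈ J ↔ ∃ y : Fin K, y ∈ P ∧ (y : ℕ) = x ∧ x < (N + 1) * kk := by
    intro x
    rw [hJdef, Finset.mem_map]
    constructor
    · rintro ⟨y, hy, rfl⟩
      rw [mem_filter] at hy
      exact ⟨y, hy.1, rfl, hy.2⟩
    · rintro ⟨y, hy, rfl, hx⟩
      exact ⟨y, mem_filter.2 ⟨hy, hx⟩, rfl⟩
  have hJ1 : ∀ x ∈ J, x < (N + 1) * kk := fun x hx => by
    obtain ⟨y, _, _, h⟩ := (hJmem x).1 hx
    exact h
  have hJ2 : (k : ℝ) + 1 ≤ ∑ g ∈ range (N + 1), fn lam (J.filter (fun x => x / kk = g)).card := by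
    obtain ⟨X, hX, hXP⟩ := hP.nonempty
    obtain ⟨_, _, _, _, _, h7, _⟩ := hnt X hX
    refine (hN.trans h7).trans (le_of_eq ?_)
    rw [← Fin.sum_univ_eq_sum_range (fun g => fn lam (J.filter (fun x => x / kk = g)).card) (N + 1)]
    apply sum_congr rfl
    intro g _
    congr 1
    apply card_bij (fun (x : Fin K) _ => (x : ℕ))
    · intro x hx
      unfold Gr at hx
      simp only [mem_filter, mem_univ, true_and] at hx
      rw [mem_filter, hJmem]
      refine ⟨⟨x, ?_, rfl, hx.1.1⟩, hx.1.2⟩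
      rw [← hXP, hPPmem]
      exact hx.2
    · intro x _ y _ hxy
      exact Fin.ext hxy
    · intro x hx
      rw [mem_filter, hJmem] at hx
      obtain ⟨⟨y, hyP, hyx, hlt⟩, hdiv⟩ := hx
      refine ⟨y, ?_, hyx⟩
      unfold Gr
      simp only [mem_filter, mem_univ, true_and]
      rw [← hXP, hPPmem] at hyP
      refine ⟨⟨by rw [hyx]; exact hlt, by rw [hyx]; exact hdiv⟩, hyP⟩
  obtain ⟨e₀, he₀, π, hπ, x, y, hx, hy, hxy⟩ := block (by omega : 1 ≤ kk) rfl hlam hk hc J hJ1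
    hJ2 σ s hs' B (by rw [hB, add_assoc]; exact Nat.le_add_right _ _)
    (by rw [hB]; exact Nat.le_add_left _ _)
    (by rw [hB]; exact (Nat.le_add_left N (2 ^ ((N + 1) * kk))).trans (Nat.le_add_right _ _))
  refine ⟨π, ?_, x, y, hx, hy, hxy⟩
  rw [Set.Finite.mem_toFinset]
  intro N0
  obtain ⟨X, ⟨hX, hXP⟩, hXN⟩ := hP.exists_gt (Nat.nth Nat.Prime N0)
  obtain ⟨h1, h2, h3, h4, h5, _, h8⟩ := hnt X hX
  obtain ⟨_, hslow, hffpos, hX1⟩ := hX0 X hX
  obtain ⟨u, hu⟩ : ∃ u : ℝ, u = cc * ff X / (8 * (D + 1)) := ⟨_, rfl⟩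
  rw [← hu] at h4
  have hupos : 0 < u := by rw [hu]; positivity
  have hJK : ∀ e < J.card, el J e < K := fun e he => (hJ1 _ (el_mem J he)).trans_le hTk
  obtain ⟨tt, htt⟩ : ∃ tt : ℕ → ℕ, tt = fun z => if hz : z < K then t X ⟨z, hz⟩ else 0 := ⟨_, rfl⟩
  have htt' : ∀ (z : ℕ) (hz : z < K), tt z = t X ⟨z, hz⟩ := by
    intro z hz
    rw [htt]
    simp only [hz, dite_true]
  have httb : ∀ z < K, cc * ff X / 4 + u * hh s B kk z < tt z ∧
      (tt z : ℝ) ≤ cc * ff X / 4 + u * (hh s B kk z + 1 / 8) := by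
    intro z hz
    rw [htt' z hz]
    have := h4 ⟨z, hz⟩
    rw [hposdef] at this
    exact this
  -- differences
  have hdiff : ∀ z z', z < z' → z' < K →
      u * ((hh s B kk z' - hh s B kk z : ℕ) : ℝ) - u / 8 ≤ (tt z' : ℝ) - tt z ∧
      (tt z' : ℝ) - tt z ≤ u * ((hh s B kk z' - hh s B kk z : ℕ) : ℝ) + u / 8 := by
    intro z z' hzz hz'
    have a1 := httb z (hzz.trans hz')
    have a2 := httb z' hz'
    rw [Nat.cast_sub (hmono hzz).le]
    constructor <;> linarith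
  have httlt : ∀ z z', z < z' → z' < K → tt z < tt z' := by
    intro z z' hzz hz'
    have a1 := (hdiff z z' hzz hz').1
    have a2 : (1 : ℝ) ≤ ((hh s B kk z' - hh s B kk z : ℕ) : ℝ) := by
      have := hmono hzz
      have : 1 ≤ hh s B kk z' - hh s B kk z := by omega
      exact_mod_cast this
    have a3 : u * 1 ≤ u * ((hh s B kk z' - hh s B kk z : ℕ) : ℝ) := mul_le_mul_of_nonneg_left a2 hupos.le
    have a4 : (tt z : ℝ) < tt z' := by linarith
    exact_mod_cast a4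
  have httle : ∀ z z', z' < K → tt z < tt z' → z < K → z < z' := by
    intro z z' hz' hlt hz
    by_contra hcon
    rcases (not_lt.1 hcon).lt_or_eq with h9 | h9
    · have := httlt z' z h9 hz
      omega
    · rw [h9] at hlt; exact lt_irrefl _ hlt
  obtain ⟨r, hr⟩ : ∃ r : ℕ → ℕ, r = fun i => tt (el J (e₀ + i)) := ⟨_, rfl⟩
  have hri : ∀ i, r i = tt (el J (e₀ + i)) := fun i => by rw [hr]
  have hrlt : ∀ i j, i < j → j ≤ k → r i < r j := by
    intro i j hij hj
    rw [hri, hri]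
    exact httlt _ _ (el_lt J (by omega) (by omega)) (hJK _ (by omega))
  have hrle : ∀ i ≤ k, (r i : ℝ) ≤ cc * ff X := by
    intro i hi
    rw [hri]
    have hz := hJK (e₀ + i) (by omega)
    have a1 := (httb _ hz).2
    have a2 : (hh s B kk (el J (e₀ + i)) : ℝ) ≤ D := by
      have := hposD ⟨_, hz⟩
      rw [hposdef] at this
      exact_mod_cast this
    have a3 : u * ((hh s B kk (el J (e₀ + i)) : ℝ) + 1 / 8) ≤ u * (D + 1) :=
      mul_le_mul_of_nonneg_left (by linarith) hupos.le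
    have a4 : u * (D + 1) = cc * ff X / 8 := by rw [hu]; field_simp
    have a5 : 0 < cc * ff X := mul_pos hcc hffpos
    linarith
  obtain ⟨m, hm⟩ := nth_block (n X) k r hrlt
    (fun i hi => by
      have a1 := el_mem J (show e₀ + i < J.card by omega)
      obtain ⟨z, hzP, hz, _⟩ := (hJmem _).1 a1
      rw [← hXP, hPPmem] at hzP
      rw [hri, ← hz, htt' z z.2]
      exact hzP)
    (by
      intro w hw1 hw2 hw3
      obtain ⟨j, hj⟩ := h8 w (by
        have a1 : (w : ℝ) ≤ r k := by exact_mod_cast hw2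
        exact a1.trans (hrle k le_rfl)) hw3
      have hjt : tt j = t X j := htt' j j.2
      have hjk : (j : ℕ) ≤ el J (e₀ + k) := by
        by_contra hcon
        have a1 := httlt _ _ (not_le.1 hcon) j.2
        rw [hri] at hw2
        omega
      have hjT : (j : ℕ) < (N + 1) * kk := hjk.trans_lt (hJ1 _ (el_mem J he₀))
      have hjJ : (j : ℕ) ∈ J := by
        rw [hJmem]
        refine ⟨j, ?_, rfl, hjT⟩
        rw [← hXP, hPPmem, ← hj]
        exact hw3
      obtain ⟨e, he, hew⟩ := el_surj J hjJ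
      have he1 : e₀ ≤ e := by
        by_contra hcon
        push Not at hcon
        have a1 := httlt _ _ (el_lt J hcon (by omega)) (hJK e₀ (by omega))
        rw [hew] at a1
        rw [hri, add_zero] at hw1
        omega
      have he2 : e ≤ e₀ + k := by
        by_contra hcon
        push Not at hcon
        have a1 := el_lt J hcon he
        omega
      refine ⟨e - e₀, by omega, ?_⟩
      rw [hri, Nat.add_sub_cancel' he1, hew, hjt, hj])
  have hinf : (Set.ofPred Nat.Prime).Infinite := Nat.infinite_setOfPred_prime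
  -- the gaps
  have hgap : ∀ i < k, ((Nat.nth Nat.Prime (m + i + 1) : ℕ) : ℝ) - Nat.nth Nat.Prime (m + i) =
      (tt (el J (e₀ + i + 1)) : ℝ) - tt (el J (e₀ + i)) := by
    intro i hi
    have a1 := hm i hi.le
    have a2 := hm (i + 1) hi
    rw [← add_assoc] at a2
    rw [a1, a2, hri, hri, ← add_assoc]
    push_cast
    ring
  have hgapb : ∀ i < k, u * (gp s B kk J (e₀ + i) : ℝ) - u / 8 ≤
      ((Nat.nth Nat.Prime (m + i + 1) : ℕ) : ℝ) - Nat.nth Nat.Prime (m + i) ∧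
      ((Nat.nth Nat.Prime (m + i + 1) : ℕ) : ℝ) - Nat.nth Nat.Prime (m + i) ≤
        u * (gp s B kk J (e₀ + i) : ℝ) + u / 8 := by
    intro i hi
    rw [hgap i hi]
    exact hdiff _ _ (el_lt J (by omega) (by omega)) (hJK _ (by omega))
  have hgp1 : ∀ i < k, (1 : ℝ) ≤ (gp s B kk J (e₀ + i) : ℝ) := by
    intro i hi
    have a1 := hmono (el_lt J (show e₀ + i < e₀ + i + 1 by omega) (by omega))
    have a2 : 1 ≤ gp s B kk J (e₀ + i) := by unfold gp; omega
    exact_mod_cast a2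
  refine ⟨m, ?_, ?_, ?_, ?_⟩
  · have a1 := hm 0 (Nat.zero_le _)
    rw [add_zero] at a1
    have a2 : X < n X := by exact_mod_cast h1
    have a3 : Nat.nth Nat.Prime N0 < Nat.nth Nat.Prime m := by
      rw [a1]
      omega
    exact (Nat.nth_strictMono hinf).lt_iff_lt.1 a3
  · intro i hi
    rw [hm i hi, hri, htt' _ (hJK (e₀ + i) (by omega))]
    exact h5 _
  · intro i hi
    have b1 := (hgapb i hi).1
    have b2 := hgp1 i hi
    have b3 : u * 1 ≤ u * (gp s B kk J (e₀ + i) : ℝ) := mul_le_mul_of_nonneg_left b2 hupos.le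
    have b4 : u / 2 ≤ ((Nat.nth Nat.Prime (m + i + 1) : ℕ) : ℝ) - Nat.nth Nat.Prime (m + i) := by
      linarith
    refine le_trans ?_ b4
    have c1 : ((Nat.nth Nat.Prime (m + i) : ℕ) : ℝ) = n X + r i := by
      rw [hm i hi.le]; push_cast; ring
    have hy1 : (X : ℝ) ≤ (Nat.nth Nat.Prime (m + i) : ℕ) := by
      rw [c1]
      have : (0 : ℝ) ≤ r i := Nat.cast_nonneg _
      linarith
    have hy2 : ((Nat.nth Nat.Prime (m + i) : ℕ) : ℝ) ≤ 4 * X := by
      rw [c1]
      have := hrle i hi.le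
      linarith
    have hsl := hslow _ hy1 hy2
    have hffy : ff (Nat.nth Nat.Prime (m + i)) ≤ 2 * ff X := by
      rcases le_or_gt (ff (Nat.nth Nat.Prime (m + i))) 0 with h9 | h9
      · linarith
      · have h10 := (abs_lt.1 hsl).1
        have h11 : 1 / 2 < ff X / ff (Nat.nth Nat.Prime (m + i)) := by linarith
        rw [lt_div_iff₀ h9] at h11
        linarith
    calc cc / (32 * (D + 1)) * ff (Nat.nth Nat.Prime (m + i)) ≤ cc / (32 * (D + 1)) * (2 * ff X) :=
          mul_le_mul_of_nonneg_left hffy (by positivity)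
      _ = u / 2 := by rw [hu]; field_simp; ring
  · have hcmp : ∀ i j : Fin k, gp s B kk J (e₀ + i) < gp s B kk J (e₀ + j) →
        Nat.nth Nat.Prime (m + i + 1) - Nat.nth Nat.Prime (m + i) <
          Nat.nth Nat.Prime (m + j + 1) - Nat.nth Nat.Prime (m + j) := by
      intro i j hij
      have a1 := (hgapb i i.2).2
      have a2 := (hgapb j j.2).1
      have a3 : (gp s B kk J (e₀ + i) : ℝ) + 1 ≤ gp s B kk J (e₀ + j) := by exact_mod_cast hij
      have a4 : u * ((gp s B kk J (e₀ + i) : ℝ) + 1) ≤ u * (gp s B kk J (e₀ + j) : ℝ) :=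
        mul_le_mul_of_nonneg_left a3 hupos.le
      have a5 : ((Nat.nth Nat.Prime (m + i + 1) : ℕ) : ℝ) - Nat.nth Nat.Prime (m + i) <
          ((Nat.nth Nat.Prime (m + j + 1) : ℕ) : ℝ) - Nat.nth Nat.Prime (m + j) := by linarith
      have m1 : Nat.nth Nat.Prime (m + i) ≤ Nat.nth Nat.Prime (m + i + 1) :=
        (Nat.nth_strictMono hinf).monotone (Nat.le_succ _)
      have m2 : Nat.nth Nat.Prime (m + j) ≤ Nat.nth Nat.Prime (m + j + 1) :=
        (Nat.nth_strictMono hinf).monotone (Nat.le_succ _)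
      rw [← Nat.cast_sub m1, ← Nat.cast_sub m2] at a5
      exact_mod_cast a5
    intro i j
    rw [hπ i j]
    constructor
    · exact hcmp i j
    · intro hlt
      rcases lt_trichotomy (gp s B kk J (e₀ + i)) (gp s B kk J (e₀ + j)) with h9 | h9 | h9
      · exact h9
      · exfalso
        have b1 : ¬ π i < π j := fun h => by rw [hπ] at h; omega
        have b2 : ¬ π j < π i := fun h => by rw [hπ] at h; omega
        have b3 : i = j := π.injective (le_antisymm (not_lt.1 b2) (not_lt.1 b1))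
        rw [b3] at hlt
        exact lt_irrefl _ hlt
      · exact absurd hlt (not_lt.2 (hcmp j i h9).le)

end Pool.Agent.TH816.RR
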