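import Pool.Agent.H362R2.RQ.Place
import Pool.Agent.TH816.RR.Main

set_option autoImplicit false

/-! RR: placing the forms of a record window in increasing order, far apart, with prescribed residues. -/

open Finset Filter

namespace Pool.Agent.TH816.RR

open Pool.Agent.H378R2 (yy)
open Pool.Agent.H256R2.SC (ff)
open Pool.Agent.H312R2.RG.C3 (ff_tendsto ff_lower ff_small ff_slow)
open Pool.Agent.H362R2.RQ (exists_prime_mod dvd_of_primes)
open Pool.Agent.TH779.Ord (fn)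

theorem place_rr (h : StRR) (lam : ℝ) (hlam : 1 ≤ lam) (T : ℕ) (hT : 1 ≤ T) :
    ∃ K k : ℕ, 1 ≤ k ∧ T * k ≤ K ∧ ∃ c δ : ℝ, 0 < c ∧ 0 < δ ∧ ∀ q : ℕ, Squarefree q →
    ∀ a : Fin K → ℕ, (∀ j, (a j).Coprime q) →
    ∀ᶠ X : ℝ in atTop, ∃ (n : ℕ) (t : Fin K → ℕ), X < n ∧ (n : ℝ) ≤ 3 * X ∧ c * ff X ≤ X ∧
      (∀ j j', j < j' → (t j : ℝ) + δ * ff X ≤ t j') ∧ (∀ j, (t j : ℝ) + δ * ff X ≤ c * ff X) ∧
      (∀ j, n + t j ≡ a j [MOD q]) ∧
      (T : ℝ) * (eta0 / lam) ≤ ∑ g : Fin T, fn lam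
        (((Gr K T k).filter (fun j : Fin K => (j : ℕ) / k = g)).filter (fun j => (n + t j).Prime)).card ∧
      ∀ s : ℕ, (s : ℝ) ≤ c * ff X → (n + s).Prime → ∃ j, s = t j := by
  obtain ⟨K, k, hk, hTk, c, hc, hX1'⟩ := h lam hlam T hT
  have hK0 : 0 < K := lt_of_lt_of_le (Nat.mul_pos hT hk) hTk
  have hKr : (0 : ℝ) < K := by exact_mod_cast hK0
  have hK1 : (1 : ℝ) ≤ K := by exact_mod_cast hK0
  refine ⟨K, k, hk, hTk, c, c / (8 * K), hc, by positivity, ?_⟩
  intro q hqsf a haq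
  have hq0 : 0 < q := Nat.pos_of_ne_zero hqsf.ne_zero
  obtain ⟨X1, hX1⟩ := hX1' q
  obtain ⟨ε, hε⟩ : ∃ ε : ℝ, ε = 1 / (8 * K) := ⟨_, rfl⟩
  have hεpos : 0 < ε := by rw [hε]; positivity
  have hprimes := Filter.eventually_all.2 (fun j : Fin K => exists_prime_mod q hq0 (a j) (haq j) ε hεpos)
  obtain ⟨Y0, hY0⟩ := Filter.eventually_atTop.1 hprimes
  have hll : Tendsto (fun X : ℝ => Real.log (Real.log X)) atTop atTop :=
    Real.tendsto_log_atTop.comp Real.tendsto_log_atTop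
  filter_upwards [eventually_ge_atTop X1, Real.tendsto_log_atTop.eventually_ge_atTop (4 * |Y0| + 4),
    ff_lower, ff_small c hc, hll.eventually_ge_atTop (1 / c)] with X hXX1 hlX hlow hsmall hllX
  have hY0nn := abs_nonneg Y0
  have hlpos : 0 < Real.log X := by linarith
  have hlF : Real.log X ≤ c * ff X := by
    have h1 : Real.log X * (1 / c) ≤ Real.log X * Real.log (Real.log X) :=
      mul_le_mul_of_nonneg_left hllX hlpos.le
    have h2 : Real.log X * (1 / c) ≤ ff X := h1.trans hlow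
    have h3 : c * (Real.log X * (1 / c)) ≤ c * ff X := mul_le_mul_of_nonneg_left h2 hc.le
    have h4 : c * (Real.log X * (1 / c)) = Real.log X := by field_simp
    linarith
  obtain ⟨F, hFdef⟩ : ∃ F : ℝ, F = c * ff X := ⟨_, rfl⟩
  rw [← hFdef] at hlF hsmall
  have hF : 4 * |Y0| + 4 ≤ F := hlX.trans hlF
  have hFpos : 0 < F := by linarith
  obtain ⟨s0, hs0⟩ : ∃ s0 : ℝ, s0 = F / (4 * K) := ⟨_, rfl⟩
  have hs0pos : 0 < s0 := by rw [hs0]; positivity
  have hs0K : s0 * K = F / 4 := by rw [hs0]; field_simp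
  have hεs : ε * F = s0 / 2 := by rw [hε, hs0]; field_simp; ring
  have hδs : c / (8 * K) * ff X = s0 / 2 := by rw [hs0, hFdef]; field_simp; ring
  obtain ⟨y, hy⟩ : ∃ y : Fin K → ℝ, y = fun j : Fin K => F / 4 + s0 * (j : ℕ) := ⟨_, rfl⟩
  have hyj : ∀ j, y j = F / 4 + s0 * j := fun j => by rw [hy]
  have hylow : ∀ j, F / 4 ≤ y j := by
    intro j
    rw [hyj]
    have : 0 ≤ s0 * (j : ℝ) := by positivity
    linarith
  have hyup : ∀ j, y j + s0 ≤ F / 2 := by
    intro j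
    rw [hyj]
    have h1 : ((j : ℕ) : ℝ) + 1 ≤ K := by exact_mod_cast j.2
    have h2 : s0 * ((j : ℝ) + 1) ≤ s0 * K := mul_le_mul_of_nonneg_left h1 hs0pos.le
    rw [hs0K] at h2
    linarith
  have hex : ∀ j, ∃ p : ℕ, p.Prime ∧ p ≡ a j [MOD q] ∧ y j < p ∧ (p : ℝ) ≤ y j + s0 / 2 := by
    intro j
    have h1 := hylow j
    obtain ⟨p, hp, hpa, hp1, hp2⟩ := hY0 (y j) (by
      have := le_abs_self Y0
      linarith) j
    refine ⟨p, hp, hpa, hp1, hp2.trans ?_⟩
    have h3 := hyup j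
    have h2 : ε * y j ≤ ε * F := mul_le_mul_of_nonneg_left (by linarith) hεpos.le
    linarith
  choose t htp hta htl htu using hex
  have hgap : ∀ j j', j < j' → (t j : ℝ) + s0 / 2 ≤ t j' := by
    intro j j' hjj
    have h1 := htu j
    have h2 := htl j'
    have h3 : ((j : ℕ) : ℝ) + 1 ≤ ((j' : ℕ) : ℝ) := by exact_mod_cast hjj
    have h4 : s0 * ((j : ℝ) + 1) ≤ s0 * (j' : ℝ) := mul_le_mul_of_nonneg_left h3 hs0pos.le
    rw [hyj] at h1 h2
    linarith
  have htinj : Function.Injective t := by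
    intro j j' hjj
    by_contra hne
    rcases lt_or_gt_of_ne hne with hlt | hlt
    · have := hgap j j' hlt
      rw [hjj] at this
      linarith
    · have := hgap j' j hlt
      rw [hjj] at this
      linarith
  have htF : ∀ j, (t j : ℝ) + s0 / 2 ≤ F := by
    intro j
    have h1 := htu j
    have h2 := hyup j
    linarith
  have htyy : ∀ j, yy X < t j := by
    intro j
    have h1 : (yy X : ℝ) ≤ Real.log X / 1000 := Nat.floor_le (by positivity)
    have h4 := hylow j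
    have h5 := htl j
    have h6 : (yy X : ℝ) < t j := by linarith
    exact_mod_cast h6
  obtain ⟨n, hn1, hn2, _, hn3, hn4, hn5⟩ := hX1 X hXX1 t htinj
    (fun j => ⟨htp j, htyy j, by have := htF j; rw [hFdef] at this; linarith⟩) ∅ (by
      rw [Finset.card_empty, Nat.cast_zero]
      have : 0 < X := by linarith [hFpos]
      positivity)
  have hqn : q ∣ n := dvd_of_primes q n hqsf fun p hp hpq => hn5 p hp (Nat.le_of_dvd hq0 hpq)
  rw [← hFdef, hδs]
  refine ⟨n, t, hn1, hn2, hsmall, hgap, htF, ?_, hn3, ?_⟩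
  · intro j
    have h1 : n ≡ 0 [MOD q] := (Nat.modEq_zero_iff_dvd).2 hqn
    have h2 := h1.add (hta j)
    rwa [zero_add] at h2
  · intro s hs hp
    exact hn4 s (by rw [← hFdef]; exact hs) hp

end Pool.Agent.TH816.RR
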